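import Mathlib

/-!
Weyl algebras as algebras of differential operators on polynomials.
-/

set_option autoImplicit false

namespace Pool.Agent.R693.G

/-- The Weyl algebra: the algebra of operators on `C[X_1, ..., X_k]` generated by the multiplications
by the variables and the partial derivatives. -/
noncomputable def Weyl (C : Type) [Field C] (k : ℕ) :
    Subalgebra C (Module.End C (MvPolynomial (Fin k) C)) :=
  Algebra.adjoin C
    (Set.range (fun i : Fin k => LinearMap.mulLeft C (MvPolynomial.X i : MvPolynomial (Fin k) C)) ∪
      Set.range (fun i : Fin k => ((MvPolynomial.pderiv i : Derivation C (MvPolynomial (Fin k) C)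
        (MvPolynomial (Fin k) C)) : MvPolynomial (Fin k) C →ₗ[C] MvPolynomial (Fin k) C)))

/-- Weyl pairs. -/
def IsWP {Δ : Type} [Ring Δ] {k : ℕ} (q p : Fin k → Δ) : Prop :=
  (∀ i j, q i * q j = q j * q i) ∧ (∀ i j, p i * p j = p j * p i) ∧
    ∀ i j, p i * q j - q j * p i = if i = j then 1 else 0

end Pool.Agent.R693.G
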