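import Mathlib
import Pool.Agent.R693.G.Defs

/-! # Project MP_4da284_al, piece WA-S: specialisation of a map to a Weyl algebra. -/

set_option autoImplicit false

namespace Pool.Agent.R693.G

open Cardinal

/-! ## Step 1: Schur-Dixmier -/

open Polynomial in
theorem linindep_inv {F D : Type} [Field F] [DivisionRing D] [Algebra F D] (T : D)
    (hT : Transcendental F T) :
    LinearIndependent F (fun a : F => (T - algebraMap F D a)⁻¹) := by
  classical
  rw [linearIndependent_iff']
  intro s g hg a ha
  have hne : ∀ b : F, T - algebraMap F D b ≠ 0 := by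
    intro b hb
    apply hT
    refine ⟨X - C b, X_sub_C_ne_zero b, by simpa using hb⟩
  have h2 : ∀ b ∈ s, aeval T (∏ c ∈ s.erase b, (X - C c)) =
      (aeval T (∏ c ∈ s, (X - C c))) * (T - algebraMap F D b)⁻¹ := by
    intro b hb
    rw [← Finset.prod_erase_mul s _ hb, map_mul]
    simp [hne b]
  have h1 : aeval T (∑ b ∈ s, C (g b) * ∏ c ∈ s.erase b, (X - C c)) = 0 := by
    rw [map_sum]
    have h3 : ∀ b ∈ s, aeval T (C (g b) * ∏ c ∈ s.erase b, (X - C c)) =
        (aeval T (∏ c ∈ s, (X - C c))) * (g b • (T - algebraMap F D b)⁻¹) := by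
      intro b hb
      rw [map_mul, h2 b hb, aeval_C, Algebra.smul_def, ← mul_assoc, ← mul_assoc,
        (Algebra.commutes (g b) (aeval T (∏ c ∈ s, (X - C c)) : D))]
    rw [Finset.sum_congr rfl h3, ← Finset.mul_sum, hg, mul_zero]
  have h4 : (∑ b ∈ s, C (g b) * ∏ c ∈ s.erase b, (X - C c)) = (0 : F[X]) := by
    by_contra h
    exact hT ⟨_, h, h1⟩
  have h5 := congrArg (eval a) h4
  rw [eval_finsetSum, Finset.sum_eq_single a] at h5
  · rw [eval_mul, eval_C, eval_prod, eval_zero, mul_eq_zero] at h5
    rcases h5 with h5 | h5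
    · exact h5
    · exfalso
      rw [Finset.prod_eq_zero_iff] at h5
      obtain ⟨c, hc, hc2⟩ := h5
      rw [eval_sub, eval_X, eval_C, sub_eq_zero] at hc2
      exact (Finset.ne_of_mem_erase hc) hc2.symm
  · intro b hb hba
    rw [eval_mul, eval_prod, Finset.prod_eq_zero (Finset.mem_erase.mpr ⟨hba.symm, ha⟩), mul_zero]
    simp
  · intro h; exact absurd ha h

theorem alg_surj {F D : Type} [Field F] [IsAlgClosed F] [Uncountable F] [DivisionRing D]
    [Algebra F D] (h : Module.rank F D ≤ ℵ₀) : Function.Surjective (algebraMap F D) := by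
  have h1 : Algebra.IsAlgebraic F D := by
    constructor
    intro T
    by_contra hT
    have h1 := (linindep_inv T hT).cardinal_le_rank
    have h2 : #F ≤ ℵ₀ := h1.trans h
    exact not_countable (Cardinal.mk_le_aleph0_iff.mp h2)
  have h2 : Algebra.IsIntegral F D := ⟨fun T => (h1.isAlgebraic T).isIntegral⟩
  exact (IsAlgClosed.algebraMap_bijective_of_isIntegral (k := F) (K := D)).2

theorem rank_le_of_span {F A : Type} [Field F] [AddCommGroup A] [Module F A]
    (hA : ∃ v : ℕ → A, Submodule.span F (Set.range v) = ⊤) : Module.rank F A ≤ ℵ₀ := by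
  obtain ⟨v, hv⟩ := hA
  have h1 := rank_span_le (R := F) (Set.range v)
  rw [hv, rank_top] at h1
  refine h1.trans ?_
  rw [Cardinal.mk_le_aleph0_iff]
  exact Set.countable_range v

theorem schur {F A M : Type} [Field F] [IsAlgClosed F] [Uncountable F] [Ring A] [Algebra F A]
    [AddCommGroup M] [Module F M] [Module A M] [IsScalarTower F A M] [IsSimpleModule A M]
    (hA : Module.rank F A ≤ ℵ₀) (T : Module.End A M) : ∃ c : F, ∀ m, T m = c • m := by
  classical
  have : SMulCommClass A F M := IsScalarTower.to_smulCommClass'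
  have : Nontrivial M := IsSimpleModule.nontrivial A M
  obtain ⟨m0, hm0⟩ := exists_ne (0 : M)
  have h1 : Module.rank F M ≤ ℵ₀ := by
    have hs : Function.Surjective ((LinearMap.toSpanSingleton A M m0).restrictScalars F) :=
      IsSimpleModule.toSpanSingleton_surjective A hm0
    exact (LinearMap.rank_le_of_surjective _ hs).trans hA
  have h2 : Module.rank F (Module.End A M) ≤ ℵ₀ := by
    let ev : Module.End A M →ₗ[F] M :=
      { toFun := fun T => T m0
        map_add' := fun _ _ => rfl
        map_smul' := fun _ _ => rfl }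
    have hi : Function.Injective ev := by
      rw [injective_iff_map_eq_zero]
      intro T hT
      by_contra hne
      exact hm0 ((LinearMap.bijective_of_ne_zero hne).1 (by rw [map_zero]; exact hT))
    exact (LinearMap.rank_le_of_injective ev hi).trans h1
  obtain ⟨c, hc⟩ := alg_surj h2 T
  refine ⟨c, fun m => ?_⟩
  rw [← hc]
  rfl

theorem exists_point {F R : Type} [Field F] [IsAlgClosed F] [Uncountable F] [CommRing R]
    [Nontrivial R] [Algebra F R] (h : Module.rank F R ≤ ℵ₀) : Nonempty (R →ₐ[F] F) := by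
  obtain ⟨I, hI⟩ := Ideal.exists_maximal R
  let _ : Field (R ⧸ I) := Ideal.Quotient.field I
  have h1 : Module.rank F (R ⧸ I) ≤ ℵ₀ :=
    (LinearMap.rank_le_of_surjective (Ideal.Quotient.mkₐ F I).toLinearMap
      (Ideal.Quotient.mkₐ_surjective F I)).trans h
  have h2 : Function.Bijective (algebraMap F (R ⧸ I)) :=
    ⟨(algebraMap F (R ⧸ I)).injective, alg_surj h1⟩
  exact ⟨(AlgEquiv.ofBijective (Algebra.ofId F (R ⧸ I)) h2).symm.toAlgHom.comp
    (Ideal.Quotient.mkₐ F I)⟩

/-! ## Step 2: Martindale -/

theorem martindale {F A M : Type} [Field F] [IsAlgClosed F] [Uncountable F] [Ring A] [Algebra F A]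
    [AddCommGroup M] [Module F M] [Module A M] [IsScalarTower F A M] [IsSimpleModule A M]
    (hA : Module.rank F A ≤ ℵ₀) (b b1 : A) (m0 : M) (h1 : b1 • m0 ≠ 0)
    (h : ∀ (u : A) (m : M), (b * u * b1 - b1 * u * b) • m = 0) :
    ∃ c : F, ∀ m : M, (b - c • b1) • m = 0 := by
  let f : A →ₗ[A] M := LinearMap.toSpanSingleton A M (b1 • m0)
  let g : A →ₗ[A] M := LinearMap.toSpanSingleton A M (b • m0)
  have hf : Function.Surjective f := IsSimpleModule.toSpanSingleton_surjective A h1
  have hfg : LinearMap.ker f ≤ LinearMap.ker g := by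
    intro u hu
    rw [LinearMap.mem_ker, LinearMap.toSpanSingleton_apply] at hu ⊢
    by_contra hne
    have hs := IsSimpleModule.toSpanSingleton_surjective A hne
    obtain ⟨z, hz⟩ := hs m0
    rw [LinearMap.toSpanSingleton_apply] at hz
    apply h1
    rw [← hz]
    have h2 := h (z * u) m0
    rw [sub_smul, sub_eq_zero] at h2
    have h3 : b1 • z • u • b • m0 = (b1 * (z * u) * b) • m0 := by
      simp only [mul_smul]
    rw [h3, ← h2]
    simp only [mul_smul]
    rw [hu]
    simp
  let T : Module.End A M := (Submodule.liftQ (LinearMap.ker f) g hfg) ∘ₗ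
    ((f.quotKerEquivOfSurjective hf).symm : M →ₗ[A] (A ⧸ LinearMap.ker f))
  have hT : ∀ u, T (f u) = g u := by
    intro u
    have h4 : (f.quotKerEquivOfSurjective hf).symm (f u) = Submodule.Quotient.mk u := by
      rw [LinearEquiv.symm_apply_eq]
      rfl
    show (Submodule.liftQ (LinearMap.ker f) g hfg) ((f.quotKerEquivOfSurjective hf).symm (f u)) = _
    rw [h4]
    rfl
  obtain ⟨c, hc⟩ := schur hA T
  refine ⟨c, fun m => ?_⟩
  obtain ⟨u, rfl⟩ := hf m
  have h5 : g u = c • f u := by rw [← hT, hc]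
  have h6 := h u m0
  rw [sub_smul, sub_eq_zero] at h6
  show (b - c • b1) • (u • b1 • m0) = 0
  have h7 : u • b • m0 = c • (u • b1 • m0) := h5
  rw [sub_smul, sub_eq_zero]
  have h8 : b • u • b1 • m0 = (b * u * b1) • m0 := by simp only [mul_smul]
  rw [h8, h6, mul_smul, mul_smul, h7, smul_assoc]
  have : SMulCommClass A F M := IsScalarTower.to_smulCommClass'
  rw [smul_comm]

/-! ## Step 3: independence over `C` -/

theorem indep_aux {F A M C : Type} [Field F] [IsAlgClosed F] [Uncountable F] [Ring A]
    [Algebra F A] [AddCommGroup M] [Module F M] [Module A M] [IsScalarTower F A M]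
    [IsSimpleModule A M] (hA : Module.rank F A ≤ ℵ₀) [Field C] [Algebra F C] {k : ℕ}
    (ψ : A →ₐ[F] Module.End C (MvPolynomial (Fin k) C))
    (hker : ∀ a, ψ a = 0 ↔ ∀ m : M, a • m = 0) {ι : Type} (s : Finset ι) (κ : ι → C)
    (hκ : LinearIndepOn F κ (s : Set ι)) (b : ι → A) (h : ∑ i ∈ s, κ i • ψ (b i) = 0) :
    ∀ i ∈ s, ψ (b i) = 0 := by
  classical
  induction s using Finset.induction_on generalizing b with
  | empty => simp
  | insert j t hjt ih =>
    have hκt : LinearIndepOn F κ (t : Set ι) := hκ.mono (by simp)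
    rw [Finset.sum_insert hjt] at h
    by_cases hj : ψ (b j) = 0
    · rw [hj, smul_zero, zero_add] at h
      intro i hi
      rcases Finset.mem_insert.mp hi with rfl | hi
      · exact hj
      · exact ih hκt b h i hi
    · exfalso
      have hj2 : ∃ m0 : M, b j • m0 ≠ 0 := by
        by_contra hcon
        push Not at hcon
        exact hj ((hker _).mpr hcon)
      obtain ⟨m0, hm0⟩ := hj2
      have h1 : ∀ u : A, ∀ i ∈ t, ψ (b i * u * b j - b j * u * b i) = 0 := by
        intro u
        apply ih hκt (fun i => b i * u * b j - b j * u * b i)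
        have h2 : ∀ i, κ i • ψ (b i * u * b j - b j * u * b i) =
            (κ i • ψ (b i)) * (ψ u * ψ (b j)) - (ψ (b j) * ψ u) * (κ i • ψ (b i)) := by
          intro i
          rw [map_sub, map_mul, map_mul, map_mul, map_mul, smul_sub, smul_mul_assoc,
            mul_smul_comm, mul_assoc]
        have h3 : ∑ i ∈ insert j t, κ i • ψ (b i * u * b j - b j * u * b i) = 0 := by
          rw [Finset.sum_congr rfl (fun i _ => h2 i), Finset.sum_sub_distrib, ← Finset.sum_mul,
            ← Finset.mul_sum, Finset.sum_insert hjt, h, zero_mul, mul_zero, sub_zero]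
        rw [Finset.sum_insert hjt, sub_self, map_zero, smul_zero, zero_add] at h3
        exact h3
      have h4 : ∀ i : ι, ∃ c : F, i ∈ t → ψ (b i) = c • ψ (b j) := by
        intro i
        by_cases hi : i ∈ t
        · obtain ⟨c, hc⟩ := martindale (M := M) hA (b i) (b j) m0 hm0
            (fun u m => (hker _).mp (h1 u i hi) m)
          refine ⟨c, fun _ => ?_⟩
          have h5 := (hker _).mpr hc
          rw [map_sub, map_smul, sub_eq_zero] at h5
          exact h5
        · exact ⟨0, fun h => absurd h hi⟩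
      choose c hc using h4
      have h6 : (κ j + ∑ i ∈ t, c i • κ i) • ψ (b j) = 0 := by
        rw [add_smul, Finset.sum_smul, ← h]
        congr 1
        apply Finset.sum_congr rfl
        intro i hi
        rw [hc i hi, smul_comm (κ i) (c i), smul_assoc]
      rcases smul_eq_zero.mp h6 with h7 | h7
      · have h8 := (linearIndepOn_iff'.mp hκ) (insert j t) (fun i => if i = j then 1 else c i)
          (by simp) (by
            rw [Finset.sum_insert hjt]
            simp only [if_true, one_smul]
            rw [← h7]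
            congr 1
            apply Finset.sum_congr rfl
            intro i hi
            rw [if_neg]
            rintro rfl
            exact hjt hi) j (Finset.mem_insert_self _ _)
        simp at h8
      · exact hj h7

theorem indep {F A M C : Type} [Field F] [IsAlgClosed F] [Uncountable F] [Ring A]
    [Algebra F A] [AddCommGroup M] [Module F M] [Module A M] [IsScalarTower F A M]
    [IsSimpleModule A M] (hA : Module.rank F A ≤ ℵ₀) [Field C] [Algebra F C] {k : ℕ}
    (ψ : A →ₐ[F] Module.End C (MvPolynomial (Fin k) C))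
    (hker : ∀ a, ψ a = 0 ↔ ∀ m : M, a • m = 0) {ι : Type} (b : ι → A)
    (h : LinearIndependent F (fun i => ψ (b i))) : LinearIndependent C (fun i => ψ (b i)) := by
  classical
  rw [linearIndependent_iff']
  intro s g hg i hi
  let E := Module.Basis.ofVectorSpace F C
  let t : Finset (Module.Basis.ofVectorSpaceIndex F C) := s.biUnion (fun i => (E.repr (g i)).support)
  have hgi : ∀ i ∈ s, g i = ∑ j ∈ t, E.repr (g i) j • E j := by
    intro i hi
    conv_lhs => rw [← E.linearCombination_repr (g i)]
    rw [Finsupp.linearCombination_apply, Finsupp.sum]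
    apply Finset.sum_subset (Finset.subset_biUnion_of_mem (fun i => (E.repr (g i)).support) hi)
    intro j _ hj
    rw [Finsupp.notMem_support_iff.mp hj, zero_smul]
  have h1 : ∑ j ∈ t, E j • ψ (∑ i ∈ s, E.repr (g i) j • b i) = 0 := by
    rw [← hg]
    have h2 : ∀ i ∈ s, g i • ψ (b i) = ∑ j ∈ t, E j • (E.repr (g i) j • ψ (b i)) := by
      intro i hi
      conv_lhs => rw [hgi i hi]
      rw [Finset.sum_smul]
      apply Finset.sum_congr rfl
      intro j _
      rw [smul_assoc, smul_comm]
    rw [Finset.sum_congr rfl h2, Finset.sum_comm]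
    apply Finset.sum_congr rfl
    intro j _
    rw [map_sum, Finset.smul_sum]
    apply Finset.sum_congr rfl
    intro i _
    rw [map_smul]
  have h3 := indep_aux (M := M) hA ψ hker t E (E.linearIndependent.linearIndepOn _) _ h1
  have h4 : ∀ j ∈ t, E.repr (g i) j = 0 := by
    intro j hj
    have h5 := h3 j hj
    rw [map_sum] at h5
    simp only [map_smul] at h5
    exact (linearIndependent_iff'.mp h) s (fun i => E.repr (g i) j) h5 i hi
  rw [hgi i hi]
  apply Finset.sum_eq_zero
  intro j hj
  rw [h4 j hj, zero_smul]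

/-! ## Step 4: specialisation -/

theorem rank_adjoin_countable {F C : Type} [Field F] [Field C] [Algebra F C] (s : Set C)
    (hs : s.Countable) : Module.rank F (Algebra.adjoin F s) ≤ ℵ₀ := by
  have : Countable s := hs
  rw [Algebra.adjoin_eq_range]
  have h1 := LinearMap.rank_le_of_surjective
    (MvPolynomial.aeval (R := F) ((↑) : s → C)).rangeRestrict.toLinearMap
    (AlgHom.rangeRestrict_surjective _)
  refine h1.trans ?_
  rw [MvPolynomial.rank_eq]
  exact Cardinal.mk_le_aleph0

/-- rows with non-vanishing determinant -/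
theorem exists_minor {C S ι : Type} [Field C] [Fintype ι] [DecidableEq ι] (f : ι → S → C)
    (hf : LinearIndependent C f) : ∃ σ : ι → S, (Matrix.of (fun i j => f j (σ i))).det ≠ 0 := by
  classical
  let r : S → ι → C := fun s j => f j s
  have h1 : Submodule.span C (Set.range r) = ⊤ := by
    by_contra hne
    obtain ⟨φ, hφ, hle⟩ := Submodule.exists_le_ker_of_lt_top _ (lt_top_iff_ne_top.mpr hne)
    apply hφ
    have h2 : ∑ j, φ (Pi.single j 1) • f j = 0 := by
      funext s
      have h3 : r s ∈ LinearMap.ker φ := hle (Submodule.subset_span ⟨s, rfl⟩)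
      rw [LinearMap.mem_ker, LinearMap.pi_apply_eq_sum_univ φ (r s)] at h3
      rw [Finset.sum_apply, Pi.zero_apply, ← h3]
      apply Finset.sum_congr rfl
      intro j _
      rw [Pi.smul_apply, smul_eq_mul, smul_eq_mul, mul_comm]
      congr 2
      funext i
      simp [Pi.single_apply, eq_comm]
    have h4 := Fintype.linearIndependent_iff.mp hf _ h2
    apply LinearMap.pi_ext'
    intro j
    apply LinearMap.ext_ring
    simpa using h4 j
  obtain ⟨κ, a, -, ha2, ha3⟩ := exists_linearIndependent' C r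
  rw [h1] at ha2
  let B : Module.Basis κ C (ι → C) := Module.Basis.mk ha3 (by rw [ha2])
  have e : ι ≃ κ := (Pi.basisFun C ι).indexEquiv B
  refine ⟨a ∘ e, ?_⟩
  have h5 : LinearIndependent C (Matrix.of (fun i j => f j ((a ∘ e) i))).row := by
    exact ha3.comp e e.injective
  have h6 := Matrix.linearIndependent_rows_iff_isUnit.mp h5
  rw [Matrix.isUnit_iff_isUnit_det] at h6
  exact h6.ne_zero

/-- `T` and `T'` are induced by the same operator of `R[X]` -/
def Rel {F C : Type} [Field F] [Field C] [Algebra F C] {k : ℕ} (R : Subalgebra F C)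
    (x : R →ₐ[F] F) (T : Module.End C (MvPolynomial (Fin k) C))
    (T' : Module.End F (MvPolynomial (Fin k) F)) : Prop :=
  ∀ f : MvPolynomial (Fin k) R, ∃ g : MvPolynomial (Fin k) R,
    T (MvPolynomial.map (algebraMap R C) f) = MvPolynomial.map (algebraMap R C) g ∧
    T' (MvPolynomial.map (x : R →+* F) f) = MvPolynomial.map (x : R →+* F) g

section Rel

variable {F C : Type} [Field F] [Field C] [Algebra F C] {k : ℕ} {R : Subalgebra F C}
  {x : R →ₐ[F] F} {T T1 T2 : Module.End C (MvPolynomial (Fin k) C)}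
  {T' T1' T2' T'' : Module.End F (MvPolynomial (Fin k) F)}

theorem Rel.unique (h1 : Rel R x T T') (h2 : Rel R x T T'') : T' = T'' := by
  apply LinearMap.ext
  intro p
  have h3 : MvPolynomial.map (x : R →+* F) (MvPolynomial.map (algebraMap F R) p) = p := by
    rw [MvPolynomial.map_map]
    have h4 : (x : R →+* F).comp (algebraMap F R) = RingHom.id F := by
      ext c
      simp
    rw [h4, MvPolynomial.map_id]
  obtain ⟨g, hg1, hg2⟩ := h1 (MvPolynomial.map (algebraMap F R) p)
  obtain ⟨g', hg1', hg2'⟩ := h2 (MvPolynomial.map (algebraMap F R) p)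
  rw [h3] at hg2 hg2'
  rw [hg2, hg2']
  congr 1
  apply MvPolynomial.map_injective (algebraMap R C) Subtype.val_injective
  rw [← hg1, hg1']

theorem Rel.zero : Rel (k := k) R x 0 0 := fun f => ⟨0, by simp, by simp⟩

theorem Rel.one : Rel (k := k) R x 1 1 := fun f => ⟨f, by simp, by simp⟩

theorem Rel.add (h1 : Rel R x T1 T1') (h2 : Rel R x T2 T2') :
    Rel R x (T1 + T2) (T1' + T2') := by
  intro f
  obtain ⟨g1, a1, b1⟩ := h1 f
  obtain ⟨g2, a2, b2⟩ := h2 f
  exact ⟨g1 + g2, by rw [LinearMap.add_apply, a1, a2, map_add],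
    by rw [LinearMap.add_apply, b1, b2, map_add]⟩

theorem Rel.mul (h1 : Rel R x T1 T1') (h2 : Rel R x T2 T2') :
    Rel R x (T1 * T2) (T1' * T2') := by
  intro f
  obtain ⟨g2, a2, b2⟩ := h2 f
  obtain ⟨g1, a1, b1⟩ := h1 g2
  exact ⟨g1, by rw [Module.End.mul_apply, a2, a1], by rw [Module.End.mul_apply, b2, b1]⟩

theorem Rel.const (r : R) : Rel (k := k) R x (algebraMap C _ (r : C)) (algebraMap F _ (x r)) := by
  intro f
  refine ⟨MvPolynomial.C r * f, ?_, ?_⟩
  · rw [map_mul, MvPolynomial.map_C, ← MvPolynomial.smul_eq_C_mul]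
    rfl
  · rw [map_mul, MvPolynomial.map_C, ← MvPolynomial.smul_eq_C_mul]
    rfl

theorem Rel.constF (c : F) : Rel (k := k) R x (algebraMap F _ c) (algebraMap F _ c) := by
  have h := Rel.const (k := k) (x := x) (algebraMap F R c)
  rw [AlgHom.commutes] at h
  have h2 : algebraMap C (Module.End C (MvPolynomial (Fin k) C)) ((algebraMap F R c : R) : C) =
      algebraMap F (Module.End C (MvPolynomial (Fin k) C)) c := by
    apply LinearMap.ext
    intro p
    rw [Module.algebraMap_end_apply, Module.algebraMap_end_apply]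
    show (algebraMap F C c) • p = c • p
    rw [algebraMap_smul]
  rw [h2] at h
  exact h

theorem Rel.X (i : Fin k) : Rel R x
    (LinearMap.mulLeft C (MvPolynomial.X i : MvPolynomial (Fin k) C))
    (LinearMap.mulLeft F (MvPolynomial.X i : MvPolynomial (Fin k) F)) := by
  intro f
  exact ⟨MvPolynomial.X i * f, by simp, by simp⟩

theorem Rel.pderiv (i : Fin k) : Rel R x
    ((MvPolynomial.pderiv i : Derivation C (MvPolynomial (Fin k) C)
        (MvPolynomial (Fin k) C)) : MvPolynomial (Fin k) C →ₗ[C] MvPolynomial (Fin k) C)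
    ((MvPolynomial.pderiv i : Derivation F (MvPolynomial (Fin k) F)
        (MvPolynomial (Fin k) F)) : MvPolynomial (Fin k) F →ₗ[F] MvPolynomial (Fin k) F) := by
  intro f
  refine ⟨MvPolynomial.pderiv i f, ?_, ?_⟩
  · exact MvPolynomial.pderiv_map
  · exact MvPolynomial.pderiv_map

theorem Rel.coeff (h : Rel R x T T') (α β : Fin k →₀ ℕ) : ∃ r : R,
    MvPolynomial.coeff β (T (MvPolynomial.monomial α 1)) = r ∧
    MvPolynomial.coeff β (T' (MvPolynomial.monomial α 1)) = x r := by
  obtain ⟨g, a, b⟩ := h (MvPolynomial.monomial α 1)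
  refine ⟨MvPolynomial.coeff β g, ?_, ?_⟩
  · rw [MvPolynomial.map_monomial, map_one] at a
    rw [a, MvPolynomial.coeff_map]
    rfl
  · rw [MvPolynomial.map_monomial, map_one] at b
    rw [b, MvPolynomial.coeff_map]
    rfl

theorem exists_finset (hT : T ∈ Weyl C k) : ∃ s : Finset C, ∀ (R : Subalgebra F C),
    (s : Set C) ⊆ R → ∀ x : R →ₐ[F] F, ∃ T' ∈ Weyl F k, Rel R x T T' := by
  classical
  unfold Weyl at hT
  induction hT using Algebra.adjoin_induction with
  | mem T hT =>
    refine ⟨∅, fun R _ x => ?_⟩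
    rcases hT with ⟨i, rfl⟩ | ⟨i, rfl⟩
    · exact ⟨_, Algebra.subset_adjoin (Or.inl ⟨i, rfl⟩), Rel.X i⟩
    · exact ⟨_, Algebra.subset_adjoin (Or.inr ⟨i, rfl⟩), Rel.pderiv i⟩
  | algebraMap c =>
    refine ⟨{c}, fun R hR x => ?_⟩
    have hc : c ∈ R := hR (by simp)
    exact ⟨_, Subalgebra.algebraMap_mem _ _, Rel.const ⟨c, hc⟩⟩
  | add T1 T2 _ _ ih1 ih2 =>
    obtain ⟨s1, h1⟩ := ih1
    obtain ⟨s2, h2⟩ := ih2
    refine ⟨s1 ∪ s2, fun R hR x => ?_⟩
    obtain ⟨T1', a1, b1⟩ := h1 R (fun y hy => hR (by simp [show y ∈ s1 from hy])) x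
    obtain ⟨T2', a2, b2⟩ := h2 R (fun y hy => hR (by simp [show y ∈ s2 from hy])) x
    exact ⟨T1' + T2', Subalgebra.add_mem _ a1 a2, b1.add b2⟩
  | mul T1 T2 _ _ ih1 ih2 =>
    obtain ⟨s1, h1⟩ := ih1
    obtain ⟨s2, h2⟩ := ih2
    refine ⟨s1 ∪ s2, fun R hR x => ?_⟩
    obtain ⟨T1', a1, b1⟩ := h1 R (fun y hy => hR (by simp [show y ∈ s1 from hy])) x
    obtain ⟨T2', a2, b2⟩ := h2 R (fun y hy => hR (by simp [show y ∈ s2 from hy])) x
    exact ⟨T1' * T2', Subalgebra.mul_mem _ a1 a2, b1.mul b2⟩

end Rel


/-- the entries of an operator -/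
noncomputable def entries (C : Type) [Field C] (k : ℕ) : Module.End C (MvPolynomial (Fin k) C) →ₗ[C]
    ((Fin k →₀ ℕ) × (Fin k →₀ ℕ) → C) where
  toFun T s := MvPolynomial.coeff s.2 (T (MvPolynomial.monomial s.1 1))
  map_add' T1 T2 := by funext s; simp
  map_smul' c T := by funext s; simp

theorem entries_injective (C : Type) [Field C] (k : ℕ) : Function.Injective (entries C k) := by
  rw [injective_iff_map_eq_zero]
  intro T hT
  apply MvPolynomial.linearMap_ext
  intro α
  apply LinearMap.ext_ring
  ext β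
  have h := congrFun hT (α, β)
  simpa [entries] using h

theorem specialise {F : Type} [Field F] [CharZero F] [IsAlgClosed F] [Uncountable F]
    {A : Type} [Ring A] [Algebra F A] (hA : ∃ v : ℕ → A, Submodule.span F (Set.range v) = ⊤)
    {M : Type} [AddCommGroup M] [Module A M] [IsSimpleModule A M] {P : TwoSidedIdeal A}
    (hP : ∀ a : A, a ∈ P ↔ ∀ m : M, a • m = 0)
    {C : Type} [Field C] [Algebra F C] {k : ℕ}
    (ψ : A →ₐ[F] Module.End C (MvPolynomial (Fin k) C)) (hψ : ∀ a, ψ a ∈ Weyl C k)
    (hker : ∀ a, ψ a = 0 ↔ a ∈ P) :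
    ∃ φ : A →ₐ[F] Module.End F (MvPolynomial (Fin k) F),
      (∀ a, φ a ∈ Weyl F k) ∧ ∀ a, φ a = 0 ↔ a ∈ P := by
  classical
  let _ : Module F M := Module.compHom M (algebraMap F A)
  have : IsScalarTower F A M := IsScalarTower.of_algebraMap_smul (fun _ _ => rfl)
  have hr := rank_le_of_span hA
  have hkerM : ∀ a, ψ a = 0 ↔ ∀ m : M, a • m = 0 := fun a => (hker a).trans (hP a)
  -- a basis of the range
  let B := Module.Basis.ofVectorSpace F (LinearMap.range ψ.toLinearMap)
  have hJ : Countable (Module.Basis.ofVectorSpaceIndex F (LinearMap.range ψ.toLinearMap)) := by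
    rw [← Cardinal.mk_le_aleph0_iff, B.mk_eq_rank'']
    exact (LinearMap.rank_le_of_surjective ψ.toLinearMap.rangeRestrict
      (LinearMap.surjective_rangeRestrict _)).trans hr
  have hb : ∀ j, ∃ b : A, ψ b = B j := by
    intro j
    obtain ⟨b, hb⟩ := (B j).2
    exact ⟨b, hb⟩
  choose b hb using hb
  have hli : LinearIndependent F (fun j => ψ (b j)) := by
    have h1 := B.linearIndependent.map' (LinearMap.range ψ.toLinearMap).subtype
      (Submodule.ker_subtype _)
    have h2 : (fun j => ψ (b j)) = (LinearMap.range ψ.toLinearMap).subtype ∘ B := by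
      funext j
      exact hb j
    rw [h2]
    exact h1
  have hliC := indep (M := M) hr ψ hkerM b hli
  have hminor : ∀ t : Finset (Module.Basis.ofVectorSpaceIndex F (LinearMap.range ψ.toLinearMap)),
      ∃ σ : t → (Fin k →₀ ℕ) × (Fin k →₀ ℕ),
        (Matrix.of (fun i j : t => entries C k (ψ (b j)) (σ i))).det ≠ 0 := by
    intro t
    apply exists_minor (fun j : t => entries C k (ψ (b j)))
    have h1 : LinearIndependent C (fun j : t => ψ (b j)) := hliC.comp _ Subtype.val_injective
    exact h1.map' (entries C k) (LinearMap.ker_eq_bot.mpr (entries_injective C k))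
  choose σ hσ using hminor
  obtain ⟨v, hv⟩ := hA
  have hs : ∀ n, ∃ s : Finset C, ∀ (R : Subalgebra F C),
    (s : Set C) ⊆ R → ∀ x : R →ₐ[F] F, ∃ T' ∈ Weyl F k, Rel R x (ψ (v n)) T' :=
    fun n => exists_finset (hψ (v n))
  choose s hs using hs
  let S : Set C := (⋃ n, (s n : Set C)) ∪ Set.range (fun t :
      Finset (Module.Basis.ofVectorSpaceIndex F (LinearMap.range ψ.toLinearMap)) =>
    (Matrix.of (fun i j : t => entries C k (ψ (b j)) (σ t i))).det⁻¹)
  have hS : S.Countable := by
    apply Set.Countable.union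
    · exact Set.countable_iUnion (fun n => (s n).countable_toSet)
    · exact Set.countable_range _
  obtain ⟨x⟩ := exists_point (rank_adjoin_countable (F := F) S hS)
  have hall : ∀ a : A, ∃ T' ∈ Weyl F k, Rel (Algebra.adjoin F S) x (ψ a) T' := by
    intro a
    have ha : a ∈ Submodule.span F (Set.range v) := by rw [hv]; trivial
    induction ha using Submodule.span_induction with
    | mem a ha =>
      obtain ⟨n, rfl⟩ := ha
      apply hs n
      intro y hy
      exact Algebra.subset_adjoin (Or.inl (Set.mem_iUnion.mpr ⟨n, hy⟩))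
    | zero => exact ⟨0, Subalgebra.zero_mem _, by rw [map_zero]; exact Rel.zero⟩
    | add a1 a2 _ _ ih1 ih2 =>
      obtain ⟨T1, h1, r1⟩ := ih1
      obtain ⟨T2, h2, r2⟩ := ih2
      exact ⟨T1 + T2, Subalgebra.add_mem _ h1 h2, by rw [map_add]; exact r1.add r2⟩
    | smul c a _ ih =>
      obtain ⟨T1, h1, r1⟩ := ih
      refine ⟨algebraMap F _ c * T1, Subalgebra.mul_mem _ (Subalgebra.algebraMap_mem _ _) h1, ?_⟩
      rw [map_smul, Algebra.smul_def]
      exact (Rel.constF c).mul r1
  choose φ0 hφW hφR using hall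
  let φ : A →ₐ[F] Module.End F (MvPolynomial (Fin k) F) :=
    { toFun := φ0
      map_one' := by
        apply (hφR 1).unique
        rw [map_one]; exact Rel.one
      map_mul' := fun a1 a2 => by
        apply (hφR (a1 * a2)).unique
        rw [map_mul]; exact (hφR a1).mul (hφR a2)
      map_zero' := by
        apply (hφR 0).unique
        rw [map_zero]; exact Rel.zero
      map_add' := fun a1 a2 => by
        apply (hφR (a1 + a2)).unique
        rw [map_add]; exact (hφR a1).add (hφR a2)
      commutes' := fun c => by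
        apply (hφR _).unique
        rw [AlgHom.commutes]; exact Rel.constF c }
  have hφ : ∀ a, φ a = φ0 a := fun _ => rfl
  have hz : ∀ a, ψ a = 0 → φ a = 0 := by
    intro a ha
    rw [hφ]
    apply (hφR a).unique
    rw [ha]
    exact Rel.zero
  refine ⟨φ, hφW, fun a => ⟨fun ha => ?_, fun ha => hz a ((hker a).mpr ha)⟩⟩
  rw [← hker a]
  -- the expansion of `ψ a`
  let w : LinearMap.range ψ.toLinearMap := ⟨ψ a, ⟨a, rfl⟩⟩
  let t := (B.repr w).support
  have h1 : ψ a = ∑ j ∈ t, B.repr w j • ψ (b j) := by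
    have h2 := B.linearCombination_repr w
    rw [Finsupp.linearCombination_apply, Finsupp.sum] at h2
    have h3 := congrArg (LinearMap.range ψ.toLinearMap).subtype h2
    rw [map_sum] at h3
    rw [show ψ a = (LinearMap.range ψ.toLinearMap).subtype w from rfl, ← h3]
    apply Finset.sum_congr rfl
    intro j _
    rw [map_smul, hb j]
    rfl
  have h2 : ψ (a - ∑ j ∈ t, B.repr w j • b j) = 0 := by
    rw [map_sub, map_sum, h1, sub_eq_zero]
    apply Finset.sum_congr rfl
    intro j _
    rw [map_smul]
  have h3 : ∑ j ∈ t, B.repr w j • φ (b j) = 0 := by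
    have h4 := hz _ h2
    rw [map_sub, ha, zero_sub, neg_eq_zero, map_sum] at h4
    rw [← h4]
    apply Finset.sum_congr rfl
    intro j _
    rw [map_smul]
  -- the specialised minor
  have h4 : ∀ i j : t, ∃ r : Algebra.adjoin F S, entries C k (ψ (b j)) (σ t i) = r ∧
      entries F k (φ (b j)) (σ t i) = x r := by
    intro i j
    exact (hφR (b j)).coeff (σ t i).1 (σ t i).2
  choose r hr1 hr2 using h4
  have h5 : ((Matrix.of r).det : C) =
      (Matrix.of (fun i j : t => entries C k (ψ (b j)) (σ t i))).det := by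
    have h6 := RingHom.map_det (algebraMap (Algebra.adjoin F S) C) (Matrix.of r)
    rw [show ((Matrix.of r).det : C) = algebraMap (Algebra.adjoin F S) C (Matrix.of r).det from rfl,
      h6]
    congr 1
    ext i j
    exact (hr1 i j).symm
  have h6 : x (Matrix.of r).det ≠ 0 := by
    intro h7
    have h8 : (Matrix.of (fun i j : t => entries C k (ψ (b j)) (σ t i))).det⁻¹ ∈
        Algebra.adjoin F S := Algebra.subset_adjoin (Or.inr ⟨t, rfl⟩)
    have h9 : (Matrix.of r).det * ⟨_, h8⟩ = 1 := by
      apply Subtype.ext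
      show ((Matrix.of r).det : C) * _ = 1
      rw [h5]
      exact mul_inv_cancel₀ (hσ t)
    have h10 := congrArg x h9
    rw [map_mul, h7, zero_mul, map_one] at h10
    exact zero_ne_one h10
  have h7 : (Matrix.of (fun i j : t => entries F k (φ (b j)) (σ t i))).det ≠ 0 := by
    intro h8
    apply h6
    have h9 := RingHom.map_det (x : Algebra.adjoin F S →+* F) (Matrix.of r)
    have h10 : (x : Algebra.adjoin F S →+* F).mapMatrix (Matrix.of r) =
        Matrix.of (fun i j : t => entries F k (φ (b j)) (σ t i)) := by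
      ext i j
      exact (hr2 i j).symm
    rw [h10, h8] at h9
    exact h9
  have h8 : (Matrix.of (fun i j : t => entries F k (φ (b j)) (σ t i))).mulVec
      (fun j : t => B.repr w j) = 0 := by
    funext i
    rw [Matrix.mulVec, dotProduct]
    have h9 := congrFun (congrArg (entries F k) h3) (σ t i)
    rw [map_sum, map_zero, ← Finset.sum_coe_sort] at h9
    rw [Finset.sum_apply] at h9
    rw [Pi.zero_apply] at h9 ⊢
    rw [← h9]
    apply Finset.sum_congr rfl
    intro j _
    rw [map_smul, Pi.smul_apply, smul_eq_mul, mul_comm]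
    rfl
  have h9 := Matrix.eq_zero_of_mulVec_eq_zero h7 h8
  rw [h1]
  apply Finset.sum_eq_zero
  intro j hj
  have h10 := congrFun h9 ⟨j, hj⟩
  simp only [Pi.zero_apply] at h10
  rw [h10, zero_smul]

end Pool.Agent.R693.G
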