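import Pool.Agent.R693.G.Defs

/-!
Piece WA-T: a family `Z` in a division ring with the relations of the Lie algebra of vector fields vanishing
at a point, and only finitely many nonzero members, lies in the algebra generated by Weyl pairs and
elements which commute with it.
-/

set_option autoImplicit false

namespace Pool.Agent.R693.G

namespace WT

section Basics

variable (K : Type) [Field K] {Δ : Type} [Ring Δ] [Algebra K Δ]

/-- The commutator with `u`. -/
noncomputable def ad (u : Δ) : Δ →ₗ[K] Δ := LinearMap.mulLeft K u - LinearMap.mulRight K u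

lemma ad_apply (u b : Δ) : ad K u b = u * b - b * u := rfl

lemma ad_mul (u a b : Δ) : ad K u (a * b) = ad K u a * b + a * ad K u b := by
  simp only [ad_apply]; noncomm_ring

lemma ad_jac (a u c : Δ) : ad K a (ad K u c) = ad K u (ad K a c) - ad K (ad K u a) c := by
  simp only [ad_apply]; noncomm_ring

lemma ad_eq_zero {u b : Δ} : ad K u b = 0 ↔ Commute u b := by
  rw [ad_apply, sub_eq_zero]; rfl

variable {K}

/-- The centraliser of `{q, p}`. -/
def InC (q p c : Δ) : Prop := Commute q c ∧ Commute p c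

variable (K)

/-- Elements which commute with `q` and on which `ad p` is nilpotent. -/
def InT (q p b : Δ) : Prop := Commute q b ∧ ∃ n : ℕ, ((ad K p) ^ n) b = 0

/-- `c` is the constant coefficient of `b`. -/
def Rel (q p b c : Δ) : Prop := InC q p c ∧ ∃ t, InT K q p t ∧ b = c + q * t

variable {K}

lemma pow_le_zero {p b : Δ} {n m : ℕ} (h : n ≤ m) (hb : ((ad K p) ^ n) b = 0) :
    ((ad K p) ^ m) b = 0 := by
  obtain ⟨k, rfl⟩ := Nat.exists_eq_add_of_le' h
  rw [pow_add, Module.End.mul_apply, hb, map_zero]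

lemma T_zero {q p : Δ} : InT K q p 0 := ⟨Commute.zero_right _, 0, by simp⟩

lemma T_add {q p a b : Δ} (ha : InT K q p a) (hb : InT K q p b) : InT K q p (a + b) := by
  obtain ⟨h1, n, hn⟩ := ha
  obtain ⟨h2, m, hm⟩ := hb
  refine ⟨h1.add_right h2, n + m, ?_⟩
  rw [map_add, pow_le_zero (Nat.le_add_right n m) hn, pow_le_zero (Nat.le_add_left m n) hm,
    add_zero]

lemma T_smul {q p a : Δ} (x : K) (ha : InT K q p a) : InT K q p (x • a) := by
  obtain ⟨h1, n, hn⟩ := ha
  exact ⟨h1.smul_right x, n, by rw [map_smul, hn, smul_zero]⟩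

lemma T_neg {q p a : Δ} (ha : InT K q p a) : InT K q p (-a) := by
  have := T_smul (-1 : K) ha
  rwa [neg_smul, one_smul] at this

lemma T_sub {q p a b : Δ} (ha : InT K q p a) (hb : InT K q p b) : InT K q p (a - b) := by
  rw [sub_eq_add_neg]; exact T_add ha (T_neg hb)

lemma pow_mul_zero {p : Δ} : ∀ (s n m : ℕ) (a b : Δ), n + m = s → ((ad K p) ^ n) a = 0 →
    ((ad K p) ^ m) b = 0 → ((ad K p) ^ s) (a * b) = 0 := by
  intro s
  induction s with
  | zero =>
    intro n m a b h ha hb
    obtain rfl : n = 0 := by omega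
    simp only [pow_zero, Module.End.one_apply] at ha ⊢
    rw [ha, zero_mul]
  | succ s ih =>
    intro n m a b h ha hb
    rcases Nat.eq_zero_or_pos n with rfl | hn
    · simp only [pow_zero, Module.End.one_apply] at ha
      rw [ha, zero_mul, map_zero]
    rcases Nat.eq_zero_or_pos m with rfl | hm
    · simp only [pow_zero, Module.End.one_apply] at hb
      rw [hb, mul_zero, map_zero]
    obtain ⟨n, rfl⟩ : ∃ k, n = k + 1 := ⟨n - 1, by omega⟩
    obtain ⟨m, rfl⟩ : ∃ k, m = k + 1 := ⟨m - 1, by omega⟩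
    rw [pow_succ, Module.End.mul_apply, ad_mul, map_add,
      ih n (m + 1) (ad K p a) b (by omega) (by rwa [pow_succ, Module.End.mul_apply] at ha) hb,
      ih (n + 1) m a (ad K p b) (by omega) ha (by rwa [pow_succ, Module.End.mul_apply] at hb),
      add_zero]

lemma T_mul {q p a b : Δ} (ha : InT K q p a) (hb : InT K q p b) : InT K q p (a * b) := by
  obtain ⟨h1, n, hn⟩ := ha
  obtain ⟨h2, m, hm⟩ := hb
  exact ⟨h1.mul_right h2, n + m, pow_mul_zero _ n m a b rfl hn hm⟩

lemma T_of_C {q p c : Δ} (h : InC q p c) : InT K q p c :=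
  ⟨h.1, 1, by rw [pow_one, ad_eq_zero]; exact h.2⟩

lemma T_q {q p : Δ} (h : p * q - q * p = 1) : InT K q p q := by
  refine ⟨Commute.refl _, 2, ?_⟩
  rw [pow_two, Module.End.mul_apply, ad_apply K p q, h, ad_apply]; simp

lemma rel_zero {q p : Δ} : Rel K q p 0 0 :=
  ⟨⟨Commute.zero_right _, Commute.zero_right _⟩, 0, T_zero, by simp⟩

lemma rel_self {q p c : Δ} (h : InC q p c) : Rel K q p c c := ⟨h, 0, T_zero, by simp⟩

lemma rel_sub {q p a b c d : Δ} (h1 : Rel K q p a c) (h2 : Rel K q p b d) :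
    Rel K q p (a - b) (c - d) := by
  obtain ⟨h1, t, ht, rfl⟩ := h1
  obtain ⟨h2, s, hs, rfl⟩ := h2
  exact ⟨⟨h1.1.sub_right h2.1, h1.2.sub_right h2.2⟩, t - s, T_sub ht hs, by noncomm_ring⟩

lemma rel_smul {q p a c : Δ} (x : K) (h1 : Rel K q p a c) : Rel K q p (x • a) (x • c) := by
  obtain ⟨h1, t, ht, rfl⟩ := h1
  exact ⟨⟨h1.1.smul_right x, h1.2.smul_right x⟩, x • t, T_smul x ht, by
    rw [smul_add, mul_smul_comm]⟩

lemma rel_mul {q p a b c d : Δ} (hq : p * q - q * p = 1) (h1 : Rel K q p a c)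
    (h2 : Rel K q p b d) : Rel K q p (a * b) (c * d) := by
  obtain ⟨h1, t, ht, rfl⟩ := h1
  obtain ⟨h2, s, hs, rfl⟩ := h2
  refine ⟨⟨h1.1.mul_right h2.1, h1.2.mul_right h2.2⟩, c * s + t * d + t * (q * s),
    T_add (T_add (T_mul (T_of_C h1) hs) (T_mul ht (T_of_C h2))) (T_mul ht (T_mul (T_q hq) hs)), ?_⟩
  have e1 : c * (q * s) = q * (c * s) := by
    rw [← mul_assoc, ← h1.1.eq, mul_assoc]
  calc (c + q * t) * (d + q * s) = c * d + c * (q * s) + q * t * d + q * t * (q * s) := by
        noncomm_ring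
    _ = _ := by rw [e1]; noncomm_ring

/-- Elements with a given weight act on the constant coefficients. -/
lemma pow_ad {u p : Δ} {x : K} (hp : ad K u p = x • p) (n : ℕ) (t : Δ) :
    ((ad K p) ^ n) (ad K u t) = ad K u (((ad K p) ^ n) t) - ((n : K) * x) • ((ad K p) ^ n) t := by
  induction n with
  | zero => simp
  | succ n ih =>
    rw [pow_succ', Module.End.mul_apply, ih, map_sub, map_smul, ad_jac K p u, hp,
      Module.End.mul_apply]
    have : ad K (x • p) (((ad K p) ^ n) t) = x • ad K p (((ad K p) ^ n) t) := by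
      rw [ad_apply, ad_apply, smul_sub, smul_mul_assoc, mul_smul_comm]
    rw [this, sub_sub, ← add_smul]
    congr 2
    push_cast
    ring

lemma comm_ad {u a c : Δ} {x : K} (ha : ad K u a = x • a) (h : Commute a c) :
    Commute a (ad K u c) := by
  rw [← ad_eq_zero K, ad_jac, (ad_eq_zero K).2 h, map_zero, ha, zero_sub, neg_eq_zero, ad_apply,
    smul_mul_assoc, mul_smul_comm, ← smul_sub, ← ad_apply K, (ad_eq_zero K).2 h, smul_zero]

lemma rel_ad {q p b c u : Δ} {x : K} (hp : ad K u p = x • p)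
    (hq : ad K u q = (-x) • q) (h : Rel K q p b c) : Rel K q p (ad K u b) (ad K u c) := by
  obtain ⟨h1, t, ht, rfl⟩ := h
  refine ⟨⟨comm_ad hq h1.1, comm_ad hp h1.2⟩, (-x) • t + ad K u t, T_add (T_smul _ ht) ?_, ?_⟩
  · obtain ⟨n, hn⟩ := ht.2
    exact ⟨comm_ad hq ht.1, n, by rw [pow_ad hp, hn, map_zero, smul_zero, sub_zero]⟩
  · rw [map_add, ad_mul, hq, mul_add, smul_mul_assoc, mul_smul_comm]

end Basics

section Unique

variable {K : Type} [Field K] [CharZero K] {Δ : Type} [Ring Δ] [Algebra K Δ]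

lemma unique_zero {q p c t : Δ} (hq : p * q - q * p = 1) (hc : InC q p c) (ht : InT K q p t)
    (h : c = q * t) : c = 0 := by
  have h0 : t + q * ad K p t = 0 := by
    have h1 : ad K p c = 0 := (ad_eq_zero K).2 hc.2
    rw [h, ad_mul, ad_apply K p q, hq, one_mul] at h1
    exact h1
  have h2 : ∀ k : ℕ, ((k : K) + 1) • ((ad K p) ^ k) t = -(q * ((ad K p) ^ (k + 1)) t) := by
    intro k
    induction k with
    | zero => simpa using eq_neg_of_add_eq_zero_left h0
    | succ k ih =>
      have h3 := congrArg (ad K p) ih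
      rw [map_smul, map_neg, ad_mul, ad_apply K p q, hq, one_mul, ← Module.End.mul_apply,
        ← pow_succ', ← Module.End.mul_apply (ad K p), ← pow_succ'] at h3
      push_cast
      rw [add_smul ((k : K) + 1) 1, h3, one_smul]
      abel
  have h4 : ∀ n : ℕ, ((ad K p) ^ n) t = 0 → t = 0 := by
    intro n
    induction n with
    | zero => intro h; simpa using h
    | succ n ih =>
      intro h
      apply ih
      have h5 := h2 n
      rw [h, mul_zero, neg_zero] at h5
      have h6 : ((n : K) + 1) ≠ 0 := by exact_mod_cast Nat.succ_ne_zero n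
      exact (smul_eq_zero_iff_right h6).1 h5
  obtain ⟨n, hn⟩ := ht.2
  rw [h, h4 n hn, mul_zero]

lemma rel_unique {q p b c d : Δ} (hq : p * q - q * p = 1) (h1 : Rel K q p b c)
    (h2 : Rel K q p b d) : c = d := by
  have h3 := rel_sub h1 h2
  rw [sub_self] at h3
  obtain ⟨h4, t, ht, h5⟩ := h3
  have h6 : c - d = q * (-t) := by
    rw [mul_neg]; exact eq_neg_of_add_eq_zero_left h5.symm
  exact sub_eq_zero.1 (unique_zero hq h4 (T_neg ht) h6)

/-- A polynomial in `q` with coefficients in `S`. -/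
def Good (q : Δ) (S : Set Δ) (b : Δ) : Prop :=
  ∃ (n : ℕ) (c : ℕ → Δ), (∀ k, c k ∈ S) ∧ b = ∑ k ∈ Finset.range n, q ^ k * c k

lemma good_cons {q z t : Δ} {S : Set Δ} (hz : z ∈ S) (h : Good q S t) : Good q S (z + q * t) := by
  obtain ⟨n, c, hc, rfl⟩ := h
  refine ⟨n + 1, fun k => if k = 0 then z else c (k - 1), ?_, ?_⟩
  · intro k
    by_cases hk : k = 0
    · simp [hk, hz]
    · simp [hk, hc]
  · rw [Finset.sum_range_succ', Finset.mul_sum, add_comm]
    congr 1
    · apply Finset.sum_congr rfl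
      intro k _
      show q * (q ^ k * c k) = q ^ (k + 1) * (if k + 1 = 0 then z else c (k + 1 - 1))
      rw [if_neg (by omega), Nat.add_sub_cancel, pow_succ', mul_assoc]
    · simp

lemma ad_pow_q {q p : Δ} (hq : p * q - q * p = 1) (k : ℕ) :
    ad K p (q ^ (k + 1)) = ((k : K) + 1) • q ^ k := by
  induction k with
  | zero => rw [zero_add, pow_one, ad_apply, hq]; simp
  | succ k ih =>
    rw [pow_succ, ad_mul, ih, ad_apply K p q, hq, mul_one, smul_mul_assoc, ← pow_succ]
    push_cast
    rw [add_smul ((k : K) + 1) 1, one_smul]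

omit [CharZero K] in
lemma good_T {q p t : Δ} {S : Set Δ} (hq : p * q - q * p = 1) (hS : ∀ s ∈ S, InC q p s)
    (h : Good q S t) : InT K q p t := by
  obtain ⟨n, c, hc, rfl⟩ := h
  have hpow : ∀ k : ℕ, InT K q p (q ^ k) := by
    intro k
    induction k with
    | zero =>
      rw [pow_zero]
      exact T_of_C ⟨Commute.one_right _, Commute.one_right _⟩
    | succ k ih => rw [pow_succ]; exact T_mul ih (T_q hq)
  induction n with
  | zero => simpa using T_zero
  | succ n ih =>
    rw [Finset.sum_range_succ]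
    exact T_add ih (T_mul (hpow n) (T_of_C (hS _ (hc n))))

lemma good_int {q p b : Δ} {S : Submodule K Δ} (hq : p * q - q * p = 1)
    (hS : ∀ s ∈ S, InC q p s) (hb : Commute q b) (h : Good q (S : Set Δ) (ad K p b)) :
    ∃ z t, InC q p z ∧ Good q (S : Set Δ) t ∧ b = z + q * t := by
  obtain ⟨n, c, hc, hn⟩ := h
  have ht : Good q (S : Set Δ) (∑ k ∈ Finset.range n, q ^ k * (((k : K) + 1)⁻¹ • c k)) :=
    ⟨n, fun k => ((k : K) + 1)⁻¹ • c k, fun k => S.smul_mem _ (hc k), rfl⟩
  set t := ∑ k ∈ Finset.range n, q ^ k * (((k : K) + 1)⁻¹ • c k) with htdef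
  have hqt : Commute q t := (good_T (K := K) hq hS ht).1
  have hD : ad K p (q * t) = ad K p b := by
    rw [hn, htdef, Finset.mul_sum, map_sum]
    apply Finset.sum_congr rfl
    intro k _
    have h6 : ((k : K) + 1) ≠ 0 := by exact_mod_cast Nat.succ_ne_zero k
    rw [← mul_assoc, ← pow_succ', ad_mul, ad_pow_q hq, map_smul, (ad_eq_zero K).2 (hS _ (hc k)).2,
      smul_zero, mul_zero, add_zero, smul_mul_assoc, mul_smul_comm, smul_smul,
      mul_inv_cancel₀ h6, one_smul]
  refine ⟨b - q * t, t, ⟨hb.sub_right ((Commute.refl q).mul_right hqt), ?_⟩, ht, by abel⟩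
  rw [← ad_eq_zero K, map_sub, hD, sub_self]

omit [CharZero K] in
lemma comm_ad_p {q p b : Δ} (hq : p * q - q * p = 1) (hb : Commute q b) :
    Commute q (ad K p b) := by
  rw [← ad_eq_zero K, ad_jac, (ad_eq_zero K).2 hb, map_zero, ad_apply K p q, hq, zero_sub,
    neg_eq_zero, ad_eq_zero]
  exact Commute.one_left _

lemma exists_rel {q p b : Δ} (hq : p * q - q * p = 1) (hb : InT K q p b) :
    ∃ c, Rel K q p b c := by
  set S : Submodule K Δ := Subalgebra.toSubmodule (Subalgebra.centralizer K {q, p}) with hSdef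
  have hS : ∀ s ∈ S, InC q p s := by
    intro s hs
    rw [hSdef, Subalgebra.mem_toSubmodule, Subalgebra.mem_centralizer_iff] at hs
    exact ⟨hs q (by simp), hs p (by simp)⟩
  have hS' : ∀ s, InC q p s → s ∈ S := by
    intro s hs
    rw [hSdef, Subalgebra.mem_toSubmodule, Subalgebra.mem_centralizer_iff]
    rintro g (rfl | rfl)
    · exact hs.1
    · exact hs.2
  have key : ∀ (n : ℕ) (b : Δ), Commute q b → ((ad K p) ^ n) b = 0 → Good q (S : Set Δ) b := by
    intro n
    induction n with
    | zero =>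
      intro b _ h
      simp only [pow_zero, Module.End.one_apply] at h
      exact ⟨0, fun _ => 0, fun _ => S.zero_mem, by simp [h]⟩
    | succ n ih =>
      intro b hb h
      rw [pow_succ, Module.End.mul_apply] at h
      obtain ⟨z, t, hz, ht, rfl⟩ := good_int hq hS hb (ih _ (comm_ad_p hq hb) h)
      exact good_cons (hS' z hz) ht
  obtain ⟨h1, n, hn⟩ := hb
  rcases Nat.eq_zero_or_pos n with rfl | hpos
  · simp only [pow_zero, Module.End.one_apply] at hn
    exact ⟨0, by rw [hn]; exact rel_zero⟩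
  · obtain ⟨m, rfl⟩ : ∃ m, n = m + 1 := ⟨n - 1, by omega⟩
    rw [pow_succ, Module.End.mul_apply] at hn
    obtain ⟨z, t, hz, ht, rfl⟩ := good_int hq hS h1 (key m _ (comm_ad_p hq h1) hn)
    exact ⟨z, hz, t, good_T hq hS ht, rfl⟩

end Unique

section Main

variable {K : Type} [Field K] [CharZero K] {Δ : Type} [DivisionRing Δ] [Algebra K Δ]

/-- The relations of the family `w` after stage `i`. -/
structure Inv (K : Type) [Field K] {Δ : Type} [DivisionRing Δ] [Algebra K Δ] (N i : ℕ)
    (w : ℕ → Δ) (e : Δ) : Prop where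
  top : ∀ j, N < j → w j = 0
  gap : ∀ j, N ≤ j + i → j < N → w j = 0
  ne : w N ≠ 0
  rel : ∀ a b, i < a → i < b → w a * w b - w b * w a = ((b : K) - a) • w (a + b)
  wt : ∀ j, i < j → e * w j - w j * e = (j : K) • w j

/-- The conclusion for the family `w` after stage `i`. -/
def Concl (K : Type) [Field K] {Δ : Type} [DivisionRing Δ] [Algebra K Δ] (i : ℕ)
    (w : ℕ → Δ) (e : Δ) : Prop :=
  ∃ (n : ℕ) (q p : Fin n → Δ) (Γ : Set Δ), IsWP q p ∧
    (∀ γ ∈ Γ, Commute γ e ∧ ∀ j, i < j → Commute γ (w j)) ∧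
    (∀ d : Δ, Commute d e → (∀ j, i < j → Commute d (w j)) →
      (∀ k, Commute d (q k)) ∧ (∀ k, Commute d (p k)) ∧ ∀ γ ∈ Γ, Commute d γ) ∧
    e ∈ Algebra.adjoin K (Set.range q ∪ Set.range p ∪ Γ) ∧
    ∀ j, i < j → w j ∈ Algebra.adjoin K (Set.range q ∪ Set.range p ∪ Γ)

omit [CharZero K] in
lemma comm_inv {a b : Δ} (h : Commute a b) : Commute a b⁻¹ := h.inv_right₀

/-- The last stage, `w N` the only nonzero member. -/
lemma last_one {N i : ℕ} {w : ℕ → Δ} {e : Δ} (hi : i < N) (H : Inv K N i w e)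
    (h0 : ∀ j, i < j → j ≠ N → w j = 0) : Concl K i w e := by
  have hx : w N ≠ 0 := H.ne
  have hN : (N : K) ≠ 0 := by
    have : N ≠ 0 := by omega
    exact_mod_cast this
  have he : e * w N - w N * e = (N : K) • w N := H.wt N hi
  have hp : (N : K)⁻¹ • ((w N)⁻¹ * e) * w N - w N * ((N : K)⁻¹ • ((w N)⁻¹ * e)) = 1 := by
    rw [smul_mul_assoc, mul_smul_comm, ← smul_sub, mul_inv_cancel_left₀ hx, mul_assoc]
    have h1 : e * w N = w N * e + (N : K) • w N := by rw [← he]; abel
    rw [h1, mul_add, inv_mul_cancel_left₀ hx, mul_smul_comm, inv_mul_cancel₀ hx, add_sub_cancel_left,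
      smul_smul, inv_mul_cancel₀ hN, one_smul]
  refine ⟨1, fun _ => w N, fun _ => (N : K)⁻¹ • ((w N)⁻¹ * e), ∅, ?_, ?_, ?_, ?_, ?_⟩
  · refine ⟨fun _ _ => rfl, fun _ _ => rfl, fun a b => ?_⟩
    rw [if_pos (Subsingleton.elim a b)]
    exact hp
  · intro γ hγ
    exact absurd hγ (Set.notMem_empty γ)
  · intro d hd hw
    have h1 : Commute d (w N) := hw N hi
    exact ⟨fun _ => h1, fun _ => ((comm_inv h1).mul_right hd).smul_right _,
      fun γ hγ => absurd hγ (Set.notMem_empty γ)⟩
  · have h1 : e = (N : K) • (w N * ((N : K)⁻¹ • ((w N)⁻¹ * e))) := by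
      rw [mul_smul_comm, smul_smul, mul_inv_cancel₀ hN, one_smul, mul_inv_cancel_left₀ hx]
    rw [h1]
    refine Subalgebra.smul_mem _ (Subalgebra.mul_mem _ ?_ ?_) _
    · exact Algebra.subset_adjoin (Or.inl (Or.inl ⟨0, rfl⟩))
    · rw [← h1]
      exact Algebra.subset_adjoin (Or.inl (Or.inr ⟨0, rfl⟩))
  · intro j hj
    by_cases hjN : j = N
    · rw [hjN]
      exact Algebra.subset_adjoin (Or.inl (Or.inl ⟨0, rfl⟩))
    · rw [h0 j hj hjN]
      exact Subalgebra.zero_mem _

/-- The last stage, `N = 2 (i + 1)` and `w (i + 1) ≠ 0`. -/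
lemma last_two {i : ℕ} {w : ℕ → Δ} {e : Δ} (H : Inv K (2 * (i + 1)) i w e)
    (hc0 : w (i + 1) ≠ 0)
    (h0 : ∀ j, i < j → j ≠ i + 1 → j ≠ 2 * (i + 1) → w j = 0) : Concl K i w e := by
  set c := w (i + 1) with hc
  set x := w (2 * (i + 1)) with hxdef
  have hx : x ≠ 0 := H.ne
  have hi1 : ((i : K) + 1) ≠ 0 := by exact_mod_cast Nat.succ_ne_zero i
  have hec : e * c - c * e = ((i : K) + 1) • c := by
    have := H.wt (i + 1) (by omega)
    push_cast at this
    exact this
  have hex : e * x - x * e = (2 * ((i : K) + 1)) • x := by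
    have := H.wt (2 * (i + 1)) (by omega)
    push_cast at this
    exact this
  have hcx : Commute c x := by
    have h1 := H.rel (i + 1) (2 * (i + 1)) (by omega) (by omega)
    rw [H.top (i + 1 + 2 * (i + 1)) (by omega), smul_zero, sub_eq_zero] at h1
    exact h1
  have hγe : Commute (c * c * x⁻¹) e := by
    have h1 : e * c = c * e + ((i : K) + 1) • c := by rw [← hec]; abel
    have h2 : e * x = x * e + (2 * ((i : K) + 1)) • x := by rw [← hex]; abel
    have h3 : e * (c * c) = c * c * e + (2 * ((i : K) + 1)) • (c * c) := by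
      rw [← mul_assoc, h1, add_mul, mul_assoc c e c, h1, mul_add, smul_mul_assoc, mul_smul_comm,
        mul_assoc]
      module
    have h4 : x⁻¹ * e = e * x⁻¹ + (2 * ((i : K) + 1)) • x⁻¹ := by
      have h5 : x⁻¹ * (e * x) * x⁻¹ = x⁻¹ * (x * e + (2 * ((i : K) + 1)) • x) * x⁻¹ := by rw [h2]
      rw [mul_add, inv_mul_cancel_left₀ hx, mul_smul_comm, inv_mul_cancel₀ hx, add_mul,
        smul_mul_assoc, one_mul, ← mul_assoc, mul_assoc _ x x⁻¹, mul_inv_cancel₀ hx, mul_one] at h5
      exact h5
    show c * c * x⁻¹ * e = e * (c * c * x⁻¹)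
    rw [← mul_assoc e, h3, mul_assoc (c * c) x⁻¹ e, h4, mul_add, add_mul, mul_smul_comm,
      smul_mul_assoc, mul_assoc (c * c) e]
  have hγ0 : c * c * x⁻¹ ≠ 0 := mul_ne_zero (mul_ne_zero hc0 hc0) (inv_ne_zero hx)
  have hγc : Commute (c * c * x⁻¹) c :=
    (((Commute.refl c).mul_right (Commute.refl c)).mul_right (comm_inv hcx)).symm
  have hγx : Commute (c * c * x⁻¹) x :=
    ((hcx.symm.mul_right hcx.symm).mul_right (comm_inv (Commute.refl x))).symm
  have hall : ∀ d : Δ, Commute d c → Commute d x → ∀ j, i < j → Commute d (w j) := by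
    intro d h1 h2 j hj
    by_cases h3 : j = i + 1
    · rw [h3]; exact h1
    by_cases h4 : j = 2 * (i + 1)
    · rw [h4]; exact h2
    rw [h0 j hj h3 h4]
    exact Commute.zero_right d
  refine ⟨1, fun _ => c, fun _ => ((i : K) + 1)⁻¹ • (c⁻¹ * e),
    {c * c * x⁻¹, (c * c * x⁻¹)⁻¹}, ?_, ?_, ?_, ?_, ?_⟩
  · refine ⟨fun _ _ => rfl, fun _ _ => rfl, fun a b => ?_⟩
    rw [if_pos (Subsingleton.elim a b)]
    have h1 : e * c = c * e + ((i : K) + 1) • c := by rw [← hec]; abel
    rw [smul_mul_assoc, mul_smul_comm, ← smul_sub, mul_inv_cancel_left₀ hc0, mul_assoc, h1, mul_add,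
      inv_mul_cancel_left₀ hc0, mul_smul_comm, inv_mul_cancel₀ hc0, add_sub_cancel_left,
      smul_smul, inv_mul_cancel₀ hi1, one_smul]
  · rintro γ (rfl | rfl)
    · exact ⟨hγe, hall _ hγc hγx⟩
    · exact ⟨hγe.inv_left₀, hall _ hγc.inv_left₀ hγx.inv_left₀⟩
  · intro d hd hw
    have h1 : Commute d c := hw (i + 1) (by omega)
    have h2 : Commute d x := hw (2 * (i + 1)) (by omega)
    have h3 : Commute d (c * c * x⁻¹) := (h1.mul_right h1).mul_right (comm_inv h2)
    refine ⟨fun _ => h1, fun _ => ((comm_inv h1).mul_right hd).smul_right _, ?_⟩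
    rintro γ (rfl | rfl)
    · exact h3
    · exact comm_inv h3
  · have h1 : e = ((i : K) + 1) • (c * (((i : K) + 1)⁻¹ • (c⁻¹ * e))) := by
      rw [mul_smul_comm, smul_smul, mul_inv_cancel₀ hi1, one_smul, mul_inv_cancel_left₀ hc0]
    rw [h1]
    refine Subalgebra.smul_mem _ (Subalgebra.mul_mem _ ?_ ?_) _
    · exact Algebra.subset_adjoin (Or.inl (Or.inl ⟨0, rfl⟩))
    · rw [← h1]
      exact Algebra.subset_adjoin (Or.inl (Or.inr ⟨0, rfl⟩))
  · have hcm : c ∈ Algebra.adjoin K (Set.range (fun _ : Fin 1 => c) ∪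
        Set.range (fun _ : Fin 1 => ((i : K) + 1)⁻¹ • (c⁻¹ * e)) ∪
        {c * c * x⁻¹, (c * c * x⁻¹)⁻¹}) :=
      Algebra.subset_adjoin (Or.inl (Or.inl ⟨0, rfl⟩))
    intro j hj
    by_cases h3 : j = i + 1
    · rw [h3]; exact hcm
    by_cases h4 : j = 2 * (i + 1)
    · rw [h4]
      have h5 : w (2 * (i + 1)) = (c * c * x⁻¹)⁻¹ * (c * c) := by
        rw [mul_inv_rev, inv_inv, mul_assoc, inv_mul_cancel₀ (mul_ne_zero hc0 hc0), mul_one]
      rw [h5]
      refine Subalgebra.mul_mem _ ?_ (Subalgebra.mul_mem _ hcm hcm)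
      exact Algebra.subset_adjoin (Or.inr (Or.inr rfl))
    rw [h0 j hj h3 h4]
    exact Subalgebra.zero_mem _

/-- The recursion. -/
lemma recur (N : ℕ) : ∀ (m i : ℕ), 2 * i < N → N ≤ 2 * i + m → ∀ (w : ℕ → Δ) (e : Δ),
    Inv K N i w e → Concl K i w e := by
  intro m
  induction m with
  | zero => intro i h1 h2; omega
  | succ m ih =>
    intro i h1 h2 w e H
    by_cases hlast : N ≤ 2 * (i + 1)
    · by_cases hc0 : N = 2 * (i + 1) ∧ w (i + 1) ≠ 0
      · obtain ⟨rfl, hc0⟩ := hc0
        exact last_two H hc0 fun j hj h3 h4 => by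
          rcases lt_or_ge (2 * (i + 1)) j with h5 | h5
          · exact H.top j h5
          · exact H.gap j (by omega) (by omega)
      · refine last_one (by omega) H fun j hj h3 => ?_
        rcases lt_or_ge N j with h5 | h5
        · exact H.top j h5
        · by_cases h6 : N ≤ j + i
          · exact H.gap j h6 (by omega)
          · have h7 : j = i + 1 := by omega
            have h8 : N = 2 * (i + 1) := by omega
            by_contra h9
            rw [h7] at h9
            exact hc0 ⟨h8, h9⟩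
    push Not at hlast
    -- the new pair
    set p := w (i + 1) with hpdef
    set y := w (N - (i + 1)) with hydef
    set x := w N with hxdef
    have hx : x ≠ 0 := H.ne
    obtain ⟨a, ha⟩ : ∃ a : K, a = (N : K) - 2 * ((i : K) + 1) := ⟨_, rfl⟩
    have ha0 : a ≠ 0 := by
      rw [ha, sub_ne_zero]
      have : N ≠ 2 * (i + 1) := by omega
      exact_mod_cast this
    have hpx : Commute p x := by
      have h3 := H.rel (i + 1) N (by omega) (by omega)
      rw [H.top (i + 1 + N) (by omega), smul_zero, sub_eq_zero] at h3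
      exact h3
    have hyx : Commute y x := by
      have h3 := H.rel (N - (i + 1)) N (by omega) (by omega)
      rw [H.top (N - (i + 1) + N) (by omega), smul_zero, sub_eq_zero] at h3
      exact h3
    have hpy : p * y - y * p = a • x := by
      have h3 := H.rel (i + 1) (N - (i + 1)) (by omega) (by omega)
      rw [show i + 1 + (N - (i + 1)) = N by omega] at h3
      rw [h3, ha]
      congr 1
      rw [Nat.cast_sub (by omega)]
      push_cast
      ring
    set q := a⁻¹ • (y * x⁻¹) with hqdef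
    have hpq : p * q - q * p = 1 := by
      rw [hqdef, mul_smul_comm, smul_mul_assoc, ← smul_sub, mul_assoc y, ← (comm_inv hpx).eq,
        ← mul_assoc, ← mul_assoc, ← sub_mul, hpy, smul_mul_assoc, mul_inv_cancel₀ hx, smul_smul,
        inv_mul_cancel₀ ha0, one_smul]
    have hyw : ∀ j, i + 1 < j → Commute y (w j) := by
      intro j hj
      have h3 := H.rel (N - (i + 1)) j (by omega) (by omega)
      rw [H.top (N - (i + 1) + j) (by omega), smul_zero, sub_eq_zero] at h3
      exact h3
    have hxw : ∀ j, i < j → Commute x (w j) := by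
      intro j hj
      have h3 := H.rel N j (by omega) (by omega)
      rw [H.top (N + j) (by omega), smul_zero, sub_eq_zero] at h3
      exact h3
    have hqw : ∀ j, i + 1 < j → Commute q (w j) := fun j hj =>
      ((hyw j hj).mul_left (hxw j (by omega)).inv_left₀).smul_left _
    have hDw : ∀ j, i < j → ad K p (w j) = ((j : K) - ((i + 1 : ℕ) : K)) • w (i + 1 + j) :=
      fun j hj => H.rel (i + 1) j (by omega) hj
    have hwT : ∀ j, i + 1 < j → InT K q p (w j) := by
      intro j hj
      refine ⟨hqw j hj, N, ?_⟩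
      have h3 : ∀ n : ℕ, ∃ κ : K, ((ad K p) ^ n) (w j) = κ • w (j + n * (i + 1)) := by
        intro n
        induction n with
        | zero => exact ⟨1, by simp⟩
        | succ n ihn =>
          obtain ⟨κ, hκ⟩ := ihn
          refine ⟨κ * (((j + n * (i + 1) : ℕ) : K) - ((i + 1 : ℕ) : K)), ?_⟩
          rw [pow_succ', Module.End.mul_apply, hκ, map_smul, hDw _ (by omega), smul_smul]
          congr 2
          ring
      obtain ⟨κ, hκ⟩ := h3 N
      rw [hκ, H.top (j + N * (i + 1)) (by nlinarith), smul_zero]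
    have hex : ∀ j, i + 1 < j → ∃ c, Rel K q p (w j) c := fun j hj => exists_rel hpq (hwT j hj)
    choose! w' hw' using hex
    have hxC : InC q p x :=
      ⟨((hyx.mul_left (comm_inv (Commute.refl x)).symm).smul_left _), hpx⟩
    -- weights
    have hep : ad K e p = (((i + 1 : ℕ) : K)) • p := H.wt (i + 1) (by omega)
    have hey : e * y - y * e = ((N - (i + 1) : ℕ) : K) • y := H.wt (N - (i + 1)) (by omega)
    have hexx : e * x - x * e = (N : K) • x := H.wt N (by omega)
    have heq : ad K e q = (-(((i + 1 : ℕ) : K))) • q := by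
      have h4 : ad K e x⁻¹ = (-(N : K)) • x⁻¹ := by
        have h5 : ad K e (x⁻¹ * x) = 0 := by
          rw [inv_mul_cancel₀ hx, ad_apply, mul_one, one_mul, sub_self]
        rw [ad_mul, ad_apply K e x, hexx, mul_smul_comm, inv_mul_cancel₀ hx] at h5
        have h6 : ad K e x⁻¹ * x = -((N : K) • 1) := eq_neg_of_add_eq_zero_left h5
        calc ad K e x⁻¹ = ad K e x⁻¹ * x * x⁻¹ := by rw [mul_assoc, mul_inv_cancel₀ hx, mul_one]
          _ = _ := by rw [h6, neg_mul, smul_mul_assoc, one_mul, neg_smul]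
      rw [hqdef, map_smul, ad_mul, h4, ad_apply K e y, hey, smul_mul_assoc, mul_smul_comm,
        ← add_smul, smul_smul, smul_smul, mul_comm (a⁻¹)]
      congr 2
      rw [Nat.cast_sub (by omega)]
      ring
    -- the new family satisfies the invariants
    set e' := e + ((i + 1 : ℕ) : K) • (q * p) with he'
    have hCe : ∀ c, InC q p c → ad K e' c = ad K e c := by
      intro c hc
      have h5 : ad K (q * p) c = 0 := (ad_eq_zero K).2 (hc.1.mul_left hc.2)
      rw [he', ad_apply, add_mul, mul_add, smul_mul_assoc, mul_smul_comm, ad_apply]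
      rw [ad_apply] at h5
      have h6 : ((i + 1 : ℕ) : K) • (q * p * c) - ((i + 1 : ℕ) : K) • (c * (q * p)) = 0 := by
        rw [← smul_sub, h5, smul_zero]
      calc e * c + ((i + 1 : ℕ) : K) • (q * p * c) - (c * e + ((i + 1 : ℕ) : K) • (c * (q * p)))
          = e * c - c * e + (((i + 1 : ℕ) : K) • (q * p * c) -
            ((i + 1 : ℕ) : K) • (c * (q * p))) := by abel
        _ = _ := by rw [h6, add_zero]
    have hqe' : Commute q e' := by
      apply Commute.symm
      rw [← ad_eq_zero K, he', ad_apply]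
      have h5 : e * q - q * e = (-(((i + 1 : ℕ) : K))) • q := heq
      have h6 : q * p * q - q * (q * p) = q := by
        rw [mul_assoc, ← mul_sub, hpq, mul_one]
      have h7 : (e + ((i + 1 : ℕ) : K) • (q * p)) * q = e * q + ((i + 1 : ℕ) : K) • (q * p * q) := by
        rw [add_mul, smul_mul_assoc]
      have h8 : q * (e + ((i + 1 : ℕ) : K) • (q * p)) = q * e + ((i + 1 : ℕ) : K) • (q * (q * p)) := by
        rw [mul_add, mul_smul_comm]
      rw [h7, h8]
      calc e * q + ((i + 1 : ℕ) : K) • (q * p * q) - (q * e + ((i + 1 : ℕ) : K) • (q * (q * p)))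
          = (e * q - q * e) + ((i + 1 : ℕ) : K) • (q * p * q - q * (q * p)) := by
            rw [smul_sub]; abel
        _ = 0 := by rw [h5, h6, neg_smul, neg_add_cancel]
    have hpe' : Commute p e' := by
      apply Commute.symm
      rw [← ad_eq_zero K, he', ad_apply, add_mul, mul_add, smul_mul_assoc, mul_smul_comm]
      have h5 : e * p - p * e = (((i + 1 : ℕ) : K)) • p := hep
      have h6 : q * p * p - p * (q * p) = -p := by
        rw [← mul_assoc, ← sub_mul, ← neg_sub, hpq, neg_mul, one_mul]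
      calc e * p + ((i + 1 : ℕ) : K) • (q * p * p) - (p * e + ((i + 1 : ℕ) : K) • (p * (q * p)))
          = (e * p - p * e) + ((i + 1 : ℕ) : K) • (q * p * p - p * (q * p)) := by
            rw [smul_sub]; abel
        _ = 0 := by rw [h5, h6, smul_neg, add_neg_cancel]
    have H' : Inv K N (i + 1) w' e' := by
      refine ⟨fun j hj => ?_, fun j hj1 hj2 => ?_, ?_, fun b c hb hc => ?_, fun j hj => ?_⟩
      · have h5 := hw' j (by omega)
        rw [H.top j hj] at h5
        exact rel_unique hpq h5 rel_zero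
      · have h5 := hw' j (by omega)
        by_cases h6 : N ≤ j + i
        · rw [H.gap j h6 hj2] at h5
          exact rel_unique hpq h5 rel_zero
        · have h7 : j = N - (i + 1) := by omega
          refine rel_unique hpq h5 ⟨⟨Commute.zero_right _, Commute.zero_right _⟩, a • x,
            T_smul _ (T_of_C hxC), ?_⟩
          rw [zero_add, hqdef, mul_smul_comm, smul_mul_assoc, mul_assoc, inv_mul_cancel₀ hx, mul_one,
            smul_smul, mul_inv_cancel₀ ha0, one_smul, hydef, h7]
      · have h5 : w' N = x := rel_unique hpq (hw' N (by omega)) (rel_self hxC)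
        rw [h5]
        exact hx
      · have h5 := rel_sub (rel_mul hpq (hw' b hb) (hw' c hc)) (rel_mul hpq (hw' c hc) (hw' b hb))
        rw [H.rel b c (by omega) (by omega)] at h5
        exact rel_unique hpq h5 (rel_smul _ (hw' (b + c) (by omega)))
      · have h5 := rel_ad hep heq (hw' j hj)
        rw [ad_apply K e (w j), H.wt j (by omega)] at h5
        have h6 := rel_unique hpq h5 (rel_smul (j : K) (hw' j hj))
        rw [← hCe _ (hw' j hj).1] at h6
        exact h6
    obtain ⟨n, Q, P, Γ, hWP, hΓ, hcomm, hemem, hwmem⟩ := ih (i + 1) (by omega) (by omega) w' e' H'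
    have hqall := hcomm q hqe' fun j hj => (hw' j hj).1.1
    have hpall := hcomm p hpe' fun j hj => (hw' j hj).1.2
    -- the members of `w` are polynomials in `q` with coefficients in the algebra of the `w'`
    have hGood : ∀ (s j : ℕ), N < j + s → i + 1 < j →
        Good q ((Subalgebra.toSubmodule (Algebra.adjoin K {b | ∃ j, i + 1 < j ∧ w' j = b}) :
          Submodule K Δ) : Set Δ) (w j) := by
      have hS : ∀ s ∈ (Subalgebra.toSubmodule (Algebra.adjoin K {b | ∃ j, i + 1 < j ∧ w' j = b}) :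
          Submodule K Δ), InC q p s := by
        intro s hs
        rw [Subalgebra.mem_toSubmodule] at hs
        have h5 : Algebra.adjoin K {b | ∃ j, i + 1 < j ∧ w' j = b} ≤
            Subalgebra.centralizer K {q, p} := by
          apply Algebra.adjoin_le
          rintro b ⟨j, hj, rfl⟩
          rw [SetLike.mem_coe, Subalgebra.mem_centralizer_iff]
          rintro g (rfl | rfl)
          · exact (hw' j hj).1.1
          · exact (hw' j hj).1.2
        have h6 := h5 hs
        rw [Subalgebra.mem_centralizer_iff] at h6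
        exact ⟨h6 q (by simp), h6 p (by simp)⟩
      intro s
      induction s with
      | zero =>
        intro j hj1 hj2
        rw [H.top j (by omega)]
        exact ⟨0, fun _ => 0, fun _ => Submodule.zero_mem _, by simp⟩
      | succ s ihs =>
        intro j hj1 hj2
        have h5 : Good q ((Subalgebra.toSubmodule
            (Algebra.adjoin K {b | ∃ j, i + 1 < j ∧ w' j = b}) : Submodule K Δ) : Set Δ)
            (ad K p (w j)) := by
          obtain ⟨n, c, hc, hn⟩ := ihs (i + 1 + j) (by omega) (by omega)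
          rw [hDw j (by omega), hn, Finset.smul_sum]
          refine ⟨n, fun k => ((j : K) - ((i + 1 : ℕ) : K)) • c k,
            fun k => Submodule.smul_mem _ _ (hc k), ?_⟩
          apply Finset.sum_congr rfl
          intro k _
          rw [mul_smul_comm]
        obtain ⟨z, t, hz, ht, hzt⟩ := good_int hpq hS (hqw j hj2) h5
        have h6 : w' j = z := rel_unique hpq (hw' j hj2) ⟨hz, t, good_T hpq hS ht, hzt⟩
        rw [hzt]
        refine good_cons ?_ ht
        rw [← h6]
        exact Algebra.subset_adjoin ⟨j, hj2, rfl⟩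
    -- inclusion of the algebras
    have hle : Algebra.adjoin K (Set.range Q ∪ Set.range P ∪ Γ) ≤
        Algebra.adjoin K (Set.range (Fin.cons q Q : Fin (n + 1) → Δ) ∪
          Set.range (Fin.cons p P : Fin (n + 1) → Δ) ∪ Γ) := by
      apply Algebra.adjoin_mono
      rintro b ((⟨k, rfl⟩ | ⟨k, rfl⟩) | hb)
      · exact Or.inl (Or.inl ⟨k.succ, by simp⟩)
      · exact Or.inl (Or.inr ⟨k.succ, by simp⟩)
      · exact Or.inr hb
    have hqmem : q ∈ Algebra.adjoin K (Set.range (Fin.cons q Q : Fin (n + 1) → Δ) ∪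
          Set.range (Fin.cons p P : Fin (n + 1) → Δ) ∪ Γ) :=
      Algebra.subset_adjoin (Or.inl (Or.inl ⟨0, by simp⟩))
    have hpmem : p ∈ Algebra.adjoin K (Set.range (Fin.cons q Q : Fin (n + 1) → Δ) ∪
          Set.range (Fin.cons p P : Fin (n + 1) → Δ) ∪ Γ) :=
      Algebra.subset_adjoin (Or.inl (Or.inr ⟨0, by simp⟩))
    have hcoef : ∀ b ∈ Algebra.adjoin K {b | ∃ j, i + 1 < j ∧ w' j = b},
        b ∈ Algebra.adjoin K (Set.range (Fin.cons q Q : Fin (n + 1) → Δ) ∪
          Set.range (Fin.cons p P : Fin (n + 1) → Δ) ∪ Γ) := by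
      intro b hb
      refine (Algebra.adjoin_le ?_ : _ ≤ _) hb
      rintro _ ⟨j, hj, rfl⟩
      exact hle (hwmem j hj)
    have hwj : ∀ j, i + 1 < j → ∃ (n : ℕ) (c : ℕ → Δ),
        (∀ k, c k ∈ Algebra.adjoin K {b | ∃ j, i + 1 < j ∧ w' j = b}) ∧
          w j = ∑ k ∈ Finset.range n, q ^ k * c k := fun j hj => by
      obtain ⟨n, c, hc, hn⟩ := hGood (N + 1) j (by omega) hj
      exact ⟨n, c, fun k => hc k, hn⟩
    refine ⟨n + 1, Fin.cons q Q, Fin.cons p P, Γ, ?_, ?_, ?_, ?_, ?_⟩
    · refine ⟨fun k l => ?_, fun k l => ?_, fun k l => ?_⟩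
      · refine Fin.cases ?_ (fun k => ?_) k <;> refine Fin.cases ?_ (fun l => ?_) l
        · simp
        · simpa using (hqall.1 l).eq
        · simpa using (hqall.1 k).eq.symm
        · simpa using hWP.1 k l
      · refine Fin.cases ?_ (fun k => ?_) k <;> refine Fin.cases ?_ (fun l => ?_) l
        · simp
        · simpa using (hpall.2.1 l).eq
        · simpa using (hpall.2.1 k).eq.symm
        · simpa using hWP.2.1 k l
      · refine Fin.cases ?_ (fun k => ?_) k <;> refine Fin.cases ?_ (fun l => ?_) l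
        · simpa using hpq
        · have := (hpall.1 l).eq
          simp only [Fin.cons_zero, Fin.cons_succ]
          rw [this, sub_self, if_neg (Fin.succ_ne_zero l).symm]
        · have := (hqall.2.1 k).eq
          simp only [Fin.cons_zero, Fin.cons_succ]
          rw [this, sub_self, if_neg (Fin.succ_ne_zero k)]
        · simp only [Fin.cons_succ]
          rw [hWP.2.2 k l]
          simp
    · intro γ hγ
      have hγq : Commute γ q := (hqall.2.2 γ hγ).symm
      have hγp : Commute γ p := (hpall.2.2 γ hγ).symm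
      refine ⟨?_, fun j hj => ?_⟩
      · have h5 : e = e' - ((i + 1 : ℕ) : K) • (q * p) := by rw [he', add_sub_cancel_right]
        rw [h5]
        exact (hΓ γ hγ).1.sub_right ((hγq.mul_right hγp).smul_right _)
      · by_cases h5 : j = i + 1
        · rw [h5]; exact hγp
        obtain ⟨n', c, hc, hn⟩ := hwj j (by omega)
        rw [hn]
        refine Commute.sum_right _ _ _ fun k _ => (hγq.pow_right k).mul_right ?_
        have h6 : Algebra.adjoin K {b | ∃ j, i + 1 < j ∧ w' j = b} ≤
            Subalgebra.centralizer K {γ} := by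
          apply Algebra.adjoin_le
          rintro b ⟨j, hj, rfl⟩
          rw [SetLike.mem_coe, Subalgebra.mem_centralizer_iff]
          rintro g rfl
          exact (hΓ g hγ).2 j hj
        have h7 := h6 (hc k)
        rw [Subalgebra.mem_centralizer_iff] at h7
        exact h7 γ rfl
    · intro d hd hdw
      have hdp : Commute d p := hdw (i + 1) (by omega)
      have hdx : Commute d x := hdw N (by omega)
      have hdy : Commute d y := hdw (N - (i + 1)) (by omega)
      have hdq : Commute d q := (hdy.mul_right (comm_inv hdx)).smul_right _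
      have hde' : Commute d e' := hd.add_right ((hdq.mul_right hdp).smul_right _)
      have hdw' : ∀ j, i + 1 < j → Commute d (w' j) := by
        intro j hj
        have h5 : Rel K q p (ad K d (w j)) (ad K d (w' j)) := by
          refine rel_ad (x := 0) ?_ ?_ (hw' j hj)
          · rw [(ad_eq_zero K).2 hdp, zero_smul]
          · rw [(ad_eq_zero K).2 hdq, neg_zero, zero_smul]
        rw [(ad_eq_zero K).2 (hdw j (by omega))] at h5
        exact (ad_eq_zero K).1 (rel_unique hpq h5 rel_zero)
      obtain ⟨h5, h6, h7⟩ := hcomm d hde' hdw'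
      refine ⟨fun k => ?_, fun k => ?_, h7⟩
      · refine Fin.cases ?_ (fun k => ?_) k
        · simpa using hdq
        · simpa using h5 k
      · refine Fin.cases ?_ (fun k => ?_) k
        · simpa using hdp
        · simpa using h6 k
    · have h5 : e = e' - ((i + 1 : ℕ) : K) • (q * p) := by rw [he', add_sub_cancel_right]
      rw [h5]
      exact Subalgebra.sub_mem _ (hle hemem)
        (Subalgebra.smul_mem _ (Subalgebra.mul_mem _ hqmem hpmem) _)
    · intro j hj
      by_cases h5 : j = i + 1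
      · rw [h5]; exact hpmem
      obtain ⟨n', c, hc, hn⟩ := hwj j (by omega)
      rw [hn]
      exact Subalgebra.sum_mem _ fun k _ =>
        Subalgebra.mul_mem _ (Subalgebra.pow_mem _ hqmem k) (hcoef _ (hc k))

end Main

end WT

/-- A family in a division ring with the relations `[Z a, Z b] = (b - a) Z (a + b - 1)`, `a, b ≥ 1`, of which
only finitely many members are nonzero. -/
theorem one_point {K : Type} [Field K] [CharZero K] {Δ : Type} [DivisionRing Δ] [Algebra K Δ]
    (Z : ℕ → Δ)
    (hZ : ∀ a b, 1 ≤ a → 1 ≤ b → Z a * Z b - Z b * Z a = ((b : K) - a) • Z (a + b - 1))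
    (hM : ∃ M, ∀ l, M ≤ l → Z l = 0) :
    ∃ (n : ℕ) (q p : Fin n → Δ) (Γ : Set Δ), IsWP q p ∧
      (∀ γ ∈ Γ, ∀ l, 1 ≤ l → γ * Z l = Z l * γ) ∧
      (∀ d : Δ, (∀ l, 1 ≤ l → d * Z l = Z l * d) →
        (∀ i, d * q i = q i * d) ∧ (∀ i, d * p i = p i * d) ∧ ∀ γ ∈ Γ, d * γ = γ * d) ∧
      ∀ l, 1 ≤ l → Z l ∈ Algebra.adjoin K (Set.range q ∪ Set.range p ∪ Γ) := by
  classical
  obtain ⟨M, hM⟩ := hM
  by_cases hall : ∀ l, 2 ≤ l → Z l = 0
  · refine ⟨0, Fin.elim0, Fin.elim0, {Z 1}, ⟨fun i => i.elim0, fun i => i.elim0, fun i => i.elim0⟩,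
      ?_, ?_, ?_⟩
    · rintro γ rfl l hl
      rcases Nat.eq_or_lt_of_le hl with rfl | h
      · rfl
      · rw [hall l h, mul_zero, zero_mul]
    · intro d hd
      refine ⟨fun i => i.elim0, fun i => i.elim0, ?_⟩
      rintro γ rfl
      exact hd 1 le_rfl
    · intro l hl
      rcases Nat.eq_or_lt_of_le hl with rfl | h
      · exact Algebra.subset_adjoin (Or.inr rfl)
      · rw [hall l h]
        exact Subalgebra.zero_mem _
  · push Not at hall
    obtain ⟨l0, hl0, hne0⟩ := hall
    -- the last nonzero member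
    have hP : ∃ l, 1 ≤ l ∧ Z (l + 1) ≠ 0 ∧ ∀ j, l < j → Z (j + 1) = 0 := by
      have hb : ∀ l, (2 ≤ l ∧ Z l ≠ 0) → l ≤ M := by
        rintro l ⟨_, h⟩
        by_contra h'
        exact h (hM l (by omega))
      have h1 := Nat.findGreatest_spec (P := fun l => 2 ≤ l ∧ Z l ≠ 0) (hb l0 ⟨hl0, hne0⟩)
        ⟨hl0, hne0⟩
      have h2 : ∀ k, Nat.findGreatest (fun l => 2 ≤ l ∧ Z l ≠ 0) M < k → ¬ (2 ≤ k ∧ Z k ≠ 0) := by
        intro k hk h
        exact Nat.findGreatest_is_greatest hk (hb k h) h
      set g := Nat.findGreatest (fun l => 2 ≤ l ∧ Z l ≠ 0) M with hg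
      refine ⟨g - 1, by omega, ?_, fun j hj => ?_⟩
      · rw [show g - 1 + 1 = g by omega]
        exact h1.2
      · by_contra h3
        exact h2 (j + 1) (by omega) ⟨by omega, h3⟩
    obtain ⟨N, hN1, hN, hNtop⟩ := hP
    have H : WT.Inv K N 0 (fun j => Z (j + 1)) (Z 1) := by
      refine ⟨hNtop, fun j h1 h2 => by omega, hN, fun a b ha hb => ?_, fun j hj => ?_⟩
      · have h1 := hZ (a + 1) (b + 1) (by omega) (by omega)
        show Z (a + 1) * Z (b + 1) - Z (b + 1) * Z (a + 1) = ((b : K) - a) • Z (a + b + 1)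
        rw [h1, show a + 1 + (b + 1) - 1 = a + b + 1 by omega]
        congr 1
        push_cast
        ring
      · have h1 := hZ 1 (j + 1) le_rfl (by omega)
        show Z 1 * Z (j + 1) - Z (j + 1) * Z 1 = (j : K) • Z (j + 1)
        rw [h1, show 1 + (j + 1) - 1 = j + 1 by omega]
        congr 1
        push_cast
        ring
    obtain ⟨n, q, p, Γ, h1, h2, h3, h4, h5⟩ := WT.recur N N 0 (by omega) (by omega) _ _ H
    refine ⟨n, q, p, Γ, h1, ?_, ?_, ?_⟩
    · intro γ hγ l hl
      rcases Nat.eq_or_lt_of_le hl with rfl | h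
      · exact (h2 γ hγ).1
      · have := (h2 γ hγ).2 (l - 1) (by omega)
        simp only [show l - 1 + 1 = l by omega] at this
        exact this
    · intro d hd
      obtain ⟨h6, h7, h8⟩ := h3 d (hd 1 le_rfl) fun j hj => hd (j + 1) (by omega)
      exact ⟨fun i => h6 i, fun i => h7 i, fun γ hγ => h8 γ hγ⟩
    · intro l hl
      rcases Nat.eq_or_lt_of_le hl with rfl | h
      · exact h4
      · have := h5 (l - 1) (by omega)
        simp only [show l - 1 + 1 = l by omega] at this
        exact this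

end Pool.Agent.R693.G
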