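import Pool.Agent.R693.G.Frac
import Pool.Agent.R693.G.PieceS
import Pool.Agent.R693.G.PieceT
import Pool.Agent.R693.C.Final

/-!
Nonzero primitive ideals of the enveloping algebra of `W_{≥-1}` are kernels of maps to Weyl algebras.
-/

set_option autoImplicit false
set_option linter.unusedSectionVars false

namespace Pool.Agent.R693.G

open Pool.Agent.R693.W (IsW Lab Fl wd wd_nil wd_cons IsPrimeT)

theorem onePt : OnePt := fun _ _ _ _ _ _ Z hZ hM => one_point Z hZ hM

section final
variable {F A : Type} [Field F] [CharZero F] [IsAlgClosed F] [Uncountable F] [Ring A] [Algebra F A]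

/-- Constants. -/
lemma zero_case {φ : A →ₐ[F] Module.End F (MvPolynomial (Fin 0) F)} :
    ∃ ε : A →ₐ[F] F, ∀ a, ε a = 0 ↔ φ a = 0 := by
  have hc : ∀ f : MvPolynomial (Fin 0) F, f = MvPolynomial.constantCoeff f • (1 : MvPolynomial (Fin 0) F) := by
    intro f
    rw [MvPolynomial.smul_eq_C_mul, mul_one]
    exact MvPolynomial.eq_C_of_isEmpty f
  have hT : ∀ (T : Module.End F (MvPolynomial (Fin 0) F)) f,
      T f = (MvPolynomial.constantCoeff f * MvPolynomial.constantCoeff (T 1)) •
        (1 : MvPolynomial (Fin 0) F) := by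
    intro T f
    conv_lhs => rw [hc f, map_smul, hc (T 1)]
    rw [smul_smul]
  refine ⟨{ toFun := fun a => MvPolynomial.constantCoeff (φ a 1)
            map_one' := by
              have h1 : φ 1 = 1 := map_one φ
              rw [h1, Module.End.one_apply]
              exact MvPolynomial.constantCoeff.map_one
            map_mul' := fun a b => by
              rw [map_mul, Module.End.mul_apply, hT (φ a), ← MvPolynomial.C_1,
                MvPolynomial.smul_eq_C_mul, ← MvPolynomial.C_mul, MvPolynomial.constantCoeff_C,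
                mul_one, mul_comm]
            map_zero' := by
              rw [map_zero, LinearMap.zero_apply, map_zero]
            map_add' := fun a b => by
              rw [map_add, LinearMap.add_apply, map_add]
            commutes' := fun r => by
              rw [AlgHom.commutes, Module.algebraMap_end_apply, MvPolynomial.smul_eq_C_mul,
                mul_one, MvPolynomial.constantCoeff_C]
              rfl }, fun a => ?_⟩
  change MvPolynomial.constantCoeff (φ a 1) = 0 ↔ _
  constructor
  · intro h
    apply LinearMap.ext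
    intro f
    rw [hT, h, mul_zero, zero_smul, LinearMap.zero_apply]
  · intro h
    rw [h, LinearMap.zero_apply, map_zero]

/-- Nonzero primitive ideals are kernels of maps to Weyl algebras. -/
theorem prim {e : ℕ → A} (he : IsW F e) (hgen : ∀ x : A, ∃ k, x ∈ Fl F e k)
    (hA : ∃ v : ℕ → A, Submodule.span F (Set.range v) = ⊤)
    {M : Type} [AddCommGroup M] [Module A M] [IsSimpleModule A M] {P : TwoSidedIdeal A}
    (hP : ∀ a : A, a ∈ P ↔ ∀ m : M, a • m = 0) (h0 : P ≠ ⊥) :
    ∃ (k : ℕ) (φ : A →ₐ[F] Module.End F (MvPolynomial (Fin (k + 1)) F)),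
      (∀ a, φ a ∈ Weyl F (k + 1)) ∧ ∀ a, φ a = 0 ↔ a ∈ P := by
  have hPr : IsPrimeT P := C.prime_of_ann hP
  obtain ⟨Cf, _, _, k, ψ, hψ, hker⟩ := weyl_rep onePt he hgen hPr h0
  obtain ⟨φ, hφ, hφP⟩ := specialise hA hP ψ hψ hker
  rcases k with _ | k
  · obtain ⟨ε, hε⟩ := zero_case (φ := φ)
    refine ⟨0, (Algebra.ofId F _).comp ε, fun a => Subalgebra.algebraMap_mem _ _, fun a => ?_⟩
    rw [← hφP, ← hε]
    change algebraMap F (Module.End F (MvPolynomial (Fin (0 + 1)) F)) (ε a) = 0 ↔ _
    rw [map_eq_zero_iff _ (FaithfulSMul.algebraMap_injective _ _)]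
  · exact ⟨k, φ, hφ, hφP⟩

end final

end Pool.Agent.R693.G
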