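import Pool.Agent.R693.G.Pts
import Pool.Agent.R693.G.Defs

/-!
Weyl pairs in the division ring of fractions of an algebra generated by points.
-/

set_option autoImplicit false
set_option linter.unusedSectionVars false

namespace Pool.Agent.R693.G

open Pool.Agent.R693.O Pool.Agent.R693.C

/-- The statement on one point. -/
def OnePt : Prop := ∀ (K : Type) [Field K] [CharZero K] (Δ : Type) [DivisionRing Δ] [Algebra K Δ]
    (Z : ℕ → Δ),
    (∀ a b, 1 ≤ a → 1 ≤ b → Z a * Z b - Z b * Z a = ((b : K) - a) • Z (a + b - 1)) →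
    (∃ M, ∀ l, M ≤ l → Z l = 0) →
    ∃ (n : ℕ) (q p : Fin n → Δ) (Γ : Set Δ), IsWP q p ∧
      (∀ γ ∈ Γ, ∀ l, 1 ≤ l → γ * Z l = Z l * γ) ∧
      (∀ d : Δ, (∀ l, 1 ≤ l → d * Z l = Z l * d) →
        (∀ i, d * q i = q i * d) ∧ (∀ i, d * p i = p i * d) ∧ ∀ γ ∈ Γ, d * γ = γ * d) ∧
      ∀ l, 1 ≤ l → Z l ∈ Algebra.adjoin K (Set.range q ∪ Set.range p ∪ Γ)

/-- Weyl pairs, any index type. -/
def WPi {Δ : Type} [Ring Δ] {ι : Type} (q p : ι → Δ) : Prop :=
  (∀ i j, q i * q j = q j * q i) ∧ (∀ i j, p i * p j = p j * p i) ∧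
    (∀ i, p i * q i - q i * p i = 1) ∧ ∀ i j, i ≠ j → p i * q j = q j * p i

lemma IsWP.toWPi {Δ : Type} [Ring Δ] {k : ℕ} {q p : Fin k → Δ} (h : IsWP q p) : WPi q p :=
  ⟨h.1, h.2.1, fun i => by rw [h.2.2, if_pos rfl], fun i j hij => by
    have := h.2.2 i j
    rw [if_neg hij] at this
    exact sub_eq_zero.mp this⟩

lemma WPi.toIsWP {Δ : Type} [Ring Δ] {ι : Type} {k : ℕ} {q p : ι → Δ} (h : WPi q p)
    (f : Fin k ≃ ι) : IsWP (q ∘ f) (p ∘ f) :=
  ⟨fun i j => h.1 _ _, fun i j => h.2.1 _ _, fun i j => by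
    split_ifs with hij
    · subst hij
      exact h.2.2.1 _
    · exact sub_eq_zero.mpr (h.2.2.2 _ _ (fun hf => hij (f.injective hf)))⟩

lemma WPi.sum {Δ : Type} [Ring Δ] {ι κ : Type} {q p : ι → Δ} {q' p' : κ → Δ} (h : WPi q p)
    (h' : WPi q' p') (h1 : ∀ i j, q i * q' j = q' j * q i) (h2 : ∀ i j, p i * p' j = p' j * p i)
    (h3 : ∀ i j, p i * q' j = q' j * p i) (h4 : ∀ i j, p' j * q i = q i * p' j) :
    WPi (Sum.elim q q') (Sum.elim p p') := by
  refine ⟨?_, ?_, ?_, ?_⟩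
  · rintro (i | i) (j | j)
    · exact h.1 i j
    · exact h1 i j
    · exact (h1 j i).symm
    · exact h'.1 i j
  · rintro (i | i) (j | j)
    · exact h.2.1 i j
    · exact h2 i j
    · exact (h2 j i).symm
    · exact h'.2.1 i j
  · rintro (i | i)
    · exact h.2.2.1 i
    · exact h'.2.2.1 i
  · rintro (i | i) (j | j) hij
    · exact h.2.2.2 i j (fun h => hij (congrArg Sum.inl h))
    · exact h3 i j
    · exact h4 j i
    · exact h'.2.2.2 i j (fun h => hij (congrArg Sum.inr h))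

section pairs
variable {K : Type} [Field K] [CharZero K] {Δ : Type} [DivisionRing Δ] [Algebra K Δ]

/-- The conclusion. -/
def HasPairs (R : Subalgebra K Δ) : Prop :=
  ∃ (ι : Type) (_ : Finite ι) (q p : ι → Δ) (Γ : Set Δ), WPi q p ∧
    (∀ γ ∈ Γ, ∀ r ∈ R, γ * r = r * γ) ∧
    (∀ d : Δ, (∀ r ∈ R, d * r = r * d) →
      (∀ i, d * q i = q i * d) ∧ (∀ i, d * p i = p i * d) ∧ ∀ γ ∈ Γ, d * γ = γ * d) ∧
    R ≤ Algebra.adjoin K (Set.range q ∪ Set.range p ∪ Γ)

theorem pairs (hO : OnePt) {m : ℕ} : ∀ {R : Subalgebra K Δ}, PC K m R → HasPairs R := by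
  induction m with
  | zero =>
    rintro R rfl
    refine ⟨Empty, inferInstance, Empty.elim, Empty.elim, ∅, ⟨?_, ?_, ?_, ?_⟩, ?_, ?_, bot_le⟩
    · rintro ⟨⟩
    · rintro ⟨⟩
    · rintro ⟨⟩
    · rintro ⟨⟩
    · rintro γ ⟨⟩
    · rintro d -
      exact ⟨by rintro ⟨⟩, by rintro ⟨⟩, by rintro γ ⟨⟩⟩
  | succ m ih =>
    rintro R ⟨R₀, D, y, Z, h₀, h, rfl⟩
    obtain ⟨ι, _, q₀, p₀, Γ₀, hW₀, hΓ₀, hC₀, hR₀⟩ := ih h₀
    obtain ⟨n, q₁, p₁, Γ₁, hW₁, hΓ₁, hC₁, hZ₁⟩ := hO K Δ Z h.hbr h.hfin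
    have hD₀ := hC₀ D h.hD
    have hy₀ := hC₀ y h.hy
    have hZ₀ := fun l => hC₀ (Z l) (h.hZ l)
    have hq₀ := fun i => hC₁ (q₀ i) (fun l _ => ((hZ₀ l).1 i).symm)
    have hp₀ := fun i => hC₁ (p₀ i) (fun l _ => ((hZ₀ l).2.1 i).symm)
    have hD₁ := hC₁ D (fun l _ => h.hDZ l)
    have hy₁ := hC₁ y (fun l _ => h.hyZ l)
    have hgen : ∀ d : Δ, (∀ r ∈ R₀, d * r = r * d) → d * D = D * d → d * y = y * d →
        (∀ l, 1 ≤ l → d * Z l = Z l * d) → ∀ r ∈ ptGen K R₀ D y Z, d * r = r * d := by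
      intro d h1 h2 h3 h4 r hr
      have h5 : ptGen K R₀ D y Z ≤ Subalgebra.centralizer K {d} := by
        have key : ∀ z, d * z = z * d → z ∈ Subalgebra.centralizer K {d} := by
          intro z hz
          rw [Subalgebra.mem_centralizer_iff]
          rintro _ rfl
          exact hz
        unfold ptGen ptSet
        rw [Algebra.adjoin_le_iff]
        rintro x (hx | (rfl | rfl) | ⟨l, rfl⟩)
        · exact key _ (h1 x hx)
        · exact key _ h2
        · exact key _ h3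
        · rcases Nat.eq_zero_or_pos l with rfl | hl
          · rw [h.h0]; exact Subalgebra.zero_mem _
          · exact key _ (h4 l hl)
      exact (Subalgebra.mem_centralizer_iff K).mp (h5 hr) _ rfl
    refine ⟨(ι ⊕ Fin n) ⊕ Unit, inferInstance, Sum.elim (Sum.elim q₀ q₁) (fun _ => y),
      Sum.elim (Sum.elim p₀ p₁) (fun _ => D), Γ₀ ∪ Γ₁, ?_, ?_, ?_, ?_⟩
    · apply WPi.sum
      · apply WPi.sum hW₀ hW₁.toWPi
        · exact fun i j => (hq₀ i).1 j
        · exact fun i j => (hp₀ i).2.1 j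
        · exact fun i j => (hp₀ i).1 j
        · exact fun i j => ((hq₀ i).2.1 j).symm
      · refine ⟨fun _ _ => rfl, fun _ _ => rfl, fun _ => ?_, fun i j hij => absurd rfl hij⟩
        rw [h.hDy, add_sub_cancel_left]
      · rintro (i | i) -
        · exact (hy₀.1 i).symm
        · exact (hy₁.1 i).symm
      · rintro (i | i) -
        · exact (hD₀.2.1 i).symm
        · exact (hD₁.2.1 i).symm
      · rintro (i | i) -
        · exact (hy₀.2.1 i).symm
        · exact (hy₁.2.1 i).symm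
      · rintro (i | i) -
        · exact hD₀.1 i
        · exact hD₁.1 i
    · rintro γ (hγ | hγ)
      · exact hgen γ (hΓ₀ γ hγ) (hD₀.2.2 γ hγ).symm (hy₀.2.2 γ hγ).symm
          (fun l _ => ((hZ₀ l).2.2 γ hγ).symm)
      · refine hgen γ (fun r hr => ?_) (hD₁.2.2 γ hγ).symm (hy₁.2.2 γ hγ).symm (hΓ₁ γ hγ)
        exact ((hC₁ r (fun l _ => (h.hZ l r hr).symm)).2.2 γ hγ).symm
    · intro d hd
      have h1 := hC₀ d (fun r hr => hd r (R0_le _ _ _ _ hr))
      have h2 := hC₁ d (fun l _ => hd _ (Z_mem _ _ _ _ l))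
      refine ⟨?_, ?_, ?_⟩
      · rintro ((i | i) | i)
        · exact h1.1 i
        · exact h2.1 i
        · exact hd _ (y_mem _ _ _ _)
      · rintro ((i | i) | i)
        · exact h1.2.1 i
        · exact h2.2.1 i
        · exact hd _ (D_mem _ _ _ _)
      · rintro γ (hγ | hγ)
        · exact h1.2.2 γ hγ
        · exact h2.2.2 γ hγ
    · set T := Algebra.adjoin K (Set.range (Sum.elim (Sum.elim q₀ q₁) fun _ : Unit => y) ∪
        Set.range (Sum.elim (Sum.elim p₀ p₁) fun _ : Unit => D) ∪ (Γ₀ ∪ Γ₁)) with hT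
      have hyT : y ∈ T := Algebra.subset_adjoin (Or.inl (Or.inl ⟨Sum.inr (), rfl⟩))
      have hDT : D ∈ T := Algebra.subset_adjoin (Or.inl (Or.inr ⟨Sum.inr (), rfl⟩))
      have h1 : Algebra.adjoin K (Set.range q₀ ∪ Set.range p₀ ∪ Γ₀) ≤ T := by
        rw [Algebra.adjoin_le_iff]
        rintro x ((⟨i, rfl⟩ | ⟨i, rfl⟩) | hx)
        · exact Algebra.subset_adjoin (Or.inl (Or.inl ⟨Sum.inl (Sum.inl i), rfl⟩))
        · exact Algebra.subset_adjoin (Or.inl (Or.inr ⟨Sum.inl (Sum.inl i), rfl⟩))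
        · exact Algebra.subset_adjoin (Or.inr (Or.inl hx))
      have h2 : Algebra.adjoin K (Set.range q₁ ∪ Set.range p₁ ∪ Γ₁) ≤ T := by
        rw [Algebra.adjoin_le_iff]
        rintro x ((⟨i, rfl⟩ | ⟨i, rfl⟩) | hx)
        · exact Algebra.subset_adjoin (Or.inl (Or.inl ⟨Sum.inl (Sum.inr i), rfl⟩))
        · exact Algebra.subset_adjoin (Or.inl (Or.inr ⟨Sum.inl (Sum.inr i), rfl⟩))
        · exact Algebra.subset_adjoin (Or.inr (Or.inr hx))
      unfold ptGen ptSet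
      rw [Algebra.adjoin_le_iff]
      rintro x (hx | (rfl | rfl) | ⟨l, rfl⟩)
      · exact h1 (hR₀ hx)
      · exact hDT
      · exact hyT
      · rcases Nat.eq_zero_or_pos l with rfl | hl
        · rw [h.h0]; exact Subalgebra.zero_mem _
        · exact h2 (hZ₁ l hl)

end pairs

end Pool.Agent.R693.G
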