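import Pool.Agent.R693.G.Rep
import Pool.Agent.R693.G.Pairs

/-!
The division ring of fractions; prime quotients embed into Weyl algebras over extension fields.
-/

set_option autoImplicit false
set_option linter.unusedSectionVars false

namespace Pool.Agent.R693.G

open Pool.Agent.R693.W (IsW Lab Fl wd wd_nil wd_cons IsPrimeT exists_prime_disj)
open Pool.Agent.R693.O Pool.Agent.R693.C

open OreLocalization nonZeroDivisors in
theorem exists_frac_dom (B : Type) [Ring B] [Nontrivial B] [NoZeroDivisors B]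
    [IsNoetherianRing B] : ∃ (Δ : Type) (_ : DivisionRing Δ) (ι : B →+* Δ),
      Function.Injective ι ∧ ∀ x : Δ, ∃ s : B, s ≠ 0 ∧ ∃ r : B, ι s * x = ι r := by
  have : IsDomain B := NoZeroDivisors.to_isDomain B
  obtain ⟨ore⟩ := nonempty_oreSet_of_strongRankCondition (R := B)
  refine ⟨OreLocalization B⁰ B, inferInstance, OreLocalization.numeratorRingHom, ?_, ?_⟩
  · intro a b hab
    exact OreLocalization.numeratorHom_inj (S := B⁰)
      (fun s hs => by
        rw [mem_nonZeroDivisorsLeft_iff]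
        intro a ha
        rcases mul_eq_zero.mp ha with h | h
        · exact absurd h (nonZeroDivisors.ne_zero hs)
        · exact h) hab
  · intro x
    induction x using OreLocalization.ind with
    | _ r s =>
      refine ⟨s.1, nonZeroDivisors.ne_zero s.2, r, ?_⟩
      change (s.1 /ₒ (1 : B⁰)) * (r /ₒ s) = r /ₒ (1 : B⁰)
      exact OreLocalization.mul_cancel

section frac
variable {F A : Type} [Field F] [CharZero F] [Ring A] [Algebra F A]

theorem frac_rep {P : TwoSidedIdeal A}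
    (h : ∃ (K B : Type) (_ : Field K) (_ : CharZero K) (_ : Ring B) (_ : Algebra K B) (m : ℕ)
      (φ : F →+* K) (ψ : A →+* B), Nontrivial B ∧ NoZeroDivisors B ∧ IsNoetherianRing B ∧
      PC K m (⊤ : Subalgebra K B) ∧ (∀ r, ψ (algebraMap F A r) = algebraMap K B (φ r)) ∧
      ∀ a, ψ a = 0 ↔ a ∈ P) :
    ∃ (K Δ : Type) (_ : Field K) (_ : CharZero K) (_ : DivisionRing Δ) (_ : Algebra K Δ) (m : ℕ)
      (R : Subalgebra K Δ) (φ : F →+* K) (ψ : A →+* Δ), PC K m R ∧
      (∀ d : Δ, (∀ r ∈ R, d * r = r * d) → ∀ x, d * x = x * d) ∧ (∀ a, ψ a ∈ R) ∧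
      (∀ r, ψ (algebraMap F A r) = algebraMap K Δ (φ r)) ∧ ∀ a, ψ a = 0 ↔ a ∈ P := by
  obtain ⟨K, B, _, _, _, _, m, φ, ψ, hB1, hB2, hB3, hPC, hφ, hψ⟩ := h
  obtain ⟨Δ, _, ι, hι, hfr⟩ := exists_frac_dom B
  have hcomm : ∀ d : Δ, (∀ r : B, d * ι r = ι r * d) → ∀ x, d * x = x * d := by
    intro d hd x
    obtain ⟨s, hs, r, hr⟩ := hfr x
    have hs' : ι s ≠ 0 := fun h => hs (hι (by rw [h, map_zero]))
    apply mul_left_cancel₀ hs'
    rw [← mul_assoc, ← hd s, mul_assoc, hr, ← mul_assoc, hr, hd]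
  let _ : Algebra K Δ := RingHom.toAlgebra' (ι.comp (algebraMap K B)) (fun k x => hcomm _
    (fun r => by
      rw [RingHom.comp_apply, ← map_mul, ← map_mul, Algebra.commutes]) x)
  let ι' : B →ₐ[K] Δ := { ι with commutes' := fun k => rfl }
  refine ⟨K, Δ, inferInstance, inferInstance, inferInstance, inferInstance, m,
    (⊤ : Subalgebra K B).map ι', φ, ι.comp ψ, PC.map ι' hPC, ?_, fun a => ⟨ψ a, trivial, rfl⟩,
    fun r => ?_, fun a => ?_⟩
  · intro d hd
    exact hcomm d (fun r => hd _ ⟨r, trivial, rfl⟩)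
  · rw [RingHom.comp_apply, hφ]
    rfl
  · rw [RingHom.comp_apply, ← hψ]
    constructor
    · intro h
      exact hι (by rw [h, map_zero])
    · intro h
      rw [h, map_zero]

/-- The representation in a Weyl algebra over an extension field. -/
theorem weyl_of_frac (hO : OnePt) {P : TwoSidedIdeal A}
    (h : ∃ (K Δ : Type) (_ : Field K) (_ : CharZero K) (_ : DivisionRing Δ) (_ : Algebra K Δ)
      (m : ℕ) (R : Subalgebra K Δ) (φ : F →+* K) (ψ : A →+* Δ), PC K m R ∧
      (∀ d : Δ, (∀ r ∈ R, d * r = r * d) → ∀ x, d * x = x * d) ∧ (∀ a, ψ a ∈ R) ∧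
      (∀ r, ψ (algebraMap F A r) = algebraMap K Δ (φ r)) ∧ ∀ a, ψ a = 0 ↔ a ∈ P) :
    ∃ (C : Type) (_ : Field C) (_ : Algebra F C) (k : ℕ)
      (ψ : A →ₐ[F] Module.End C (MvPolynomial (Fin k) C)), (∀ a, ψ a ∈ Weyl C k) ∧
      ∀ a, ψ a = 0 ↔ a ∈ P := by
  obtain ⟨K, Δ, _, _, _, _, m, R, φ, ψ, hR, hcen, hψR, hφ, hψ⟩ := h
  obtain ⟨ι, _, q, p, Γ, hW, hΓ, -, hRle⟩ := pairs hO hR
  have hK : ∀ k : K, algebraMap K Δ k ∈ Subring.center Δ := by
    intro k
    rw [Subring.mem_center_iff]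
    intro g
    exact (Algebra.commutes k g).symm
  let κ : K →+* Subring.center Δ := (algebraMap K Δ).codRestrict (Subring.center Δ) hK
  have hκ : ∀ k, (κ k : Δ) = algebraMap K Δ k := fun k => rfl
  let _ : Algebra F (Subring.center Δ) := (κ.comp φ).toAlgebra
  let _ : Algebra (Subring.center Δ) Δ := RingHom.toAlgebra' (Subring.center Δ).subtype
    (fun c x => ((Subring.mem_center_iff.mp c.2) x).symm)
  have hch : CharZero (Subring.center Δ) := charZero_of_injective_ringHom κ.injective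
  obtain ⟨k, ⟨f⟩⟩ : ∃ k, Nonempty (ι ≃ Fin k) := Finite.exists_equiv_fin ι
  obtain ⟨Θ, hΘ, hΘW⟩ := weyl_embed (C := Subring.center Δ) _ _ (hW.toIsWP f.symm)
  have hmem : ∀ a, ψ a ∈ Algebra.adjoin (Subring.center Δ)
      (Set.range (q ∘ f.symm) ∪ Set.range (p ∘ f.symm)) := by
    intro a
    set T := Algebra.adjoin (Subring.center Δ)
      (Set.range (q ∘ f.symm) ∪ Set.range (p ∘ f.symm)) with hT
    have h1 := hRle (hψR a)
    have hcT : ∀ c : Δ, c ∈ Subring.center Δ → c ∈ T := by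
      intro c hc
      have := T.algebraMap_mem (⟨c, hc⟩ : Subring.center Δ)
      exact this
    generalize ψ a = z at h1 ⊢
    induction h1 using Algebra.adjoin_induction with
    | mem x hx =>
      rcases hx with (⟨i, rfl⟩ | ⟨i, rfl⟩) | hx
      · exact Algebra.subset_adjoin (Or.inl ⟨f i, by simp⟩)
      · exact Algebra.subset_adjoin (Or.inr ⟨f i, by simp⟩)
      · apply hcT
        rw [Subring.mem_center_iff]
        intro g
        exact (hcen x (hΓ x hx) g).symm
    | algebraMap r => exact hcT _ (hK r)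
    | add x y _ _ hx hy => exact T.add_mem hx hy
    | mul x y _ _ hx hy => exact T.mul_mem hx hy
  let ψ1 : A →+* Algebra.adjoin (Subring.center Δ)
      (Set.range (q ∘ f.symm) ∪ Set.range (p ∘ f.symm)) := ψ.codRestrict _ hmem
  have hψ1 : ∀ a, ((ψ1 a : Algebra.adjoin (Subring.center Δ)
      (Set.range (q ∘ f.symm) ∪ Set.range (p ∘ f.symm))) : Δ) = ψ a := fun a => rfl
  refine ⟨Subring.center Δ, inferInstance, inferInstance, k,
    { Θ.toRingHom.comp ψ1 with commutes' := ?_ }, fun a => hΘW _, fun a => ?_⟩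
  · intro r
    change Θ (ψ1 (algebraMap F A r)) = _
    have h1 : ψ1 (algebraMap F A r) = algebraMap (Subring.center Δ) _ (κ (φ r)) := by
      apply Subtype.ext
      rw [hψ1, hφ]
      rfl
    rw [h1, AlgHom.commutes]
    rfl
  · change Θ (ψ1 a) = 0 ↔ _
    rw [← hψ, map_eq_zero_iff Θ hΘ]
    constructor
    · intro h
      rw [← hψ1, h]
      rfl
    · intro h
      apply Subtype.ext
      rw [hψ1, h]
      rfl

/-- Nonzero prime ideals of the enveloping algebra of `W_{≥-1}` are kernels of maps to Weyl algebras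
over extension fields. -/
theorem weyl_rep (hO : OnePt) {e : ℕ → A} (he : IsW F e) (hgen : ∀ x : A, ∃ k, x ∈ Fl F e k)
    {P : TwoSidedIdeal A} (hP : IsPrimeT P) (h0 : P ≠ ⊥) :
    ∃ (C : Type) (_ : Field C) (_ : Algebra F C) (k : ℕ)
      (ψ : A →ₐ[F] Module.End C (MvPolynomial (Fin k) C)), (∀ a, ψ a ∈ Weyl C k) ∧
      ∀ a, ψ a = 0 ↔ a ∈ P :=
  weyl_of_frac hO (frac_rep (dom_rep hP (pts_rep he hgen (conc he hgen hP h0))))

end frac

end Pool.Agent.R693.G
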