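import Pool.Agent.R693.G.PieceW
import Pool.Agent.R693.W.Eval

/-!
# Piece WA-G: every algebra map from `U(W_{-1})` to a Weyl algebra has a nonzero kernel (helper699)
-/

set_option autoImplicit false

namespace Pool.Agent.R693.G

open MvPolynomial
open Pool.Agent.R693.W (IsW wd Lab)

namespace GG

section order

variable {F : Type} [Field F] {Δ : Type} [Ring Δ] [Algebra F Δ] {k : ℕ}

/-- operators of order at most `r` -/
noncomputable def V (Ψ : MvPolynomial (Fin k ⊕ Fin k) F →ₗ[F] Δ) (r : ℕ) : Submodule F Δ :=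
  (restrictTotalDegree (Fin k ⊕ Fin k) F r).map Ψ

theorem V_mono (Ψ : MvPolynomial (Fin k ⊕ Fin k) F →ₗ[F] Δ) {r s : ℕ} (h : r ≤ s) :
    V Ψ r ≤ V Ψ s := by
  apply Submodule.map_mono
  intro f hf
  rw [mem_restrictTotalDegree] at hf ⊢
  exact hf.trans h

/-- multiplication by `s` raises the order by at most `c` -/
def Ord (Ψ : MvPolynomial (Fin k ⊕ Fin k) F →ₗ[F] Δ) (s : Δ) (c : ℕ) : Prop :=
  ∀ r, ∀ g ∈ V Ψ r, s * g ∈ V Ψ (r + c)

theorem Ord.mono {Ψ : MvPolynomial (Fin k ⊕ Fin k) F →ₗ[F] Δ} {s : Δ} {c d : ℕ}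
    (h : Ord Ψ s c) (hcd : c ≤ d) : Ord Ψ s d := fun r g hg =>
  V_mono Ψ (by omega) (h r g hg)

theorem Ord.mul {Ψ : MvPolynomial (Fin k ⊕ Fin k) F →ₗ[F] Δ} {s t : Δ} {c d : ℕ}
    (h : Ord Ψ s c) (h' : Ord Ψ t d) : Ord Ψ (s * t) (d + c) := fun r g hg => by
  rw [mul_assoc, ← add_assoc]
  exact h _ _ (h' r g hg)

theorem Ord.sub {Ψ : MvPolynomial (Fin k ⊕ Fin k) F →ₗ[F] Δ} {s t : Δ} {c : ℕ}
    (h : Ord Ψ s c) (h' : Ord Ψ t c) : Ord Ψ (s - t) c := fun r g hg => by
  rw [sub_mul]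
  exact Submodule.sub_mem _ (h r g hg) (h' r g hg)

theorem Ord.add {Ψ : MvPolynomial (Fin k ⊕ Fin k) F →ₗ[F] Δ} {s t : Δ} {c : ℕ}
    (h : Ord Ψ s c) (h' : Ord Ψ t c) : Ord Ψ (s + t) c := fun r g hg => by
  rw [add_mul]
  exact Submodule.add_mem _ (h r g hg) (h' r g hg)

theorem Ord.smul {Ψ : MvPolynomial (Fin k ⊕ Fin k) F →ₗ[F] Δ} {s : Δ} {c : ℕ} (a : F)
    (h : Ord Ψ s c) : Ord Ψ (a • s) c := fun r g hg => by
  rw [smul_mul_assoc]
  exact Submodule.smul_mem _ _ (h r g hg)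

theorem tdeg_X_mul (j : Fin k ⊕ Fin k) (f : MvPolynomial (Fin k ⊕ Fin k) F) (r : ℕ)
    (hf : f.totalDegree ≤ r) : (X j * f).totalDegree ≤ r + 1 := by
  refine (totalDegree_mul _ _).trans ?_
  rw [totalDegree_X]
  omega

theorem tdeg_pderiv (j : Fin k ⊕ Fin k) (f : MvPolynomial (Fin k ⊕ Fin k) F) (r : ℕ)
    (hf : f.totalDegree ≤ r) : (pderiv j f).totalDegree ≤ r := by
  apply Finset.sup_le
  intro m' hm'
  rw [mem_support_iff, coeff_pderiv] at hm'
  have h1 : m' + Finsupp.single j 1 ∈ f.support := by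
    rw [mem_support_iff]
    intro h
    exact hm' (by rw [h, zero_mul])
  have h2 := le_totalDegree h1
  rw [Finsupp.sum_add_index' (fun _ => rfl) (fun _ _ _ => rfl),
    Finsupp.sum_single_index rfl] at h2
  omega

theorem exists_ord {q p : Fin k → Δ} (h : IsWP q p)
    {Ψ : MvPolynomial (Fin k ⊕ Fin k) F →ₗ[F] Δ} (hΨ : IsPsi q p Ψ) (s : Δ)
    (hs : s ∈ Algebra.adjoin F (Set.range q ∪ Set.range p)) : ∃ c, Ord Ψ s c := by
  induction hs using Algebra.adjoin_induction with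
  | mem x hx =>
    refine ⟨1, ?_⟩
    intro r g hg
    obtain ⟨f, hf, rfl⟩ := hg
    rw [SetLike.mem_coe, mem_restrictTotalDegree] at hf
    rcases hx with ⟨i, rfl⟩ | ⟨i, rfl⟩
    · refine ⟨X (Sum.inl i) * f, ?_, hΨ.2.1 i f⟩
      rw [SetLike.mem_coe, mem_restrictTotalDegree]
      exact tdeg_X_mul _ _ _ hf
    · refine ⟨X (Sum.inr i) * f + pderiv (Sum.inl i) f, ?_, ?_⟩
      · rw [SetLike.mem_coe, mem_restrictTotalDegree]
        refine (totalDegree_add _ _).trans (max_le (tdeg_X_mul _ _ _ hf) ?_)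
        exact (tdeg_pderiv _ _ _ hf).trans (by omega)
      · rw [map_add, hΨ.2.2, ← psi_p h hΨ]; abel
  | algebraMap r =>
    refine ⟨0, ?_⟩
    intro n g hg
    rw [← Algebra.smul_def]
    exact Submodule.smul_mem _ _ hg
  | add x y _ _ hx hy =>
    obtain ⟨c, hc⟩ := hx
    obtain ⟨d, hd⟩ := hy
    exact ⟨max c d, (hc.mono (le_max_left _ _)).add (hd.mono (le_max_right _ _))⟩
  | mul x y _ _ hx hy =>
    obtain ⟨c, hc⟩ := hx
    obtain ⟨d, hd⟩ := hy
    exact ⟨d + c, hc.mul hd⟩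

/-- the spanning set of `V r` -/
noncomputable def SS (Ψ : MvPolynomial (Fin k ⊕ Fin k) F →ₗ[F] Δ) (r : ℕ) : Finset Δ := by
  classical
  exact (Finset.univ : Finset (Fin k ⊕ Fin k → Fin (r + 1))).image
    (fun κ => Ψ (monomial (Finsupp.equivFunOnFinite.symm (fun i => (κ i : ℕ))) 1))

theorem SS_card (Ψ : MvPolynomial (Fin k ⊕ Fin k) F →ₗ[F] Δ) (r : ℕ) :
    (SS Ψ r).card ≤ (r + 1) ^ (2 * k) := by
  classical
  unfold SS
  refine Finset.card_image_le.trans ?_
  rw [Finset.card_univ, Fintype.card_fun, Fintype.card_fin, Fintype.card_sum, Fintype.card_fin,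
    two_mul]

theorem V_le (Ψ : MvPolynomial (Fin k ⊕ Fin k) F →ₗ[F] Δ) (r : ℕ) :
    V Ψ r ≤ Submodule.span F (SS Ψ r : Set Δ) := by
  classical
  rintro _ ⟨f, hf, rfl⟩
  rw [SetLike.mem_coe, mem_restrictTotalDegree] at hf
  rw [f.as_sum, map_sum]
  apply Submodule.sum_mem
  intro m hm
  have h1 : monomial m (coeff m f) = (coeff m f) • (monomial m (1 : F)) := by
    rw [smul_monomial, smul_eq_mul, mul_one]
  rw [h1, map_smul]
  apply Submodule.smul_mem
  apply Submodule.subset_span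
  rw [Finset.mem_coe, SS, Finset.mem_image]
  have hm' : ∀ i, m i < r + 1 := by
    intro i
    have h2 := le_totalDegree hm
    have h3 : m i ≤ m.sum fun _ e => e := by
      by_cases hi : i ∈ m.support
      · rw [Finsupp.sum]
        exact Finset.single_le_sum (f := fun a => m a) (fun _ _ => Nat.zero_le _) hi
      · rw [Finsupp.notMem_support_iff] at hi
        omega
    omega
  refine ⟨fun i => ⟨m i, hm' i⟩, Finset.mem_univ _, ?_⟩
  have h4 : Finsupp.equivFunOnFinite.symm (fun i => m i) = m := Finsupp.ext (fun _ => rfl)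
  show Ψ (monomial (Finsupp.equivFunOnFinite.symm (fun i => m i)) 1) = _
  rw [h4]

end order

/-- The words. -/
def wf (K L : ℕ) (f : Fin (K + 1) → Fin L) : List ℕ :=
  List.ofFn fun i : Fin (K + 1) => (i : ℕ) * L + (f i : ℕ)

lemma wf_sorted (K L : ℕ) (f : Fin (K + 1) → Fin L) : (wf K L f).Pairwise (· ≤ ·) := by
  unfold wf
  rw [List.pairwise_ofFn]
  intro i j hij
  have h1 : (i : ℕ) + 1 ≤ j := hij
  have h2 := (f i).2
  have h3 : ((i : ℕ) + 1) * L ≤ j * L := Nat.mul_le_mul_right L h1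
  rw [add_mul, one_mul] at h3
  omega

lemma wf_inj (K L : ℕ) : Function.Injective (wf K L) := by
  intro f g h
  unfold wf at h
  have h1 := List.ofFn_injective h
  funext i
  have h2 := congrFun h1 i
  beta_reduce at h2
  exact Fin.ext (by omega)

lemma wf_length (K L : ℕ) (f : Fin (K + 1) → Fin L) : (wf K L f).length = K + 1 := by
  unfold wf
  rw [List.length_ofFn]

lemma wf_bound (K L : ℕ) (f : Fin (K + 1) → Fin L) :
    ∀ n ∈ wf K L f, n ≤ (K + 1) * L := by
  intro n hn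
  unfold wf at hn
  rw [List.mem_ofFn] at hn
  obtain ⟨i, rfl⟩ := hn
  have h2 := (f i).2
  have h3 : ((i : ℕ) + 1) * L ≤ (K + 1) * L := Nat.mul_le_mul_right L i.2
  rw [add_mul, one_mul] at h3
  omega

end GG

open GG in
theorem no_embed {F : Type} [Field F] [CharZero F] {A : Type} [Ring A] [Algebra F A] {e : ℕ → A}
    (he : IsW F e)
    (hLI : LinearIndependent F (fun l : {l : List ℕ // l.Pairwise (· ≤ ·)} => wd e l.1))
    (k : ℕ) (φ : A →ₐ[F] Module.End F (MvPolynomial (Fin k) F)) (hφ : ∀ a, φ a ∈ Weyl F k) :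
    ∃ u : A, u ≠ 0 ∧ φ u = 0 := by
  classical
  obtain ⟨Ψ, hΨ⟩ := exists_psi (C' := F) (std_isWP F k)
  have hord : ∀ a, ∃ c, Ord Ψ (φ a) c := fun a => exists_ord (std_isWP F k) hΨ _ (hφ a)
  choose c0 hc0 using hord
  set c : ℕ := c0 (e 0) + c0 (e 1) + c0 (e 2) + c0 (e 3) with hc
  have hgen : ∀ m, 4 ≤ m → φ (e m) = ((m : F) - 3)⁻¹ • (φ (e 2) * φ (e (m - 1)) -
      φ (e (m - 1)) * φ (e 2)) := by
    intro m hm
    have h1 := he 2 (m - 1) m (by
      have : (Lab.one : ℕ) = 1 := rfl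
      rw [this]; omega)
    have h2 : ((Lab.c (m - 1) - Lab.c 2 : ℤ) : F) = (m : F) - 3 := by
      have h3 : (Lab.c (m - 1) - Lab.c 2 : ℤ) = (((m - 1 : ℕ) : ℤ) - ((2 : ℕ) : ℤ)) := rfl
      rw [h3]
      have h4 : (((m - 1 : ℕ) : ℤ) - ((2 : ℕ) : ℤ)) = (m : ℤ) - 3 := by omega
      rw [h4]
      push_cast
      rfl
    rw [h2] at h1
    have h5 : ((m : F) - 3) ≠ 0 := by
      have h6 : (m : F) - 3 = ((m - 3 : ℕ) : F) := by
        rw [Nat.cast_sub (by omega)]
        norm_num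
      rw [h6]
      exact Nat.cast_ne_zero.2 (by omega)
    rw [← map_mul, ← map_mul, ← map_sub, h1, map_smul, smul_smul, inv_mul_cancel₀ h5, one_smul]
  have hem : ∀ m, Ord Ψ (φ (e m)) (c * (m + 1)) := by
    intro m
    induction m using Nat.strong_induction_on with
    | _ m ih =>
      by_cases hm : 4 ≤ m
      · rw [hgen m hm]
        apply Ord.smul
        have h2 : Ord Ψ (φ (e 2)) c := (hc0 (e 2)).mono (by omega)
        have h3 : Ord Ψ (φ (e (m - 1))) (c * m) := by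
          have := ih (m - 1) (by omega)
          rwa [Nat.sub_add_cancel (by omega)] at this
        have h4 := h2.mul h3
        have h5 := h3.mul h2
        have e4 : c * m + c = c * (m + 1) := by ring
        have e5 : c + c * m = c * (m + 1) := by ring
        rw [e4] at h4
        rw [e5] at h5
        exact h4.sub h5
      · have hm' : m = 0 ∨ m = 1 ∨ m = 2 ∨ m = 3 := by omega
        have hcc : c ≤ c * (m + 1) := Nat.le_mul_of_pos_right _ (by omega)
        rcases hm' with rfl | rfl | rfl | rfl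
        · exact (hc0 (e 0)).mono (by omega)
        · exact (hc0 (e 1)).mono (by omega)
        · exact (hc0 (e 2)).mono (by omega)
        · exact (hc0 (e 3)).mono (by omega)
  have hw : ∀ (B : ℕ) (w : List ℕ), (∀ n ∈ w, n ≤ B) →
      Ord Ψ (φ (wd e w)) (w.length * (c * (B + 1))) := by
    intro B w
    induction w with
    | nil =>
      intro _ r g hg
      rw [Pool.Agent.R693.W.wd_nil, map_one, one_mul]
      exact V_mono Ψ (by omega) hg
    | cons n w ih =>
      intro hn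
      have h1 := ih (fun m hm => hn m (List.mem_cons_of_mem _ hm))
      have h2 : Ord Ψ (φ (e n)) (c * (B + 1)) :=
        (hem n).mono (Nat.mul_le_mul_left _ (by
          have := hn n List.mem_cons_self
          omega))
      rw [Pool.Agent.R693.W.wd_cons, map_mul, List.length_cons, add_mul, one_mul]
      exact h2.mul h1
  have hV1 : (1 : Module.End F (MvPolynomial (Fin k) F)) ∈ V Ψ 0 := by
    refine ⟨1, ?_, hΨ.1⟩
    rw [SetLike.mem_coe, mem_restrictTotalDegree]
    simp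
  set K : ℕ := 2 * k with hK
  set D : ℕ := (K + 1) * (c * (K + 2)) + 1 with hD
  set L : ℕ := D ^ K + 1 with hL
  have hLpos : 0 < L := Nat.succ_pos _
  set r : ℕ := (K + 1) * (c * ((K + 1) * L + 1)) with hr
  have hmem : ∀ f, φ (wd e (wf K L f)) ∈ V Ψ r := by
    intro f
    have h1 := hw ((K + 1) * L) (wf K L f) (wf_bound K L f) 0 1 hV1
    rw [mul_one, zero_add, wf_length] at h1
    exact h1
  have hnot : ¬ LinearIndependent F (fun f : Fin (K + 1) → Fin L => φ (wd e (wf K L f))) := by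
    intro h
    have h1 := linearIndependent_le_span_aux' _ h
      (SS Ψ r : Set (Module.End F (MvPolynomial (Fin k) F))) (by
        rintro _ ⟨f, rfl⟩
        exact V_le Ψ r (hmem f))
    rw [Fintype.card_fun, Fintype.card_fin, Fintype.card_fin] at h1
    simp only [Finset.coe_sort_coe, Fintype.card_coe] at h1
    have h2 := SS_card Ψ r
    rw [← hK] at h2
    have h3 : r + 1 ≤ D * L := by
      rw [hr, hD]
      have h4 : c * ((K + 1) * L + 1) ≤ c * (K + 2) * L := by
        rw [mul_assoc]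
        apply Nat.mul_le_mul_left
        nlinarith
      have h5 : (K + 1) * (c * ((K + 1) * L + 1)) ≤ (K + 1) * (c * (K + 2) * L) :=
        Nat.mul_le_mul_left _ h4
      calc (K + 1) * (c * ((K + 1) * L + 1)) + 1 ≤ (K + 1) * (c * (K + 2) * L) + L := by omega
        _ = ((K + 1) * (c * (K + 2)) + 1) * L := by ring
    have h4 : (r + 1) ^ K ≤ D ^ K * L ^ K := by
      rw [← mul_pow]
      exact Nat.pow_le_pow_left h3 K
    have h6 : L ^ (K + 1) = L * L ^ K := by rw [pow_succ, mul_comm]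
    have h7 : D ^ K * L ^ K < L * L ^ K :=
      Nat.mul_lt_mul_of_pos_right (by omega) (pow_pos hLpos K)
    omega
  rw [Fintype.not_linearIndependent_iff] at hnot
  obtain ⟨g, hg, i, hi⟩ := hnot
  refine ⟨∑ f, g f • wd e (wf K L f), ?_, ?_⟩
  · intro h
    have h1 := hLI.comp (fun f : Fin (K + 1) → Fin L =>
      (⟨wf K L f, wf_sorted K L f⟩ : {l : List ℕ // l.Pairwise (· ≤ ·)}))
      (fun f f' hff => wf_inj K L (congrArg Subtype.val hff))
    rw [Fintype.linearIndependent_iff] at h1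
    exact hi (h1 g h i)
  · rw [map_sum]
    simp only [map_smul]
    exact hg

end Pool.Agent.R693.G
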