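import Pool.Agent.R693.G.Defs

/-!
# Piece WA-W: uniqueness of the Weyl algebra
-/

set_option autoImplicit false

namespace Pool.Agent.R693.G

open MvPolynomial

/-- A nonzero subspace of a polynomial ring in characteristic zero that is stable under all partial
derivatives contains `1`. -/
theorem one_mem_of_stable {F : Type} [Field F] [CharZero F] {σ : Type}
    (K : Submodule F (MvPolynomial σ F)) (hK : ∀ (i : σ), ∀ f ∈ K, pderiv i f ∈ K) :
    ∀ (n : ℕ) (f : MvPolynomial σ F), f.totalDegree ≤ n → f ∈ K → f ≠ 0 →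
      (1 : MvPolynomial σ F) ∈ K := by
  have hconst : ∀ f : MvPolynomial σ F, f.totalDegree = 0 → f ∈ K → f ≠ 0 →
      (1 : MvPolynomial σ F) ∈ K := by
    intro f hf hfK hf0
    have h1 : f = C (coeff 0 f) := totalDegree_eq_zero_iff_eq_C.1 hf
    have h2 : coeff 0 f ≠ 0 := by
      intro h
      rw [h, map_zero] at h1
      exact hf0 h1
    have h3 : (coeff 0 f)⁻¹ • f = 1 := by
      have h4 : (coeff 0 f)⁻¹ • f = (coeff 0 f)⁻¹ • C (coeff 0 f) := by rw [← h1]
      rw [h4, smul_eq_C_mul, ← C_mul, inv_mul_cancel₀ h2, C_1]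
    rw [← h3]
    exact K.smul_mem _ hfK
  intro n
  induction n with
  | zero =>
    intro f hf hfK hf0
    exact hconst f (Nat.le_zero.1 hf) hfK hf0
  | succ n ih =>
    intro f hf hfK hf0
    by_cases hc : ∃ m ∈ f.support, m ≠ 0
    · obtain ⟨m, hm, hm0⟩ := hc
      obtain ⟨i, hi⟩ : ∃ i, m i ≠ 0 := by
        by_contra hcon
        push Not at hcon
        exact hm0 (Finsupp.ext hcon)
      apply ih (pderiv i f) _ (hK i f hfK)
      · intro h0
        have h1 := coeff_pderiv (i := i) f (m - Finsupp.single i 1)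
        have h2 : m - Finsupp.single i 1 + Finsupp.single i 1 = m := by
          apply tsub_add_cancel_of_le
          rw [Finsupp.single_le_iff]
          omega
        rw [h0, coeff_zero, h2] at h1
        have h3 : coeff m f ≠ 0 := mem_support_iff.1 hm
        rcases mul_eq_zero.1 h1.symm with h4 | h4
        · exact h3 h4
        · have h5 : (((m - Finsupp.single i 1 : σ →₀ ℕ) i + 1 : ℕ) : F) ≠ 0 :=
            Nat.cast_ne_zero.2 (by omega)
          apply h5
          push_cast
          exact h4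
      · apply Finset.sup_le
        intro m' hm'
        rw [mem_support_iff, coeff_pderiv] at hm'
        have h1 : m' + Finsupp.single i 1 ∈ f.support := by
          rw [mem_support_iff]
          intro h
          exact hm' (by rw [h, zero_mul])
        have h2 := le_totalDegree h1
        rw [Finsupp.sum_add_index' (fun _ => rfl) (fun _ _ _ => rfl),
          Finsupp.sum_single_index rfl] at h2
        omega
    · push Not at hc
      refine hconst f ?_ hfK hf0
      apply Nat.le_zero.1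
      apply Finset.sup_le
      intro m hm
      rw [hc m hm]
      simp

section Psi

variable {C' : Type} [Field C'] {Δ : Type} [Ring Δ] [Algebra C' Δ] {k : ℕ}

/-- the commuting operators `left multiplication by q i`, `right multiplication by p i` -/
noncomputable def opers (C' : Type) [Field C'] {Δ : Type} [Ring Δ] [Algebra C' Δ] {k : ℕ}
    (q p : Fin k → Δ) : Fin k ⊕ Fin k → Module.End C' Δ :=
  Sum.elim (fun i => LinearMap.mulLeft C' (q i)) (fun i => LinearMap.mulRight C' (p i))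

theorem opers_comm {q p : Fin k → Δ} (h : IsWP q p) (a b : Fin k ⊕ Fin k) :
    opers C' q p a * opers C' q p b = opers C' q p b * opers C' q p a := by
  apply LinearMap.ext
  intro x
  rcases a with i | i <;> rcases b with j | j
  · simp only [opers, Sum.elim_inl, Module.End.mul_apply, LinearMap.mulLeft_apply]
    rw [← mul_assoc, ← mul_assoc, h.1 i j]
  · simp only [opers, Sum.elim_inl, Sum.elim_inr, Module.End.mul_apply, LinearMap.mulLeft_apply,
      LinearMap.mulRight_apply]
    rw [mul_assoc]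
  · simp only [opers, Sum.elim_inl, Sum.elim_inr, Module.End.mul_apply, LinearMap.mulLeft_apply,
      LinearMap.mulRight_apply]
    rw [mul_assoc]
  · simp only [opers, Sum.elim_inr, Module.End.mul_apply, LinearMap.mulRight_apply]
    rw [mul_assoc, mul_assoc, h.2.1 i j]

/-- evaluation of polynomials at commuting elements of a noncommutative algebra -/
theorem exists_eval {B : Type} [Ring B] [Algebra C' B] {σ : Type} (t : σ → B)
    (ht : ∀ a b, t a * t b = t b * t a) :
    ∃ Φ : MvPolynomial σ C' →ₐ[C'] B, ∀ a, Φ (X a) = t a := by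
  have hcomm : ∀ a ∈ Set.range t, ∀ b ∈ Set.range t, a * b = b * a := by
    rintro _ ⟨a, rfl⟩ _ ⟨b, rfl⟩
    exact ht a b
  have := Algebra.isMulCommutative_adjoin C' hcomm
  open scoped IsMulCommutative in
  refine ⟨(Subalgebra.val _).comp (aeval (R := C')
    (fun a => (⟨t a, Algebra.subset_adjoin ⟨a, rfl⟩⟩ : Algebra.adjoin C' (Set.range t)))), ?_⟩
  intro a
  simp

/-- normal ordering data -/
def IsPsi (q p : Fin k → Δ) (Ψ : MvPolynomial (Fin k ⊕ Fin k) C' →ₗ[C'] Δ) : Prop :=
  Ψ 1 = 1 ∧ (∀ i f, Ψ (X (Sum.inl i) * f) = q i * Ψ f) ∧ (∀ i f, Ψ (X (Sum.inr i) * f) = Ψ f * p i)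

theorem exists_psi {q p : Fin k → Δ} (h : IsWP q p) :
    ∃ Ψ : MvPolynomial (Fin k ⊕ Fin k) C' →ₗ[C'] Δ, IsPsi q p Ψ := by
  obtain ⟨Φ, hΦ⟩ := exists_eval (C' := C') (opers C' q p) (opers_comm h)
  refine ⟨(LinearMap.applyₗ (1 : Δ)).comp Φ.toLinearMap, ?_, ?_, ?_⟩
  · simp
  · intro i f
    simp [hΦ, opers]
  · intro i f
    simp [hΦ, opers]

theorem psi_C {q p : Fin k → Δ} {Ψ : MvPolynomial (Fin k ⊕ Fin k) C' →ₗ[C'] Δ}
    (hΨ : IsPsi q p Ψ) (a : C') : Ψ (C a) = a • 1 := by
  rw [← mul_one (C a), ← smul_eq_C_mul, map_smul, hΨ.1]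

theorem psi_p {q p : Fin k → Δ} (h : IsWP q p) {Ψ : MvPolynomial (Fin k ⊕ Fin k) C' →ₗ[C'] Δ}
    (hΨ : IsPsi q p Ψ) (i : Fin k) (f : MvPolynomial (Fin k ⊕ Fin k) C') :
    p i * Ψ f - Ψ f * p i = Ψ (pderiv (Sum.inl i) f) := by
  classical
  induction f using MvPolynomial.induction_on with
  | C a => rw [psi_C hΨ, pderiv_C, map_zero]; simp
  | add f g hf hg =>
    rw [map_add, map_add, map_add, ← hf, ← hg]; noncomm_ring
  | mul_X f n hf =>
    rw [mul_comm f (X n), Derivation.leibniz, smul_eq_mul, smul_eq_mul, map_add]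
    rcases n with j | j
    · rw [hΨ.2.1, hΨ.2.1, ← hf, pderiv_X]
      have h1 := h.2.2 i j
      by_cases hij : i = j
      · subst hij
        rw [if_pos rfl] at h1
        rw [Pi.single_eq_same, mul_one]
        have h2 : p i * q i = 1 + q i * p i := by rw [← h1]; abel
        rw [← mul_assoc, h2]
        noncomm_ring
      · rw [if_neg hij] at h1
        rw [Pi.single_eq_of_ne (by simpa using fun h => hij h.symm), mul_zero, map_zero, add_zero]
        have h2 : p i * q j = q j * p i := sub_eq_zero.1 h1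
        rw [← mul_assoc, h2]
        noncomm_ring
    · rw [hΨ.2.2, hΨ.2.2, ← hf, pderiv_X_of_ne (by simp), mul_zero, map_zero, add_zero]
      rw [sub_mul, mul_assoc, mul_assoc, mul_assoc, h.2.1 j i]

theorem psi_q {q p : Fin k → Δ} (h : IsWP q p) {Ψ : MvPolynomial (Fin k ⊕ Fin k) C' →ₗ[C'] Δ}
    (hΨ : IsPsi q p Ψ) (i : Fin k) (f : MvPolynomial (Fin k ⊕ Fin k) C') :
    Ψ f * q i - q i * Ψ f = Ψ (pderiv (Sum.inr i) f) := by
  classical
  induction f using MvPolynomial.induction_on with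
  | C a => rw [psi_C hΨ, pderiv_C, map_zero]; simp
  | add f g hf hg =>
    rw [map_add, map_add, map_add, ← hf, ← hg]; noncomm_ring
  | mul_X f n hf =>
    rw [mul_comm f (X n), Derivation.leibniz, smul_eq_mul, smul_eq_mul, map_add]
    rcases n with j | j
    · rw [hΨ.2.1, hΨ.2.1, ← hf, pderiv_X_of_ne (by simp), mul_zero, map_zero, add_zero]
      rw [mul_sub, ← mul_assoc, ← mul_assoc, ← mul_assoc, h.1 i j]
    · rw [hΨ.2.2, hΨ.2.2, ← hf, pderiv_X]
      have h1 := h.2.2 j i
      by_cases hij : i = j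
      · subst hij
        rw [if_pos rfl] at h1
        rw [Pi.single_eq_same, mul_one]
        have h2 : p i * q i = 1 + q i * p i := by rw [← h1]; abel
        rw [mul_assoc, h2]
        noncomm_ring
      · rw [if_neg (fun h => hij h.symm)] at h1
        rw [Pi.single_eq_of_ne (by simpa using fun h => hij h.symm), mul_zero, map_zero, add_zero]
        have h2 : p j * q i = q i * p j := sub_eq_zero.1 h1
        rw [mul_assoc, h2]
        noncomm_ring

theorem psi_inj [CharZero C'] [Nontrivial Δ] {q p : Fin k → Δ} (h : IsWP q p)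
    {Ψ : MvPolynomial (Fin k ⊕ Fin k) C' →ₗ[C'] Δ} (hΨ : IsPsi q p Ψ)
    (f : MvPolynomial (Fin k ⊕ Fin k) C') (hf : Ψ f = 0) : f = 0 := by
  by_contra hf0
  have h1 := one_mem_of_stable (LinearMap.ker Ψ) ?_ _ f le_rfl (LinearMap.mem_ker.2 hf) hf0
  · rw [LinearMap.mem_ker, hΨ.1] at h1
    exact one_ne_zero h1
  · rintro (i | i) g hg
    · rw [LinearMap.mem_ker] at hg ⊢
      rw [← psi_p h hΨ, hg]; simp
    · rw [LinearMap.mem_ker] at hg ⊢
      rw [← psi_q h hΨ, hg]; simp

theorem psi_surj {q p : Fin k → Δ} (h : IsWP q p)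
    {Ψ : MvPolynomial (Fin k ⊕ Fin k) C' →ₗ[C'] Δ} (hΨ : IsPsi q p Ψ) (s : Δ)
    (hs : s ∈ Algebra.adjoin C' (Set.range q ∪ Set.range p)) : ∃ f, Ψ f = s := by
  have key : ∀ g, ∃ f, Ψ f = s * Ψ g := by
    induction hs using Algebra.adjoin_induction with
    | mem x hx =>
      intro g
      rcases hx with ⟨i, rfl⟩ | ⟨i, rfl⟩
      · exact ⟨X (Sum.inl i) * g, hΨ.2.1 i g⟩
      · refine ⟨X (Sum.inr i) * g + pderiv (Sum.inl i) g, ?_⟩
        rw [map_add, hΨ.2.2, ← psi_p h hΨ]; abel
    | algebraMap r =>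
      intro g
      exact ⟨r • g, by rw [map_smul, Algebra.smul_def]⟩
    | add x y _ _ hx hy =>
      intro g
      obtain ⟨f1, h1⟩ := hx g
      obtain ⟨f2, h2⟩ := hy g
      exact ⟨f1 + f2, by rw [map_add, h1, h2, add_mul]⟩
    | mul x y _ _ hx hy =>
      intro g
      obtain ⟨f2, h2⟩ := hy g
      obtain ⟨f1, h1⟩ := hx f2
      exact ⟨f1, by rw [h1, h2, mul_assoc]⟩
  obtain ⟨f, hf⟩ := key 1
  exact ⟨f, by rw [hf, hΨ.1, mul_one]⟩

end Psi

/-- the standard Weyl pairs -/
theorem std_isWP (F : Type) [Field F] (k : ℕ) :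
    IsWP (fun i : Fin k => (LinearMap.mulLeft F (X i : MvPolynomial (Fin k) F) :
        Module.End F (MvPolynomial (Fin k) F)))
      (fun i : Fin k => ((pderiv i : Derivation F (MvPolynomial (Fin k) F)
        (MvPolynomial (Fin k) F)) : MvPolynomial (Fin k) F →ₗ[F] MvPolynomial (Fin k) F)) := by
  classical
  refine ⟨?_, ?_, ?_⟩
  · intro i j
    apply LinearMap.ext
    intro f
    simp only [Module.End.mul_apply, LinearMap.mulLeft_apply]
    ring
  · intro i j
    apply LinearMap.ext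
    intro f
    simp only [Module.End.mul_apply]
    show pderiv i (pderiv j f) = pderiv j (pderiv i f)
    induction f using MvPolynomial.induction_on with
    | C a => simp
    | add f g hf hg => simp [hf, hg]
    | mul_X f n hf =>
      simp only [Derivation.leibniz, smul_eq_mul, map_add, hf, pderiv_X]
      by_cases h1 : n = i <;> by_cases h2 : n = j
      · subst h1; subst h2; simp
      · subst h1
        simp [Pi.single_eq_of_ne h2, add_comm]
      · subst h2
        simp [Pi.single_eq_of_ne h1, add_comm]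
      · simp [Pi.single_eq_of_ne h2, Pi.single_eq_of_ne h1]
  · intro i j
    apply LinearMap.ext
    intro f
    simp only [LinearMap.sub_apply, Module.End.mul_apply, LinearMap.mulLeft_apply]
    show pderiv i (X j * f) - X j * pderiv i f = _
    rw [Derivation.leibniz, smul_eq_mul, smul_eq_mul, pderiv_X]
    by_cases hij : i = j
    · subst hij
      rw [if_pos rfl, Pi.single_eq_same]
      simp
    · rw [if_neg hij, Pi.single_eq_of_ne (fun h => hij h.symm)]
      simp

/-- PIECE WA-W. -/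
theorem weyl_embed {C : Type} [Field C] [CharZero C] {Δ : Type} [Ring Δ] [Nontrivial Δ]
    [Algebra C Δ] {k : ℕ} (q p : Fin k → Δ) (h : IsWP q p) :
    ∃ Θ : Algebra.adjoin C (Set.range q ∪ Set.range p) →ₐ[C]
      Module.End C (MvPolynomial (Fin k) C),
      Function.Injective Θ ∧ ∀ t, Θ t ∈ Weyl C k := by
  set E := Module.End C (MvPolynomial (Fin k) C) with hE
  let q0 : Fin k → E := fun i => LinearMap.mulLeft C (MvPolynomial.X i : MvPolynomial (Fin k) C)
  let p0 : Fin k → E := fun i => ((pderiv i : Derivation C (MvPolynomial (Fin k) C)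
        (MvPolynomial (Fin k) C)) : MvPolynomial (Fin k) C →ₗ[C] MvPolynomial (Fin k) C)
  have h0 : IsWP q0 p0 := std_isWP C k
  let qq : Fin k → Δ × E := fun i => (q i, q0 i)
  let pp : Fin k → Δ × E := fun i => (p i, p0 i)
  have hh : IsWP qq pp := by
    refine ⟨fun i j => Prod.ext (h.1 i j) (h0.1 i j), fun i j => Prod.ext (h.2.1 i j) (h0.2.1 i j),
      fun i j => ?_⟩
    have h1 := h.2.2 i j
    have h2 := h0.2.2 i j
    by_cases hij : i = j
    · rw [if_pos hij] at h1 h2 ⊢
      exact Prod.ext h1 h2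
    · rw [if_neg hij] at h1 h2 ⊢
      exact Prod.ext h1 h2
  obtain ⟨Ψ, hΨ⟩ := exists_psi (C' := C) hh
  have hΨ1 : IsPsi q p ((AlgHom.fst C Δ E).toLinearMap.comp Ψ) := by
    refine ⟨?_, ?_, ?_⟩
    · show (Ψ 1).1 = 1
      rw [hΨ.1]; rfl
    · intro i f
      show (Ψ _).1 = q i * (Ψ f).1
      rw [hΨ.2.1]; rfl
    · intro i f
      show (Ψ _).1 = (Ψ f).1 * p i
      rw [hΨ.2.2]; rfl
  have hΨ2 : IsPsi q0 p0 ((AlgHom.snd C Δ E).toLinearMap.comp Ψ) := by
    refine ⟨?_, ?_, ?_⟩
    · show (Ψ 1).2 = 1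
      rw [hΨ.1]; rfl
    · intro i f
      show (Ψ _).2 = q0 i * (Ψ f).2
      rw [hΨ.2.1]; rfl
    · intro i f
      show (Ψ _).2 = (Ψ f).2 * p0 i
      rw [hΨ.2.2]; rfl
  set S := Algebra.adjoin C (Set.range qq ∪ Set.range pp) with hS
  let e1 : S →ₐ[C] Δ := (AlgHom.fst C Δ E).comp S.val
  let e2 : S →ₐ[C] E := (AlgHom.snd C Δ E).comp S.val
  have he1 : Function.Injective e1 := by
    rw [injective_iff_map_eq_zero]
    rintro ⟨s, hs⟩ h1
    obtain ⟨f, rfl⟩ := psi_surj hh hΨ s hs
    have h2 : f = 0 := psi_inj h hΨ1 f h1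
    subst h2
    apply Subtype.ext
    simp
  have he2 : Function.Injective e2 := by
    rw [injective_iff_map_eq_zero]
    rintro ⟨s, hs⟩ h1
    obtain ⟨f, rfl⟩ := psi_surj hh hΨ s hs
    have h2 : f = 0 := psi_inj h0 hΨ2 f h1
    subst h2
    apply Subtype.ext
    simp
  have hle : Algebra.adjoin C (Set.range q ∪ Set.range p) ≤ e1.range := by
    apply Algebra.adjoin_le
    rintro _ (⟨i, rfl⟩ | ⟨i, rfl⟩)
    · exact ⟨⟨qq i, Algebra.subset_adjoin (Or.inl ⟨i, rfl⟩)⟩, rfl⟩
    · exact ⟨⟨pp i, Algebra.subset_adjoin (Or.inr ⟨i, rfl⟩)⟩, rfl⟩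
  have hW : ∀ s : S, e2 s ∈ Weyl C k := by
    have h3 : S ≤ (Weyl C k).comap (AlgHom.snd C Δ E) := by
      apply Algebra.adjoin_le
      rintro _ (⟨i, rfl⟩ | ⟨i, rfl⟩)
      · exact Algebra.subset_adjoin (Or.inl ⟨i, rfl⟩)
      · exact Algebra.subset_adjoin (Or.inr ⟨i, rfl⟩)
    rintro ⟨s, hs⟩
    exact h3 hs
  let φ : e1.range →ₐ[C] E := e2.comp ((AlgEquiv.ofInjective e1 he1).symm : e1.range →ₐ[C] S)
  refine ⟨φ.comp (Subalgebra.inclusion hle), ?_, ?_⟩
  · apply Function.Injective.comp (g := φ)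
    · exact he2.comp (AlgEquiv.ofInjective e1 he1).symm.injective
    · exact Subalgebra.inclusion_injective hle
  · intro t
    exact hW _

end Pool.Agent.R693.G
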