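import Pool.Agent.R693.C.Step

/-!
Algebras generated by commuting points (a Weyl pair and a truncated Witt algebra for each point).
-/

set_option autoImplicit false
set_option linter.unusedSectionVars false

namespace Pool.Agent.R693.G

open Pool.Agent.R693.O Pool.Agent.R693.C

section pc
variable (K : Type) [Field K] {E : Type} [Ring E] [Algebra K E]

/-- One more point. -/
structure IsPt (R₀ : Subalgebra K E) (D y : E) (Z : ℕ → E) : Prop where
  hD : ∀ r ∈ R₀, D * r = r * D
  hy : ∀ r ∈ R₀, y * r = r * y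
  hZ : ∀ l, ∀ r ∈ R₀, Z l * r = r * Z l
  hDy : D * y = y * D + 1
  hDZ : ∀ l, D * Z l = Z l * D
  hyZ : ∀ l, y * Z l = Z l * y
  h0 : Z 0 = 0
  hbr : ∀ a b, 1 ≤ a → 1 ≤ b → Z a * Z b - Z b * Z a = ((b : K) - a) • Z (a + b - 1)
  hfin : ∃ M, ∀ l, M ≤ l → Z l = 0

/-- The generators. -/
def ptSet (R₀ : Subalgebra K E) (D y : E) (Z : ℕ → E) : Set E :=
  (R₀ : Set E) ∪ ({D, y} ∪ Set.range Z)

/-- The algebra generated by one more point. -/
def ptGen (R₀ : Subalgebra K E) (D y : E) (Z : ℕ → E) : Subalgebra K E :=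
  Algebra.adjoin K (ptSet K R₀ D y Z)

/-- Algebras generated by commuting points. -/
def PC : ℕ → Subalgebra K E → Prop
  | 0, R => R = ⊥
  | n + 1, R => ∃ (R₀ : Subalgebra K E) (D y : E) (Z : ℕ → E), PC n R₀ ∧ IsPt K R₀ D y Z ∧
      R = ptGen K R₀ D y Z

variable {K}

lemma R0_le (R₀ : Subalgebra K E) (D y : E) (Z : ℕ → E) : R₀ ≤ ptGen K R₀ D y Z :=
  fun _ hr => Algebra.subset_adjoin (Or.inl hr)

lemma D_mem (R₀ : Subalgebra K E) (D y : E) (Z : ℕ → E) : D ∈ ptGen K R₀ D y Z :=
  Algebra.subset_adjoin (Or.inr (Or.inl (Or.inl rfl)))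

lemma y_mem (R₀ : Subalgebra K E) (D y : E) (Z : ℕ → E) : y ∈ ptGen K R₀ D y Z :=
  Algebra.subset_adjoin (Or.inr (Or.inl (Or.inr rfl)))

lemma Z_mem (R₀ : Subalgebra K E) (D y : E) (Z : ℕ → E) (l : ℕ) : Z l ∈ ptGen K R₀ D y Z :=
  Algebra.subset_adjoin (Or.inr (Or.inr ⟨l, rfl⟩))

lemma IsPt.map {E' : Type} [Ring E'] [Algebra K E'] (φ : E →ₐ[K] E') {R₀ : Subalgebra K E}
    {D y : E} {Z : ℕ → E} (h : IsPt K R₀ D y Z) :
    IsPt K (R₀.map φ) (φ D) (φ y) (fun l => φ (Z l)) where
  hD := by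
    rintro _ ⟨r, hr, rfl⟩
    change φ D * φ r = φ r * φ D
    rw [← map_mul, h.hD r hr, map_mul]
  hy := by
    rintro _ ⟨r, hr, rfl⟩
    change φ y * φ r = φ r * φ y
    rw [← map_mul, h.hy r hr, map_mul]
  hZ := by
    rintro l _ ⟨r, hr, rfl⟩
    change φ (Z l) * φ r = φ r * φ (Z l)
    rw [← map_mul, h.hZ l r hr, map_mul]
  hDy := by rw [← map_mul, h.hDy, map_add, map_mul, map_one]
  hDZ l := by rw [← map_mul, h.hDZ l, map_mul]
  hyZ l := by rw [← map_mul, h.hyZ l, map_mul]
  h0 := by rw [h.h0, map_zero]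
  hbr a b ha hb := by rw [← map_mul, ← map_mul, ← map_sub, h.hbr a b ha hb, map_smul]
  hfin := by
    obtain ⟨M, hM⟩ := h.hfin
    exact ⟨M, fun l hl => by rw [hM l hl, map_zero]⟩

lemma ptGen_map {E' : Type} [Ring E'] [Algebra K E'] (φ : E →ₐ[K] E') (R₀ : Subalgebra K E)
    (D y : E) (Z : ℕ → E) :
    (ptGen K R₀ D y Z).map φ = ptGen K (R₀.map φ) (φ D) (φ y) (fun l => φ (Z l)) := by
  unfold ptGen ptSet
  rw [AlgHom.map_adjoin]
  congr 1
  rw [Set.image_union, Set.image_union, Set.image_insert_eq, Set.image_singleton, ← Set.range_comp]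
  rfl

lemma PC.map {n : ℕ} {E' : Type} [Ring E'] [Algebra K E'] (φ : E →ₐ[K] E') :
    ∀ {R : Subalgebra K E}, PC K n R → PC K n (R.map φ) := by
  induction n with
  | zero =>
    rintro R rfl
    exact Algebra.map_bot φ
  | succ n ih =>
    rintro R ⟨R₀, D, y, Z, h₀, h, rfl⟩
    exact ⟨R₀.map φ, φ D, φ y, fun l => φ (Z l), ih h₀, h.map φ, ptGen_map φ R₀ D y Z⟩

lemma PC.comap {n : ℕ} {A : Subalgebra K E} :
    ∀ {R : Subalgebra K E}, R ≤ A → PC K n R → PC K n (R.comap A.val) := by
  have inj : Function.Injective (A.val : A →ₐ[K] E) := Subtype.val_injective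
  induction n with
  | zero =>
    rintro R _ rfl
    change Subalgebra.comap A.val ⊥ = ⊥
    rw [← Algebra.map_bot A.val, Subalgebra.comap_map_eq_self_of_injective inj]
  | succ n ih =>
    rintro R hR ⟨R₀, D, y, Z, h₀, h, rfl⟩
    have h1 : R₀ ≤ A := (R0_le R₀ D y Z).trans hR
    have hDA : D ∈ A := hR (D_mem R₀ D y Z)
    have hyA : y ∈ A := hR (y_mem R₀ D y Z)
    have hZA : ∀ l, Z l ∈ A := fun l => hR (Z_mem R₀ D y Z l)
    refine ⟨R₀.comap A.val, ⟨D, hDA⟩, ⟨y, hyA⟩, fun l => ⟨Z l, hZA l⟩, ih h1 h₀, ?_, ?_⟩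
    · exact
        { hD := fun r hr => Subtype.ext (h.hD r.1 hr)
          hy := fun r hr => Subtype.ext (h.hy r.1 hr)
          hZ := fun l r hr => Subtype.ext (h.hZ l r.1 hr)
          hDy := Subtype.ext h.hDy
          hDZ := fun l => Subtype.ext (h.hDZ l)
          hyZ := fun l => Subtype.ext (h.hyZ l)
          h0 := Subtype.ext h.h0
          hbr := fun a b ha hb => Subtype.ext (h.hbr a b ha hb)
          hfin := by
            obtain ⟨M, hM⟩ := h.hfin
            exact ⟨M, fun l hl => Subtype.ext (hM l hl)⟩ }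
    · have h3 : (ptGen K (R₀.comap A.val) ⟨D, hDA⟩ ⟨y, hyA⟩ (fun l => ⟨Z l, hZA l⟩)).map A.val =
          ptGen K R₀ D y Z := by
        rw [ptGen_map]
        have h4 : (R₀.comap A.val).map A.val = R₀ := by
          ext r
          constructor
          · rintro ⟨r, hr, rfl⟩
            exact hr
          · intro hr
            exact ⟨⟨r, h1 hr⟩, hr, rfl⟩
        rw [h4]
        rfl
      rw [← h3, Subalgebra.comap_map_eq_self_of_injective inj]

lemma PC.succ {n : ℕ} {R₀ : Subalgebra K E} {D y : E} {Z : ℕ → E} (h₀ : PC K n R₀)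
    (h : IsPt K R₀ D y Z) : ∃ S : Subalgebra K E, PC K (n + 1) S ∧ R₀ ≤ S ∧ D ∈ S ∧ y ∈ S ∧
      (∀ l, Z l ∈ S) ∧ ∀ T : Subalgebra K E, R₀ ≤ T → D ∈ T → y ∈ T → (∀ l, Z l ∈ T) → S ≤ T := by
  refine ⟨ptGen K R₀ D y Z, ⟨R₀, D, y, Z, h₀, h, rfl⟩, R0_le _ _ _ _, D_mem _ _ _ _, y_mem _ _ _ _,
    Z_mem _ _ _ _, fun T h1 h2 h3 h4 => ?_⟩
  unfold ptGen ptSet
  rw [Algebra.adjoin_le_iff]
  rintro x (hx | (rfl | rfl) | ⟨l, rfl⟩)
  · exact h1 hx
  · exact h2
  · exact h3
  · exact h4 l

/-- Algebras generated by points have chains of generators. -/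
lemma PC.ch {n : ℕ} : ∀ {R : Subalgebra K E}, PC K n R → ∃ m, Ch K m R := by
  induction n with
  | zero =>
    rintro R h
    exact ⟨0, h⟩
  | succ n ih =>
    rintro R ⟨R₀, D, y, Z, h₀, h, rfl⟩
    obtain ⟨m, hm⟩ := ih h₀
    obtain ⟨M, hM⟩ := h.hfin
    have key : ∀ j, ∃ q, Ch K q (Algebra.adjoin K ((R₀ : Set E) ∪ ({y} ∪
        {x | ∃ l, 1 ≤ l ∧ M ≤ l + j ∧ x = Z l}))) := by
      intro j
      induction j with
      | zero =>
        have h2 : Algebra.adjoin K (R₀ : Set E) = R₀ := Algebra.adjoin_eq _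
        have h3 : Ch K (m + 1) (Algebra.adjoin K (insert y (R₀ : Set E))) := by
          apply Ch.add
          · rw [h2]; exact hm
          · intro r hr
            rw [h.hy r hr, sub_self]
            exact Subalgebra.zero_mem _
        refine ⟨m + 1, ?_⟩
        convert h3 using 1
        apply le_antisymm
        · rw [Algebra.adjoin_le_iff]
          rintro x (hx | rfl | ⟨l, h1, hl, rfl⟩)
          · exact Algebra.subset_adjoin (Set.mem_insert_of_mem _ hx)
          · exact Algebra.subset_adjoin (Set.mem_insert _ _)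
          · rw [hM l (by omega)]
            exact Subalgebra.zero_mem _
        · apply Algebra.adjoin_mono
          rintro x (rfl | hx)
          · right; left; rfl
          · left; exact hx
      | succ j ih =>
        obtain ⟨q, hq⟩ := ih
        by_cases hj : j + 2 ≤ M
        · obtain ⟨l, hl⟩ : ∃ l, M = l + j + 1 := ⟨M - j - 1, by omega⟩
          have hl1 : 1 ≤ l := by omega
          refine ⟨q + 1, ?_⟩
          have h4 : ((R₀ : Set E) ∪ ({y} ∪ {x | ∃ l, 1 ≤ l ∧ M ≤ l + (j + 1) ∧ x = Z l})) =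
              insert (Z l) ((R₀ : Set E) ∪ ({y} ∪ {x | ∃ l, 1 ≤ l ∧ M ≤ l + j ∧ x = Z l})) := by
            ext x
            constructor
            · rintro (hx | hx | ⟨l', h1, h2, h3⟩)
              · right; left; exact hx
              · right; right; left; exact hx
              · by_cases hll : l' = l
                · left; rw [h3, hll]
                · right; right; right
                  exact ⟨l', h1, by omega, h3⟩
            · rintro (hx | hx | hx | ⟨l', h1, h2, h3⟩)
              · right; right; exact ⟨l, hl1, by omega, hx⟩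
              · left; exact hx
              · right; left; exact hx
              · right; right; exact ⟨l', h1, by omega, h3⟩
          rw [h4]
          apply Ch.add hq
          rintro g (hg | rfl | ⟨l', h1, h2, rfl⟩)
          · rw [h.hZ l g hg, sub_self]
            exact Subalgebra.zero_mem _
          · rw [← h.hyZ l, sub_self]
            exact Subalgebra.zero_mem _
          · rw [h.hbr l l' hl1 h1]
            apply Subalgebra.smul_mem
            apply Algebra.subset_adjoin
            right; right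
            exact ⟨l + l' - 1, by omega, by omega, rfl⟩
        · refine ⟨q, ?_⟩
          have h4 : {x | ∃ l, 1 ≤ l ∧ M ≤ l + (j + 1) ∧ x = Z l} =
              {x | ∃ l, 1 ≤ l ∧ M ≤ l + j ∧ x = Z l} := by
            ext x
            constructor
            · rintro ⟨l', h1, h2, h3⟩
              exact ⟨l', h1, by omega, h3⟩
            · rintro ⟨l', h1, h2, h3⟩
              exact ⟨l', h1, by omega, h3⟩
          rw [h4]
          exact hq
    obtain ⟨q, hq⟩ := key M
    have h5 : Ch K (q + 1) (Algebra.adjoin K (insert D ((R₀ : Set E) ∪ ({y} ∪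
        {x | ∃ l, 1 ≤ l ∧ M ≤ l + M ∧ x = Z l})))) := by
      apply Ch.add hq
      rintro g (hg | rfl | ⟨l, h1, -, rfl⟩)
      · rw [h.hD g hg, sub_self]
        exact Subalgebra.zero_mem _
      · rw [h.hDy, add_sub_cancel_left]
        exact Subalgebra.one_mem _
      · rw [h.hDZ l, sub_self]
        exact Subalgebra.zero_mem _
    refine ⟨q + 1, ?_⟩
    convert h5 using 1
    unfold ptGen ptSet
    apply le_antisymm
    · rw [Algebra.adjoin_le_iff]
      rintro x (hx | (rfl | rfl) | ⟨l, rfl⟩)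
      · exact Algebra.subset_adjoin (Or.inr (Or.inl hx))
      · exact Algebra.subset_adjoin (Or.inl rfl)
      · exact Algebra.subset_adjoin (Or.inr (Or.inr (Or.inl rfl)))
      · rcases Nat.eq_zero_or_pos l with rfl | hl
        · rw [h.h0]; exact Subalgebra.zero_mem _
        · exact Algebra.subset_adjoin (Or.inr (Or.inr (Or.inr ⟨l, hl, by omega, rfl⟩)))
    · apply Algebra.adjoin_mono
      rintro x (rfl | hx | rfl | ⟨l, h1, -, rfl⟩)
      · exact Or.inr (Or.inl (Or.inl rfl))
      · exact Or.inl hx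
      · exact Or.inr (Or.inl (Or.inr rfl))
      · exact Or.inr (Or.inr ⟨l, rfl⟩)

end pc

section one
variable {K : Type} [Field K] [CharZero K] {V : Type} [AddCommGroup V] [Module K V]
variable {E : ℕ → Module.End K V}

variable (hbr : ∀ a b, E a * E b - E b * E a = ((b : K) - a) • E (a + b - 1))

include hbr in
/-- One point. -/
theorem point_step' [Nontrivial V] {n : ℕ} {B : Subalgebra K (Module.End K V)} (hB : PC K n B)
    (hsm : ∀ v, ∃ M, ∀ l, M ≤ l → E l v = 0) (hBC : B ≤ Cz E) :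
    ∃ (W : Type) (_ : AddCommGroup W) (_ : Module K W) (Φ : W →ₗ[K] V)
      (hat : Cz E →ₐ[K] Module.End K W) (S : Subalgebra K (Module.End K W)) (m : ℕ),
      Nontrivial W ∧ Function.Injective Φ ∧ (∀ a w, Φ (hat a w) = (a : Module.End K V) (Φ w)) ∧
      PC K m S ∧ (∀ b : Cz E, (b : Module.End K V) ∈ B → hat b ∈ S) ∧
      (∀ l, ∃ x ∈ S, ∀ w, Φ (x w) = E l (Φ w)) ∧
      (∀ a : Cz E, (∀ b ∈ B, (a : Module.End K V) * b = b * a) → ∀ x ∈ S, hat a * x = x * hat a) := by
  classical
  have hex : ∃ M, UU E M ≠ ⊥ := by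
    obtain ⟨v, hv⟩ := exists_ne (0 : V)
    obtain ⟨M, hM⟩ := hsm v
    refine ⟨M, fun h => hv ?_⟩
    have : v ∈ UU E M := hM
    rwa [h, Submodule.mem_bot] at this
  rcases hfind : Nat.find hex with _ | m
  · have h0 : UU E 0 ≠ ⊥ := by
      have := Nat.find_spec hex
      rwa [hfind] at this
    refine ⟨UU E 0, inferInstance, inferInstance, (UU E 0).subtype, res E 0,
      (B.comap (Cz E).val).map (res E 0), n, (Submodule.nontrivial_iff_ne_bot).mpr h0,
      Subtype.val_injective, fun a w => rfl, (hB.comap hBC).map _, fun b hb => ⟨b, hb, rfl⟩, ?_, ?_⟩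
    · intro l
      exact ⟨0, Subalgebra.zero_mem _, fun w => by
        rw [LinearMap.zero_apply, map_zero]
        exact (w.2 l (Nat.zero_le _)).symm⟩
    · rintro a ha _ ⟨b, hb, rfl⟩
      change res E 0 a * res E 0 b = res E 0 b * res E 0 a
      rw [← map_mul, ← map_mul]
      congr 1
      exact Subtype.ext (ha _ hb)
  · have h0 : UU E (m + 1) ≠ ⊥ := by
      have := Nat.find_spec hex
      rwa [hfind] at this
    have hmin : ∀ v ∈ UU E (m + 1), E m v = 0 → v = 0 := by
      intro v hv h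
      have h1 : UU E m = ⊥ := by
        by_contra hne
        exact Nat.find_min hex (m := m) (by omega) hne
      have h2 : v ∈ UU E m := by
        intro l hl
        rcases Nat.eq_or_lt_of_le hl with rfl | hl
        · exact h
        · exact hv l hl
      rwa [h1, Submodule.mem_bot] at h2
    set M := m + 1 with hM
    obtain ⟨R₀, hR₀PC, hR, hRmem⟩ : ∃ R₀, PC (E := Module.End K (ℕ →₀ UU E M)) K n R₀ ∧
        (∀ r ∈ R₀, ∃ b : Cz E, (b : Module.End K V) ∈ B ∧ r = hU K (UU E M) (res E M b)) ∧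
        (∀ b : Cz E, (b : Module.End K V) ∈ B → hat E M b ∈ R₀) :=
      ⟨_, PC.map (E' := Module.End K (ℕ →₀ UU E M)) (hat E M) (PC.comap hBC hB),
        by rintro r ⟨b, hb', hb⟩; exact ⟨b, hb', hb.symm⟩, fun b hb => ⟨b, hb, rfl⟩⟩
    set Z : ℕ → Module.End K (ℕ →₀ UU E M) := fun l =>
      if l = 0 then 0 else hU K (UU E M) (ZZ E M l) with hZ
    have hZ0 : Z 0 = 0 := if_pos rfl
    have hZl : ∀ l, 1 ≤ l → Z l = hU K (UU E M) (ZZ E M l) := fun l hl => if_neg (by omega)
    have hZc : ∀ l (b : Cz E), Z l * hU K (UU E M) (res E M b) = hU K (UU E M) (res E M b) * Z l := by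
      intro l b
      rcases Nat.eq_zero_or_pos l with rfl | hl
      · rw [hZ0, zero_mul, mul_zero]
      · rw [hZl l hl, ← map_mul, ← map_mul, ZZ_res hbr hl]
    have hDZ : ∀ l, Dh K (UU E M) * Z l = Z l * Dh K (UU E M) := by
      intro l
      rcases Nat.eq_zero_or_pos l with rfl | hl
      · rw [hZ0, zero_mul, mul_zero]
      · rw [hZl l hl]; exact Dh_hU _
    have hyZ : ∀ l, yh K (UU E M) * Z l = Z l * yh K (UU E M) := by
      intro l
      rcases Nat.eq_zero_or_pos l with rfl | hl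
      · rw [hZ0, zero_mul, mul_zero]
      · rw [hZl l hl]; exact yh_hU _
    have hZbr : ∀ a b, 1 ≤ a → 1 ≤ b → Z a * Z b - Z b * Z a = ((b : K) - a) • Z (a + b - 1) := by
      intro a b ha hb
      rw [hZl a ha, hZl b hb, hZl (a + b - 1) (by omega), ← map_mul, ← map_mul]
      refine (map_sub (hU K (UU E M)) _ _).symm.trans ?_
      rw [ZZ_br hbr ha hb, map_smul]
    have hZf : ∀ l, M ≤ l → Z l = 0 := by
      intro l hl
      rw [hZl l (by omega), ZZ_zero hbr (by omega) hl, map_zero]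
    have hpt : IsPt K R₀ (Dh K (UU E M)) (yh K (UU E M)) Z := by
      refine ⟨?_, ?_, ?_, Dh_yh, hDZ, hyZ, hZ0, hZbr, M, hZf⟩
      · intro r hr
        obtain ⟨b, -, rfl⟩ := hR r hr
        exact Dh_hU _
      · intro r hr
        obtain ⟨b, -, rfl⟩ := hR r hr
        exact yh_hU _
      · intro l r hr
        obtain ⟨b, -, rfl⟩ := hR r hr
        exact hZc l b
    obtain ⟨S, hPC, hRS, hDS, hyS, hZS, hSle⟩ :=
      PC.succ (E := Module.End K (ℕ →₀ UU E M)) hR₀PC hpt
    have : Nontrivial (UU E M) := (Submodule.nontrivial_iff_ne_bot).mpr h0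
    refine ⟨ℕ →₀ UU E M, inferInstance, inferInstance, Ph E M, hat E M, S, n + 1,
      inferInstance, Ph_inj hbr hmin, Ph_hat M, ?_, ?_, ?_, ?_⟩
    · exact hPC
    · intro b hb
      exact hRS (hRmem b hb)
    · intro l
      refine ⟨Eh (ZZ E M) l, ?_, Ph_Eh hbr M l⟩
      unfold Eh
      refine S.add_mem (S.sum_mem fun j hj => S.smul_mem (S.mul_mem (S.pow_mem hyS j) ?_) _)
        (S.mul_mem hDS (S.pow_mem hyS l))
      have h1 := Finset.mem_range.mp hj
      rw [← hZl (l - j) (by omega)]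
      exact hZS (l - j)
    · intro a ha x hx
      have key : ∀ z, hat E M a * z = z * hat E M a →
          z ∈ Subalgebra.centralizer K {hat E M a} := by
        intro z hz
        rw [Subalgebra.mem_centralizer_iff]
        rintro _ rfl
        exact hz
      have h1 : S ≤ Subalgebra.centralizer K {hat E M a} := by
        apply hSle
        · intro r hr
          obtain ⟨b, hb, rfl⟩ := hR r hr
          apply key
          change hU K (UU E M) (res E M a) * hU K (UU E M) (res E M b) =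
            hU K (UU E M) (res E M b) * hU K (UU E M) (res E M a)
          rw [← map_mul, ← map_mul, ← map_mul, ← map_mul]
          congr 2
          exact Subtype.ext (ha _ hb)
        · exact key _ (Dh_hU _).symm
        · exact key _ (yh_hU _).symm
        · intro l
          exact key _ (hZc l a).symm
      exact (Subalgebra.mem_centralizer_iff K).mp (h1 hx) _ rfl

end one

section multi
variable {K : Type} [Field K] [CharZero K]

/-- Several points. -/
theorem multi' {ι : Type} (s : Finset ι) : ∀ (V : Type) [AddCommGroup V] [Module K V] [Nontrivial V]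
    (n : ℕ) (B : Subalgebra K (Module.End K V)) (E : ι → ℕ → Module.End K V), PC K n B →
    (∀ c ∈ s, ∀ l, ∀ b ∈ B, b * E c l = E c l * b) →
    (∀ c ∈ s, ∀ c' ∈ s, c ≠ c' → ∀ l l', E c l * E c' l' = E c' l' * E c l) →
    (∀ c ∈ s, ∀ a b, E c a * E c b - E c b * E c a = ((b : K) - a) • E c (a + b - 1)) →
    (∀ c ∈ s, ∀ v, ∃ M, ∀ l, M ≤ l → E c l v = 0) →
    ∃ (W : Type) (_ : AddCommGroup W) (_ : Module K W) (Φ : W →ₗ[K] V)
      (S : Subalgebra K (Module.End K W)) (m : ℕ),
      Nontrivial W ∧ Function.Injective Φ ∧ PC K m S ∧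
      (∀ b ∈ B, ∃ x ∈ S, ∀ w, Φ (x w) = b (Φ w)) ∧
      (∀ c ∈ s, ∀ l, ∃ x ∈ S, ∀ w, Φ (x w) = E c l (Φ w)) := by
  classical
  induction s using Finset.induction_on with
  | empty =>
    intro V _ _ _ n B E hB _ _ _ _
    exact ⟨V, inferInstance, inferInstance, LinearMap.id, B, n, inferInstance,
      Function.injective_id, hB, fun b hb => ⟨b, hb, fun w => rfl⟩,
      fun c hc => absurd hc (Finset.notMem_empty c)⟩
  | insert c s hcs ih =>
    intro V _ _ _ n B E hB hBE hEE hbr hsm
    have hc := Finset.mem_insert_self c s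
    have hs : ∀ c' ∈ s, c' ∈ insert c s := fun c' h => Finset.mem_insert_of_mem h
    have hne : ∀ c' ∈ s, c' ≠ c := fun c' h h' => hcs (h' ▸ h)
    obtain ⟨W, _, _, Φ, hat, S, m, hW, hΦ, hhat, hS, hBS, hES, hcomm⟩ :=
      point_step' (hbr c hc) hB (hsm c hc) (fun b hb => mem_Cz fun l => hBE c hc l b hb)
    have hmem : ∀ c' ∈ s, ∀ l, E c' l ∈ Cz (E c) := fun c' h l =>
      mem_Cz fun l' => hEE c' (hs c' h) c hc (hne c' h) l l'
    set E' : ι → ℕ → Module.End K W := fun c' l =>
      if h : c' ∈ s then hat ⟨E c' l, hmem c' h l⟩ else 0 with hE'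
    have hE'eq : ∀ c' (h : c' ∈ s) l, E' c' l = hat ⟨E c' l, hmem c' h l⟩ := by
      intro c' h l
      rw [hE']
      exact dif_pos h
    obtain ⟨W', _, _, Φ', S', m', hW', hΦ', hS', hBS', hES'⟩ := ih W m S E' hS
      (by
        intro c' h l b hb
        rw [hE'eq c' h]
        refine (hcomm _ ?_ b hb).symm
        intro b' hb'
        exact (hBE c' (hs c' h) l b' hb').symm)
      (by
        intro c1 h1 c2 h2 h12 l l'
        rw [hE'eq c1 h1, hE'eq c2 h2, ← map_mul, ← map_mul]
        congr 1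
        exact Subtype.ext (hEE c1 (hs c1 h1) c2 (hs c2 h2) h12 l l'))
      (by
        intro c' h a b
        rw [hE'eq c' h, hE'eq c' h, hE'eq c' h, ← map_mul, ← map_mul, ← map_sub, ← map_smul]
        congr 1
        exact Subtype.ext (hbr c' (hs c' h) a b))
      (by
        intro c' h v
        obtain ⟨M, hM⟩ := hsm c' (hs c' h) (Φ v)
        refine ⟨M, fun l hl => ?_⟩
        rw [hE'eq c' h]
        apply hΦ
        rw [hhat, map_zero]
        exact hM l hl)
    refine ⟨W', inferInstance, inferInstance, Φ ∘ₗ Φ', S', m', hW', hΦ.comp hΦ', hS', ?_, ?_⟩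
    · intro b hb
      have hbC : b ∈ Cz (E c) := mem_Cz fun l => hBE c hc l b hb
      obtain ⟨x, hx, hx'⟩ := hBS' (hat ⟨b, hbC⟩) (hBS _ hb)
      refine ⟨x, hx, fun w => ?_⟩
      rw [LinearMap.comp_apply, hx', hhat]
      rfl
    · intro c' hc' l
      rcases Finset.mem_insert.mp hc' with rfl | h
      · obtain ⟨x, hx, hx'⟩ := hES l
        obtain ⟨x', hx1, hx2⟩ := hBS' x hx
        refine ⟨x', hx1, fun w => ?_⟩
        rw [LinearMap.comp_apply, hx2, hx']
        rfl
      · obtain ⟨x, hx, hx'⟩ := hES' c' h l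
        refine ⟨x, hx, fun w => ?_⟩
        rw [LinearMap.comp_apply, hx', hE'eq c' h, hhat]
        rfl

end multi

end Pool.Agent.R693.G
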