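import Pool.Agent.R693.C.Rep
import Pool.Agent.R693.E.Main
import Pool.Agent.R693.G.Pts
import Pool.Agent.R693.G.PieceW

/-!
Prime quotients of the enveloping algebra of `W_{≥-1}` embed into Weyl algebras over extension fields.
-/

set_option autoImplicit false
set_option linter.unusedSectionVars false

namespace Pool.Agent.R693.G

open Polynomial (X C monomial derivative)
open Pool.Agent.R693.W (IsW Lab Fl wd wd_nil wd_cons IsPrimeT exists_prime_disj)
open Pool.Agent.R693.O Pool.Agent.R693.C
open Pool.Agent.R693.Vir (Quo quo quo_surj quo_eq_zero)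

section rep
variable {F A : Type} [Field F] [CharZero F] [Ring A] [Algebra F A] {e : ℕ → A}

/-- The representation in an algebra generated by points. -/
theorem pts_rep (he : IsW F e) (hgen : ∀ x : A, ∃ k, x ∈ Fl F e k) {P : TwoSidedIdeal A}
    (hfib : FibC F A P e) :
    ∃ (K W : Type) (_ : Field K) (_ : CharZero K) (_ : AddCommGroup W) (_ : Module K W)
      (S : Subalgebra K (Module.End K W)) (m : ℕ) (φ : F →+* K) (ψ : A →+* S),
      PC K m S ∧ (∀ r, ψ (algebraMap F A r) = algebraMap K S (φ r)) ∧ ∀ a, ψ a = 0 ↔ a ∈ P := by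
  obtain ⟨K, V, _, _, _, _, _, φ, μ, s, hφ, hP0, hP1, hsm⟩ := hfib
  set ρ := rhoP (fun j => μ (e j)) with hρ
  have hbr := rhoP_br (K := K) (V := V) he μ
  have hsm' : ∀ v : V, ∃ M, Kl s ρ M v := hsm
  obtain ⟨W, _, _, Φ, S, m, hW, hΦ, hS, -, hES⟩ := multi' s V 0 ⊥ (fun c l => EE hsm' c l) rfl
    (by
      intro c _ l b hb
      obtain ⟨r, rfl⟩ := Algebra.mem_bot.mp hb
      exact Algebra.commutes r _)
    (fun c hc c' hc' hcc l l' => EE_comm hsm' hbr hcc hc hc' l l')
    (fun c _ a b => EE_br hsm' hbr c a b)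
    (fun c _ v => by
      obtain ⟨M, hM⟩ := EE_kill hsm' v
      exact ⟨M, fun l hl => hM c l hl⟩)
  let T : Subalgebra K (Module.End K V) :=
    { carrier := {t | ∃ x ∈ S, ∀ w, Φ (x w) = t (Φ w)}
      mul_mem' := by
        rintro t t' ⟨x, hx, h⟩ ⟨x', hx', h'⟩
        exact ⟨x * x', S.mul_mem hx hx', fun w => by
          rw [Module.End.mul_apply, Module.End.mul_apply, h, h']⟩
      add_mem' := by
        rintro t t' ⟨x, hx, h⟩ ⟨x', hx', h'⟩
        exact ⟨x + x', S.add_mem hx hx', fun w => by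
          rw [LinearMap.add_apply, LinearMap.add_apply, map_add, h, h']⟩
      algebraMap_mem' := by
        intro r
        exact ⟨algebraMap K _ r, S.algebraMap_mem r, fun w => by
          rw [Module.algebraMap_end_apply, Module.algebraMap_end_apply, map_smul]⟩ }
  have hT : ∀ t, t ∈ T ↔ ∃ x ∈ S, ∀ w, Φ (x w) = t (Φ w) := fun t => Iff.rfl
  have hTe : ∀ j, μ (e j) ∈ T := by
    intro j
    have h1 : μ (e j) = ρ (monomial j 1) := by
      rw [hρ, rhoP_monomial, one_smul]
    rw [h1, rho_EE hsm']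
    refine T.sum_mem fun c hc => ?_
    unfold Polynomial.sum
    exact T.sum_mem fun i _ => T.smul_mem ((hT _).mpr (hES c hc i)) _
  have hTA : ∀ a, μ a ∈ T := by
    intro a
    obtain ⟨k, hk⟩ := hgen a
    unfold Fl at hk
    induction hk using Submodule.span_induction with
    | mem z hz =>
      obtain ⟨w, -, rfl⟩ := hz
      induction w with
      | nil => rw [wd_nil, map_one]; exact T.one_mem
      | cons v w ih => rw [wd_cons, map_mul]; exact T.mul_mem (hTe v) ih
    | zero => rw [map_zero]; exact T.zero_mem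
    | add y z _ _ hy hz => rw [map_add]; exact T.add_mem hy hz
    | smul r y _ hy =>
      rw [Algebra.smul_def, map_mul, hφ]
      exact T.mul_mem (T.algebraMap_mem _) hy
  choose x hxS hx using fun a => (hT _).mp (hTA a)
  have huniq : ∀ y z : Module.End K W, (∀ w, Φ (y w) = Φ (z w)) → y = z := fun y z h =>
    LinearMap.ext fun w => hΦ (h w)
  refine ⟨K, W, inferInstance, inferInstance, inferInstance, inferInstance, S, m, φ,
    { toFun := fun a => ⟨x a, hxS a⟩
      map_one' := Subtype.ext (huniq _ _ fun w => by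
        rw [hx, map_one]; rfl)
      map_mul' := fun a b => Subtype.ext (huniq _ _ fun w => by
        rw [hx, map_mul, Module.End.mul_apply]
        change _ = Φ (x a (x b w))
        rw [hx, hx])
      map_zero' := Subtype.ext (huniq _ _ fun w => by
        rw [hx, map_zero]
        change _ = Φ ((0 : Module.End K W) w)
        rw [LinearMap.zero_apply, LinearMap.zero_apply, map_zero])
      map_add' := fun a b => Subtype.ext (huniq _ _ fun w => by
        rw [hx, map_add, LinearMap.add_apply]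
        change _ = Φ (x a w + x b w)
        rw [map_add, hx, hx]) }, hS, fun r => ?_, fun a => ⟨fun h => ?_, fun h => ?_⟩⟩
  · apply Subtype.ext
    apply huniq
    intro w
    change Φ (x (algebraMap F A r) w) = Φ (algebraMap K (Module.End K W) (φ r) w)
    rw [hx, hφ, Module.algebraMap_end_apply, Module.algebraMap_end_apply, map_smul]
  · have h1 : x a = 0 := congrArg Subtype.val h
    obtain ⟨w, hw⟩ := exists_ne (0 : W)
    refine hP1 (Φ w) (fun h => hw (hΦ (by rw [h, map_zero]))) a fun b => ?_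
    rw [← hx b w, ← hx a, h1, LinearMap.zero_apply, map_zero]
  · apply Subtype.ext
    apply huniq
    intro w
    change Φ (x a w) = Φ ((0 : Module.End K W) w)
    rw [hx, hP0 a h, LinearMap.zero_apply, LinearMap.zero_apply, map_zero]

/-- The representation in a domain generated by points. -/
theorem dom_rep {P : TwoSidedIdeal A} (hP : IsPrimeT P)
    (hrep : ∃ (K W : Type) (_ : Field K) (_ : CharZero K) (_ : AddCommGroup W) (_ : Module K W)
      (S : Subalgebra K (Module.End K W)) (m : ℕ) (φ : F →+* K) (ψ : A →+* S),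
      PC K m S ∧ (∀ r, ψ (algebraMap F A r) = algebraMap K S (φ r)) ∧ ∀ a, ψ a = 0 ↔ a ∈ P) :
    ∃ (K B : Type) (_ : Field K) (_ : CharZero K) (_ : Ring B) (_ : Algebra K B) (m : ℕ)
      (φ : F →+* K) (ψ : A →+* B), Nontrivial B ∧ NoZeroDivisors B ∧ IsNoetherianRing B ∧
      PC K m (⊤ : Subalgebra K B) ∧ (∀ r, ψ (algebraMap F A r) = algebraMap K B (φ r)) ∧
      ∀ a, ψ a = 0 ↔ a ∈ P := by
  obtain ⟨K, W, _, _, _, _, S, m, φ, ψ, hS, hφ, hψ⟩ := hrep
  obtain ⟨Q, hQ, -, hQd⟩ := exists_prime_disj (A := S) (P0 := ⊥) (S := {s | ∃ u, u ∉ P ∧ s = ψ u})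
    ⟨ψ 1, 1, by
      intro h
      apply hP.1
      rwa [← TwoSidedIdeal.one_mem_iff], rfl⟩
    (by
      rintro _ ⟨u, hu, rfl⟩ _ ⟨v, hv, rfl⟩
      by_contra hcon
      push Not at hcon
      have h1 : ∀ x, u * x * v ∈ P := by
        intro x
        by_contra hx
        exact hcon (ψ x) ⟨u * x * v, hx, by rw [map_mul, map_mul]⟩
      rcases hP.elt h1 with h | h
      · exact hu h
      · exact hv h)
    (by
      rintro _ ⟨u, hu, rfl⟩ h
      rw [TwoSidedIdeal.mem_bot] at h
      exact hu ((hψ u).mp h))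
  have hQP : ∀ u, ψ u ∈ Q ↔ u ∈ P := by
    intro u
    constructor
    · intro h
      by_contra hu
      exact hQd _ ⟨u, hu, rfl⟩ h
    · intro h
      rw [(hψ u).mpr h]
      exact Q.zero_mem
  have h1 : PC K m (S.comap S.val) := PC.comap le_rfl hS
  have h2 : PC K m ((S.comap S.val).map (quo (F := K) Q)) := PC.map (E' := Quo Q) _ h1
  have htop : (S.comap S.val).map (quo (F := K) Q) = ⊤ := by
    rw [eq_top_iff]
    rintro z -
    obtain ⟨y, rfl⟩ := quo_surj (F := K) Q z
    exact ⟨y, y.2, rfl⟩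
  rw [htop] at h2
  obtain ⟨m', h3⟩ := h2.ch
  have h4 : PrimeS (⊤ : Subalgebra K (Quo Q)) := by
    refine ⟨?_, ?_⟩
    · intro h
      apply hQ.1
      rw [← TwoSidedIdeal.one_mem_iff, ← quo_eq_zero (F := K) Q, map_one]
      exact h
    · intro y _ z _ h
      obtain ⟨y, rfl⟩ := quo_surj (F := K) Q y
      obtain ⟨z, rfl⟩ := quo_surj (F := K) Q z
      rw [quo_eq_zero, quo_eq_zero]
      apply hQ.elt
      intro x
      rw [← quo_eq_zero (F := K) Q, map_mul, map_mul]
      exact h _ trivial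
  have h5 := chain_main m' K (Quo Q) _ h3 h4
  have h6 := (ch_noeth m' _ h3).1
  refine ⟨K, Quo Q, inferInstance, inferInstance, inferInstance, inferInstance, m, φ,
    (quo (F := K) Q).toRingHom.comp ψ, ⟨1, 0, h4.1⟩, ⟨fun {a b} hab => h5 a trivial b trivial hab⟩,
    ?_, h2, fun r => ?_, fun a => ?_⟩
  · exact isNoetherianRing_of_surjective _ _
      ((⊤ : Subalgebra K (Quo Q)).val.toRingHom) (fun z => ⟨⟨z, trivial⟩, rfl⟩)
  · change quo (F := K) Q (ψ (algebraMap F A r)) = _
    rw [hφ, AlgHom.commutes]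
  · change quo (F := K) Q (ψ a) = 0 ↔ _
    rw [quo_eq_zero, hQP]

end rep

end Pool.Agent.R693.G
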